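import Pool.Agent.H684Z.QS.Topo

set_option autoImplicit false

/-!
# Analytic tools: holomorphic lifts, a Harnack bound, critical points
-/

namespace Pool.Agent.H684Z.QS

open Set Metric Filter Topology Complex

lemma lift_hol {p : ℂ → ℂ} {S : Set ℂ} (hp : Differentiable ℂ p) (hc : IsCoveringMapOn p S)
    (hd : ∀ e, p e ∈ S → deriv p e ≠ 0) {z : ℂ} {ρ : ℝ} {θ : ℂ → ℂ}
    (hθ : DifferentiableOn ℂ θ (ball z ρ)) (hS : ∀ x ∈ ball z ρ, θ x ∈ S) {w e : ℂ}
    (hw : w ∈ ball z ρ) (he : p e = θ w) :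
    ∃ η : ℂ → ℂ, DifferentiableOn ℂ η (ball z ρ) ∧ η w = e ∧ ∀ x ∈ ball z ρ, p (η x) = θ x := by
  classical
  have hρ : 0 < ρ := nonempty_ball.1 ⟨w, hw⟩
  have := Metric.contractibleSpace_ball (x := z) hρ
  have := (isOpen_ball (x := z) (ε := ρ)).locallyPathConnectedSpace
  obtain ⟨G, ⟨h1, h2⟩, -⟩ := hc.existsUnique_continuousMap_lifts
    (⟨fun x : ball z ρ => θ x, hθ.continuousOn.domRestrict⟩ : C(ball z ρ, ℂ)) (a₀ := ⟨w, hw⟩) he
    (fun a => hS a a.2)
  let η : ℂ → ℂ := fun x => if h : x ∈ ball z ρ then G ⟨x, h⟩ else 0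
  have e1 : ∀ x (h : x ∈ ball z ρ), η x = G ⟨x, h⟩ := fun x h => dif_pos h
  have e2 : ∀ x ∈ ball z ρ, p (η x) = θ x := fun x h => by
    rw [e1 x h]; exact congrFun h2 ⟨x, h⟩
  have cη : ContinuousOn η (ball z ρ) := by
    rw [continuousOn_iff_continuous_domRestrict]
    convert G.continuous using 1
    ext x
    exact e1 x x.2
  refine ⟨η, fun x hx => ?_, by rw [e1 w hw, h1], e2⟩
  have hb := isOpen_ball.mem_nhds hx
  have hd' : deriv p (η x) ≠ 0 := hd _ (by rw [e2 x hx]; exact hS x hx)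
  have hs := (hp.analyticAt (η x)).hasStrictDerivAt
  have hl := (hs.hasStrictFDerivAt_equiv hd').eventually_left_inverse
  have h3 := (hs.to_localInverse hd').hasDerivAt.differentiableAt
  rw [e2 x hx] at h3
  refine ((h3.comp x (hθ.differentiableAt hb)).congr_of_eventuallyEq ?_).differentiableWithinAt
  filter_upwards [(cη.continuousAt hb).eventually hl, hb] with y h4 hy
  rw [e2 y hy] at h4
  exact h4.symm

lemma harnack {M a : ℝ} (ha : 0 < a) : ∃ a' > (0 : ℝ), ∀ (z : ℂ) (ρ : ℝ) (g : ℂ → ℂ),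
    DifferentiableOn ℂ g (ball z (4 * ρ)) → (∀ y ∈ ball z (4 * ρ), g y ≠ 0 ∧ ‖g y‖ ≤ M) →
    ∀ x ∈ ball z ρ, a ≤ ‖g x‖ → ∀ y ∈ closedBall z ρ, a' ≤ ‖g y‖ := by
  set A := max 1 (Real.log M - Real.log a) with hA
  have hA0 : 0 < A := one_pos.trans_le (le_max_left _ _)
  refine ⟨a * Real.exp (-(4 * A)), by positivity, fun z ρ g hg h0 x hx hgx y hy => ?_⟩
  have hρ : 0 < ρ := nonempty_ball.1 ⟨x, hx⟩
  have hx4 : x ∈ ball z (4 * ρ) := ball_subset_ball (by linarith) hx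
  have hy4 : y ∈ ball z (4 * ρ) := closedBall_subset_ball (by linarith) hy
  obtain ⟨l, h1, -, h2⟩ := lift_hol differentiable_exp isCoveringMapOn_exp
    (fun e _ => by simp) hg (fun y hy => (h0 y hy).1) hx4 (exp_log (h0 x hx4).1)
  have hn : ∀ y ∈ ball z (4 * ρ), ‖g y‖ = Real.exp (l y).re := fun y hy => by
    rw [← h2 y hy, norm_exp]
  have hm : MapsTo (fun u => x + u) (ball 0 (3 * ρ)) (ball z (4 * ρ)) := fun u hu => by
    have := dist_triangle (x + u) x z
    rw [mem_ball] at hx hu ⊢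
    rw [dist_zero_right] at hu
    rw [dist_self_add_left] at this
    linarith
  have hyx : ‖y - x‖ < 2 * ρ := by
    have := dist_triangle_right y x z
    rw [mem_ball] at hx
    rw [mem_closedBall] at hy
    rw [← dist_eq_norm]
    linarith
  have hb := borelCaratheodory_zero (f := fun u => l (x + u) - l x) (M := A) (R := 3 * ρ)
    (z := y - x) hA0 ((h1.comp (by fun_prop) hm).sub_const _) (fun u hu => ?_) (by positivity)
    (by rw [mem_ball, dist_zero_right]; linarith) (by simp)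
  · simp only [add_sub_cancel] at hb
    have h5 : 2 * A * ‖y - x‖ / (3 * ρ - ‖y - x‖) ≤ 4 * A := by
      rw [div_le_iff₀ (by linarith)]
      nlinarith
    have h6 := (abs_le.1 ((abs_re_le_norm _).trans (hb.trans h5))).1
    rw [sub_re] at h6
    rw [hn x hx4] at hgx
    rw [hn y hy4]
    calc a * Real.exp (-(4 * A)) ≤ Real.exp (l x).re * Real.exp (-(4 * A)) := by gcongr
      _ = Real.exp ((l x).re + -(4 * A)) := (Real.exp_add _ _).symm
      _ ≤ _ := Real.exp_le_exp.2 (by linarith)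
  · have h7 := (h0 _ (hm hu)).2
    rw [hn _ (hm hu)] at h7
    rw [hn x hx4] at hgx
    have h8 := Real.log_le_log (Real.exp_pos _) h7
    have h9 := Real.log_le_log ha hgx
    rw [Real.log_exp] at h8 h9
    have := le_max_right 1 (Real.log M - Real.log a)
    simp only [mem_ofPred_eq, sub_re]
    linarith

lemma not_injOn_crit {F : ℂ → ℂ} {c : ℂ} (hF : AnalyticAt ℂ F c) (hc : deriv F c = 0)
    {N : Set ℂ} (hN : N ∈ 𝓝 c) : ∃ p ∈ N, ∃ q ∈ N, p ≠ q ∧ F p = F q := by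
  by_cases h0 : ∀ᶠ z in 𝓝 c, F z - F c = 0
  · obtain ⟨q, h1, h2⟩ := ((h0.and hN).filter_mono (nhdsWithin_le_nhds (s := {c}ᶜ))).and
      self_mem_nhdsWithin |>.exists
    exact ⟨q, h1.2, c, mem_of_mem_nhds hN, h2, sub_eq_zero.1 h1.1⟩
  obtain ⟨m, g, hg, hg0, he⟩ :=
    (hF.sub analyticAt_const).exists_eventuallyEq_pow_smul_nonzero_iff.2 h0
  simp only [Pi.sub_apply, smul_eq_mul] at he
  have hm0 : m ≠ 0 := by
    rintro rfl
    have := he.self_of_nhds
    simp at this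
    exact hg0 this.symm
  have hm1 : m ≠ 1 := by
    rintro rfl
    have h1 : HasDerivAt (fun z => (z - c) ^ 1 * g z) (g c) c := by
      have := ((hasDerivAt_id c).sub_const c).fun_mul hg.differentiableAt.hasDerivAt
      simpa using this
    have h2 := (hF.differentiableAt.hasDerivAt.sub_const (F c)).unique
      (h1.congr_of_eventuallyEq he)
    exact hg0 (h2.symm.trans hc)
  have hmc : (m : ℂ) ≠ 0 := by exact_mod_cast hm0
  have hsl : g c / g c ∈ slitPlane := by simp [div_self hg0]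
  have hk : AnalyticAt ℂ (fun z => exp (log (g z / g c) / m)) c :=
    (((hg.div_const).clog hsl).div_const).cexp'
  let h : ℂ → ℂ := fun z => (z - c) * exp (log (g z / g c) / m)
  have hh : HasStrictDerivAt h 1 c := by
    have h1 : HasStrictDerivAt (fun z => z - c) 1 c := (hasStrictDerivAt_id c).sub_const c
    have := h1.fun_mul hk.hasStrictDerivAt
    simpa [div_self hg0] using this
  have hc0 : h c = 0 := by simp [h]
  have hmap := hh.map_nhds_eq one_ne_zero
  rw [hc0] at hmap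
  have hev : ∀ᶠ z in 𝓝 c, z ∈ N ∧ F z - F c = g c * h z ^ m := by
    filter_upwards [hN, he, hg.continuousAt.eventually_ne hg0] with z h1 h2 h3
    refine ⟨h1, ?_⟩
    rw [h2, mul_pow, ← exp_nat_mul, mul_div_cancel₀ _ hmc, exp_log (div_ne_zero h3 hg0)]
    field_simp
  have him : h '' {z | z ∈ N ∧ F z - F c = g c * h z ^ m} ∈ 𝓝 (0 : ℂ) := by
    rw [← hmap]; exact image_mem_map hev
  have hω := isPrimitiveRoot_exp m hm0
  set ω := exp (2 * Real.pi * I / m)
  have hc1 : Tendsto (fun t => ω * t) (𝓝 0) (𝓝 0) := by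
    have : Continuous (fun t => ω * t) := by fun_prop
    simpa using this.tendsto 0
  obtain ⟨t, ⟨⟨p, h1, h2⟩, q, h3, h4⟩, h5⟩ :=
    (((Filter.Eventually.and him (hc1.eventually him)).filter_mono
      (nhdsWithin_le_nhds (s := {0}ᶜ))).and self_mem_nhdsWithin).exists
  refine ⟨p, h1.1, q, h3.1, ?_, ?_⟩
  · rintro rfl
    have : ω = 1 := mul_right_cancel₀ h5 (by rw [← h4, h2, one_mul])
    exact hω.ne_one (by omega) this
  · have e1 := h1.2
    have e2 := h3.2
    rw [h2] at e1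
    rw [h4, mul_pow, hω.pow_eq_one, one_mul] at e2
    linear_combination e1 - e2

lemma two_open {F : ℂ → ℂ} (ho : IsOpenMap F) {N : Set ℂ} (hN : IsOpen N) :
    IsOpen {y | ∃ p ∈ N, ∃ q ∈ N, p ≠ q ∧ F p = y ∧ F q = y} := by
  rw [isOpen_iff_mem_nhds]
  rintro y ⟨p, hp, q, hq, hpq, h1, h2⟩
  obtain ⟨u, v, hu, hv, hpu, hqv, huv⟩ := t2_separation hpq
  have a1 := ho.image_mem_nhds ((hN.inter hu).mem_nhds ⟨hp, hpu⟩)
  have a2 := ho.image_mem_nhds ((hN.inter hv).mem_nhds ⟨hq, hqv⟩)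
  rw [h1] at a1
  rw [h2] at a2
  filter_upwards [a1, a2] with y' ⟨p', b1, b2⟩ ⟨q', b3, b4⟩
  exact ⟨p', b1.1, q', b3.1, fun h => Set.disjoint_left.1 huv b1.2 (h ▸ b3.2), b2, b4⟩

lemma side_comp {J : Set ℂ} (hJ : IsClosed J) (x : ℂ) : Side J (connectedComponentIn Jᶜ x) := by
  refine ⟨hJ.isOpen_compl.connectedComponentIn, fun y hy => connectedComponentIn_subset _ _ hy,
    fun y hy hyJ => ?_⟩
  obtain ⟨a, ha⟩ := closure_nonempty_iff.1 ⟨y, hy⟩
  have h1 : IsPreconnected (insert y (connectedComponentIn Jᶜ x)) :=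
    isPreconnected_connectedComponentIn.subset_closure (subset_insert _ _)
      (insert_subset hy subset_closure)
  rw [connectedComponentIn_eq ha]
  exact h1.subset_connectedComponentIn (mem_insert_of_mem _ ha)
    (insert_subset hyJ (connectedComponentIn_subset _ _)) (mem_insert _ _)

/-- a bounded invariant side of an expanding set is covered at least twice -/
lemma two_of_crit {J W S : Set ℂ} {F : ℂ → ℂ} (hF : Differentiable ℂ F) (ho : IsOpenMap F)
    (hJ : MapsTo F J J) (hW : Side J W) (cW : IsPreconnected W) (bW : Bornology.IsBounded W)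
    (mW : MapsTo F W W) (hS : S.Countable) (hS' : ∀ p, deriv F p = 0 → F p ∈ S) {c : ℂ}
    (hc : c ∈ W) (hc' : deriv F c = 0) {y : ℂ} (hy : y ∈ W) (hy' : ∀ p, F p = y → deriv F p ≠ 0) :
    ∃ p ∈ W, ∃ q ∈ W, p ≠ q ∧ F p = y ∧ F q = y := by
  let S' : Set ℂ := F '' {p | deriv F p = 0}
  have hS'c : S'.Countable := hS.mono (by rintro _ ⟨p, hp, rfl⟩; exact hS' p hp)
  have hT := two_open ho hW.op
  refine (preconnected_diff hW.op cW hS'c).subset_of_closure_inter_subset hT ?_ ?_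
    ⟨hy, fun ⟨p, h1, h2⟩ => hy' p h2 h1⟩
  · obtain ⟨p, hp, q, hq, hpq, h1⟩ := not_injOn_crit (hF.analyticAt c) hc' (hW.op.mem_nhds hc)
    obtain ⟨y, h2, h3⟩ := (hS'c.dense_compl ℝ).inter_open_nonempty _ (hW.op.inter hT)
      ⟨F q, mW hq, p, hp, q, hq, hpq, h1, rfl⟩
    exact ⟨y, ⟨h2.1, h3⟩, h2.2⟩
  · rintro y ⟨h1, h2, h3⟩
    let A : Set (ℂ × ℂ) := {a | a.1 ∈ W ∧ a.2 ∈ W ∧ a.1 ≠ a.2 ∧ F a.1 = F a.2}
    have cA : IsCompact (closure A) :=
      ((bW.prod bW).subset fun a ha => ⟨ha.1, ha.2.1⟩).isCompact_closure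
    have hcl : IsClosed ((fun a : ℂ × ℂ => F a.1) '' closure A) :=
      (cA.image (hF.continuous.comp continuous_fst)).isClosed
    obtain ⟨a, ha, rfl⟩ := closure_minimal (t := (fun a : ℂ × ℂ => F a.1) '' closure A)
      (by
        rintro y ⟨p, hp, q, hq, hpq, e1, e2⟩
        exact ⟨(p, q), subset_closure ⟨hp, hq, hpq, e1.trans e2.symm⟩, e1⟩) hcl h1
    simp only at h1 h2 h3
    have b1 : a.1 ∈ closure W := map_mem_closure continuous_fst ha fun a ha => ha.1
    have b2 : a.2 ∈ closure W := map_mem_closure continuous_snd ha fun a ha => ha.2.1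
    have b3 : F a.1 = F a.2 := closure_minimal (t := {a : ℂ × ℂ | F a.1 = F a.2})
      (fun a ha => ha.2.2.2) (isClosed_eq (hF.continuous.comp continuous_fst)
        (hF.continuous.comp continuous_snd)) ha
    refine ⟨a.1, hW.cl _ b1 fun h => hW.dis _ h2 (hJ h), a.2,
      hW.cl _ b2 fun h => hW.dis _ h2 (b3 ▸ hJ h), fun h => ?_, rfl, b3.symm⟩
    have hd : deriv F a.1 ≠ 0 := fun h' => h3 ⟨a.1, h', rfl⟩
    have hl := ((hF.analyticAt a.1).hasStrictDerivAt.hasStrictFDerivAt_equiv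
      hd).eventually_left_inverse
    have t1 : Tendsto (fun b : ℂ × ℂ => b.1) (𝓝 a) (𝓝 a.1) := continuous_fst.tendsto a
    have t2 : Tendsto (fun b : ℂ × ℂ => b.2) (𝓝 a) (𝓝 a.1) := h ▸ continuous_snd.tendsto a
    obtain ⟨b, c1, c2⟩ := mem_closure_iff_nhds.1 ha _ ((t1.eventually hl).and (t2.eventually hl))
    exact c2.2.2.1 (by rw [← c1.1, c2.2.2.2, c1.2])

end Pool.Agent.H684Z.QS
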