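import Pool.Agent.H684Z.QS.Sep

set_option autoImplicit false

/-!
# A Thompson-like bi-Lipschitz homeomorphism built from two contractions
-/

namespace Pool.Agent.H684Z.QS

open Set Metric Filter Topology

/-- `θ` is a contracting inverse branch of the entire map `G` on a disc -/
structure Good (J : Set ℂ) (z : ℂ) (r : ℝ) (θ G : ℂ → ℂ) : Prop where
  hd : DifferentiableOn ℂ θ (ball z r)
  hG : Differentiable ℂ G
  inv : ∀ x ∈ ball z r, G (θ x) = x
  lip : ∀ x ∈ ball z r, ∀ y ∈ ball z r, dist (θ x) (θ y) ≤ dist x y / 4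
  maps : MapsTo θ (ball z r) (ball z (r / 2))
  hJ : ∀ x, G x ∈ J ↔ x ∈ J
  depth : ∀ y, min r (infDist y J) ≤ infDist (G y) J

namespace Good

variable {J : Set ℂ} {z : ℂ} {r : ℝ} {θ G θ' G' : ℂ → ℂ}

lemma maps' (h : Good J z r θ G) : MapsTo θ (ball z r) (ball z r) := fun x hx =>
  ball_subset_ball (half_le_self (nonempty_ball.1 ⟨x, hx⟩).le) (h.maps hx)

lemma inj (h : Good J z r θ G) : InjOn θ (ball z r) := fun x hx y hy hxy => by
  rw [← h.inv x hx, hxy, h.inv y hy]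

lemma mem_iff (h : Good J z r θ G) {x : ℂ} (hx : x ∈ ball z r) : θ x ∈ J ↔ x ∈ J := by
  rw [← h.hJ, h.inv x hx]

lemma deriv_ne (h : Good J z r θ G) {x : ℂ} (hx : x ∈ ball z r) : deriv θ x ≠ 0 := by
  intro h0
  have h1 := (h.hd.differentiableAt (isOpen_ball.mem_nhds hx)).hasDerivAt
  have h2 := (h.hG (θ x)).hasDerivAt.comp x h1
  rw [h0, mul_zero] at h2
  have h3 : HasDerivAt (G ∘ θ) 1 x := by
    refine (hasDerivAt_id x).congr_of_eventuallyEq ?_
    filter_upwards [isOpen_ball.mem_nhds hx] with y hy using h.inv y hy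
  exact one_ne_zero (h3.unique h2)

lemma comp (h : Good J z r θ G) (h' : Good J z r θ' G') :
    Good J z r (fun x => θ (θ' x)) (fun x => G' (G x)) where
  hd := h.hd.comp h'.hd h'.maps'
  hG := h'.hG.comp h.hG
  inv := fun x hx => by rw [h.inv _ (h'.maps' hx), h'.inv x hx]
  lip := fun x hx y hy => by
    have h1 := h.lip _ (h'.maps' hx) _ (h'.maps' hy)
    have h2 := h'.lip x hx y hy
    have : 0 ≤ dist x y := dist_nonneg
    linarith
  maps := fun x hx => h.maps (h'.maps' hx)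
  hJ := fun x => by rw [h'.hJ, h.hJ]
  depth := fun y => le_trans (le_min (min_le_left _ _) (h.depth y)) (h'.depth (G y))

lemma iter (h : Good J z r θ G) (n : ℕ) : Good J z r (θ^[n + 1]) (G^[n + 1]) := by
  induction n with
  | zero => simpa using h
  | succ n ih =>
    have := h.comp ih
    rw [Function.iterate_succ' θ (n + 1), Function.iterate_succ G (n + 1)]
    exact this

lemma iter_dist (h : Good J z r θ G) (n : ℕ) {x y : ℂ} (hx : x ∈ ball z r) (hy : y ∈ ball z r) :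
    dist (θ^[n] x) (θ^[n] y) ≤ dist x y * (1 / 4) ^ n := by
  induction n with
  | zero => simp
  | succ n ih =>
    rw [Function.iterate_succ_apply', Function.iterate_succ_apply', pow_succ]
    have := h.lip _ (h.maps'.iterate n hx) _ (h.maps'.iterate n hy)
    linarith

lemma nhds (h : Good J z r θ G) {x : ℂ} (hx : x ∈ ball z r) {N : Set ℂ} (hN : N ∈ 𝓝 x) :
    θ '' N ∈ 𝓝 (θ x) :=
  map_nhds_of_deriv isOpen_ball h.hd hx (h.deriv_ne hx) hN

lemma lipOn (h : Good J z r θ G) {X : Set ℂ} (hX : X ⊆ ball z r) : LipOn θ X :=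
  ⟨1, one_pos, fun a ha b hb => by
    have := h.lip a (hX ha) b (hX hb)
    have : 0 ≤ dist a b := dist_nonneg
    linarith⟩

end Good

/-- a piece of `J` cut out at the fixed points of two contractions -/
structure Cfg (J A : Set ℂ) (z : ℂ) (r : ℝ) (φ F ψ G : ℂ → ℂ) (e f : ℂ) : Prop where
  gφ : Good J z r φ F
  gψ : Good J z r ψ G
  cJ : IsCompact J
  cA : IsCompact A
  AJ : A ⊆ J
  AD : A ⊆ ball z r
  fe : φ e = e
  ff : ψ f = f
  eA : e ∈ A
  fA : f ∈ A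
  mφ : MapsTo φ A A
  mψ : MapsTo ψ A A
  dis : ∀ x ∈ A, ∀ y ∈ A, φ x ≠ ψ y
  cY : IsClosed {x | x ∈ J ∧ (x ∉ A ∨ x = e ∨ x = f)}
  le : ∃ t > (0 : ℝ), ∀ x ∈ ball e t, x ∈ J → φ x ∈ A → x ∈ A
  lf : ∃ t > (0 : ℝ), ∀ x ∈ ball f t, x ∈ J → ψ x ∈ A → x ∈ A

open Classical in
/-- the piecewise map -/
noncomputable def gmap (A : Set ℂ) (φ F ψ G : ℂ → ℂ) (x : ℂ) : ℂ :=
  if x ∈ A then (if x ∈ φ '' A then (if F x ∈ ψ '' A then ψ (φ (G (F x))) else F x) else ψ x)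
  else x

namespace Cfg

variable {J A : Set ℂ} {z : ℂ} {r : ℝ} {φ F ψ G : ℂ → ℂ} {e f : ℂ}

lemma symm (h : Cfg J A z r φ F ψ G e f) : Cfg J A z r ψ G φ F f e where
  gφ := h.gψ
  gψ := h.gφ
  cJ := h.cJ
  cA := h.cA
  AJ := h.AJ
  AD := h.AD
  fe := h.ff
  ff := h.fe
  eA := h.fA
  fA := h.eA
  mφ := h.mψ
  mψ := h.mφ
  dis := fun x hx y hy => (h.dis y hy x hx).symm
  cY := by
    have := h.cY
    simpa only [or_comm (a := _ = f)] using this
  le := h.lf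
  lf := h.le

lemma ne (h : Cfg J A z r φ F ψ G e f) : e ≠ f := by
  have := h.dis e h.eA f h.fA
  rwa [h.fe, h.ff] at this

lemma sep_e (h : Cfg J A z r φ F ψ G e f) :
    SepAt e A {x | x ∈ J ∧ (x ∉ A ∨ x = e ∨ x = f)} := by
  obtain ⟨t, ht, hle⟩ := h.le
  obtain ⟨t1, ht1, hb⟩ := Metric.mem_nhds_iff.1 (isOpen_ball.mem_nhds (h.AD h.eA))
  have hef : 0 < dist f e := dist_pos.2 h.ne.symm
  set t0 := min (min t t1) (dist f e)
  have s1 : ball e t0 ⊆ ball e t := ball_subset_ball ((min_le_left _ _).trans (min_le_left _ _))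
  have s2 : ball e t0 ⊆ ball z r :=
    (ball_subset_ball ((min_le_left _ _).trans (min_le_right _ _))).trans hb
  have s3 : ∀ x ∈ ball e t0, x ≠ f := by
    rintro x hx rfl
    exact absurd (mem_ball.1 hx) (not_lt.2 (min_le_right _ _))
  refine sep_self (φ := φ) (t0 := t0) (by positivity) (h.gφ.hd.mono s2) h.fe
    (h.gφ.deriv_ne (h.AD h.eA)) ?_ h.cA.isClosed h.cY ?_ ?_ ?_
  · intro x hx
    have := h.gφ.lip x (s2 hx) e (h.AD h.eA)
    rwa [h.fe] at this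
  · rintro x hx hA ⟨-, h1 | h1 | h1⟩
    · exact absurd hA h1
    · exact h1
    · exact absurd h1 (s3 x hx)
  · intro x hx hA
    exact hle x (s1 hx) ((h.gφ.mem_iff (s2 hx)).1 (h.AJ hA)) hA
  · rintro x hx ⟨hJ, h1⟩
    refine ⟨(h.gφ.mem_iff (s2 hx)).1 hJ, ?_⟩
    by_cases hA : x ∈ A
    · rcases h1 with h1 | h1 | h1
      · exact absurd (h.mφ hA) h1
      · exact Or.inr (Or.inl (h.gφ.inj (s2 hx) (h.AD h.eA) (h1.trans h.fe.symm)))
      · exact absurd (h1.trans h.ff.symm) (h.dis x hA f h.fA)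
    · exact Or.inl hA

lemma closed_R (h : Cfg J A z r φ F ψ G e f) :
    IsCompact {x | x ∈ A ∧ (x ∉ φ '' A ∨ x = φ f)} := by
  refine h.cA.of_isClosed_subset ?_ (fun x hx => hx.1)
  rw [← isOpen_compl_iff, isOpen_iff_mem_nhds]
  intro y hy
  by_cases hyA : y ∈ A
  swap
  · filter_upwards [h.cA.isClosed.isOpen_compl.mem_nhds hyA] with w hw hw' using hw hw'.1
  simp only [mem_compl_iff, mem_ofPred_eq, hyA, true_and, not_or, not_not] at hy
  obtain ⟨⟨x, hx, rfl⟩, hne⟩ := hy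
  have hxf : x ≠ f := fun h' => hne (by rw [h'])
  have key : ∃ N ∈ 𝓝 x, ∀ w ∈ N, w ∈ J → φ w ∈ A → w ∈ A ∧ w ≠ f := by
    by_cases hxe : x = e
    · obtain ⟨t, ht, hle⟩ := h.le
      subst hxe
      refine ⟨ball x t ∩ {f}ᶜ, inter_mem (ball_mem_nhds _ ht) (isOpen_compl_singleton.mem_nhds hxf),
        fun w hw hJ hA => ⟨hle w hw.1 hJ hA, hw.2⟩⟩
    · refine ⟨_, h.cY.isOpen_compl.mem_nhds (x := x) (by simp [hx, hxe, hxf]), ?_⟩
      intro w hw hJ _
      simp only [mem_compl_iff, mem_ofPred_eq, hJ, true_and, not_or, not_not] at hw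
      exact ⟨hw.1, hw.2.2⟩
  obtain ⟨N, hN, hk⟩ := key
  filter_upwards [h.gφ.nhds (h.AD hx) (inter_mem hN (isOpen_ball.mem_nhds (h.AD hx)))]
  rintro _ ⟨w, ⟨hw, hw'⟩, rfl⟩ ⟨hA, h1⟩
  obtain ⟨h2, h3⟩ := hk w hw ((h.gφ.mem_iff hw').1 (h.AJ hA)) hA
  rcases h1 with h1 | h1
  · exact h1 ⟨w, h2, rfl⟩
  · exact h3 (h.gφ.inj hw' (h.AD h.fA) h1)

lemma compact_im (h : Cfg J A z r φ F ψ G e f) : IsCompact (φ '' A) :=
  h.cA.image_of_continuousOn (h.gφ.hd.continuousOn.mono h.AD)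

lemma sep_s (h : Cfg J A z r φ F ψ G e f) :
    SepAt (φ f) (φ '' A) {x | x ∈ A ∧ (x ∉ φ '' A ∨ x = φ f)} := by
  obtain ⟨c, hc, t, ht, hs⟩ := h.symm.sep_e
  obtain ⟨K, hK, hF⟩ := lipOn_entire h.gφ.hG h.cA
  obtain ⟨t', ht', hb⟩ := Metric.mem_nhds_iff.1 (h.gφ.nhds (h.AD h.fA)
    (inter_mem (ball_mem_nhds f ht) (isOpen_ball.mem_nhds (h.AD h.fA))))
  refine ⟨c / K, by positivity, t', ht', ?_⟩
  rintro _ ⟨a, ha, rfl⟩ b ⟨hbA, hb'⟩ hat hbt
  obtain ⟨a', ⟨h1, h2⟩, h3⟩ := hb hat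
  obtain rfl : a' = a := h.gφ.inj h2 (h.AD ha) h3
  obtain ⟨b', ⟨h4, h5⟩, rfl⟩ := hb hbt
  have hY : b' ∈ {x | x ∈ J ∧ (x ∉ A ∨ x = f ∨ x = e)} := by
    refine ⟨(h.gφ.mem_iff h5).1 (h.AJ hbA), ?_⟩
    rcases hb' with h6 | h6
    · exact Or.inl fun h7 => h6 ⟨b', h7, rfl⟩
    · exact Or.inr (Or.inl (h.gφ.inj h5 (h.AD h.fA) h6))
  have e1 := hs a' ha b' hY h1 h4
  have e2 := hF _ (h.mφ ha) _ hbA
  rw [h.gφ.inv _ h2, h.gφ.inv _ h5] at e2
  have e3 := h.gφ.lip a' h2 f (h.AD h.fA)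
  have e4 : 0 ≤ dist a' f := dist_nonneg
  rw [div_mul_eq_mul_div, div_le_iff₀ hK]
  nlinarith

lemma glue_A (h : Cfg J A z r φ F ψ G e f) {g : ℂ → ℂ} (h1 : LipOn g (φ '' A))
    (h2 : LipOn g {x | x ∈ A ∧ (x ∉ φ '' A ∨ x = φ f)}) : LipOn g A := by
  refine (glue h.compact_im h.closed_R ?_ h1 h2).mono ?_
  · rintro x hx ⟨-, h3 | h3⟩
    · exact absurd hx h3
    · rw [h3]; exact h.sep_s
  · intro x hx
    by_cases h3 : x ∈ φ '' A
    · exact Or.inl h3
    · exact Or.inr ⟨hx, Or.inl h3⟩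

lemma glue_J (h : Cfg J A z r φ F ψ G e f) {g : ℂ → ℂ} (h1 : LipOn g A)
    (h2 : LipOn g {x | x ∈ J ∧ (x ∉ A ∨ x = e ∨ x = f)}) : LipOn g J := by
  refine (glue h.cA (h.cJ.of_isClosed_subset h.cY fun x hx => hx.1) ?_ h1 h2).mono ?_
  · rintro x hx ⟨-, h3 | h3 | h3⟩
    · exact absurd hx h3
    · rw [h3]; exact h.sep_e
    · rw [h3]
      have := h.symm.sep_e
      simpa only [or_comm (a := _ = f)] using this
  · intro x hx
    by_cases h3 : x ∈ A
    · exact Or.inl h3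
    · exact Or.inr ⟨hx, Or.inl h3⟩

lemma g_out {x : ℂ} (hx : x ∉ A) : gmap A φ F ψ G x = x := by
  simp [gmap, hx]

lemma g_R {x : ℂ} (hx : x ∈ A) (hx' : x ∉ φ '' A) : gmap A φ F ψ G x = ψ x := by
  rw [gmap, if_pos hx, if_neg hx']

lemma g_L (h : Cfg J A z r φ F ψ G e f) {y : ℂ} (hy : y ∈ A) (hy' : y ∉ ψ '' A) :
    gmap A φ F ψ G (φ y) = y := by
  rw [gmap, if_pos (h.mφ hy), if_pos ⟨y, hy, rfl⟩, h.gφ.inv y (h.AD hy), if_neg hy']

lemma g_M (h : Cfg J A z r φ F ψ G e f) {y : ℂ} (hy : y ∈ A) :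
    gmap A φ F ψ G (φ (ψ y)) = ψ (φ y) := by
  rw [gmap, if_pos (h.mφ (h.mψ hy)), if_pos ⟨ψ y, h.mψ hy, rfl⟩, h.gφ.inv _ (h.AD (h.mψ hy)),
    if_pos ⟨y, hy, rfl⟩, h.gψ.inv y (h.AD hy)]

lemma not_im (h : Cfg J A z r φ F ψ G e f) {y : ℂ} (hy : y ∈ A) : ψ y ∉ φ '' A := by
  rintro ⟨x, hx, h1⟩
  exact h.dis x hx y hy h1

lemma g_lip (h : Cfg J A z r φ F ψ G e f) : LipOn (gmap A φ F ψ G) J := by
  have hφA : φ '' A ⊆ A := h.mφ.image_subset
  have hψA : ψ '' A ⊆ A := h.mψ.image_subset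
  apply h.glue_J
  · apply h.glue_A
    · have h1 : LipOn (fun y => gmap A φ F ψ G (φ y)) A := by
        apply h.symm.glue_A
        · have h2 : LipOn (fun y => ψ (φ (G y))) (ψ '' A) := by
            have m1 : MapsTo G (ψ '' A) A := by
              rintro _ ⟨y, hy, rfl⟩
              rwa [h.gψ.inv y (h.AD hy)]
            exact ((h.gψ.lipOn h.AD).comp (h.gφ.lipOn h.AD) h.mφ).comp
              (lipOn_entire h.gψ.hG h.symm.compact_im) m1
          refine h2.congr ?_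
          rintro _ ⟨y, hy, rfl⟩
          rw [h.g_M hy, h.gψ.inv y (h.AD hy)]
        · refine (lipOn_id _).congr ?_
          rintro y ⟨hy, h2 | h2⟩
          · exact h.g_L hy h2
          · rw [h2, h.g_M h.eA, h.fe]
      have m1 : MapsTo F (φ '' A) A := by
        rintro _ ⟨y, hy, rfl⟩
        rwa [h.gφ.inv y (h.AD hy)]
      refine (h1.comp (lipOn_entire h.gφ.hG h.compact_im) m1).congr ?_
      rintro _ ⟨y, hy, rfl⟩
      rw [h.gφ.inv y (h.AD hy)]
    · refine (h.gψ.lipOn fun x hx => h.AD hx.1).congr ?_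
      rintro x ⟨hx, h2 | h2⟩
      · exact g_R hx h2
      · have := h.g_M h.fA
        rw [h.ff] at this
        rw [h2, this]
  · refine (lipOn_id _).congr ?_
    rintro x ⟨-, h2 | h2 | h2⟩
    · exact g_out h2
    · have h3 := h.symm.not_im h.eA
      rw [h.fe] at h3
      have := h.g_L h.eA h3
      rw [h.fe] at this
      rw [h2, this]
    · have h3 := h.not_im h.fA
      rw [h.ff] at h3
      rw [h2, g_R h.fA h3, h.ff]

lemma g_inv (h : Cfg J A z r φ F ψ G e f) (x : ℂ) :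
    gmap A ψ G φ F (gmap A φ F ψ G x) = x := by
  by_cases hx : x ∈ A
  · by_cases h1 : x ∈ φ '' A
    · obtain ⟨y, hy, rfl⟩ := h1
      by_cases h2 : y ∈ ψ '' A
      · obtain ⟨w, hw, rfl⟩ := h2
        rw [h.g_M hw, h.symm.g_M hw]
      · rw [h.g_L hy h2, g_R hy h2]
    · rw [g_R hx h1, h.symm.g_L hx h1]
  · rw [g_out hx, g_out hx]

lemma g_mem (h : Cfg J A z r φ F ψ G e f) {x : ℂ} (hJ : x ∈ J) : gmap A φ F ψ G x ∈ J := by
  by_cases hx : x ∈ A
  · by_cases h1 : x ∈ φ '' A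
    · obtain ⟨y, hy, rfl⟩ := h1
      by_cases h2 : y ∈ ψ '' A
      · obtain ⟨w, hw, rfl⟩ := h2
        rw [h.g_M hw]; exact h.AJ (h.mψ (h.mφ hw))
      · rw [h.g_L hy h2]; exact h.AJ hy
    · rw [g_R hx h1]; exact h.AJ (h.mψ hx)
  · rwa [g_out hx]

end Cfg

/-- bi-Lipschitz self-homeomorphisms -/
def BL {J : Set ℂ} (h : J ≃ₜ J) : Prop :=
  ∃ K : ℝ, 0 < K ∧ ∀ x y : J, dist (h x) (h y) ≤ K * dist x y ∧ dist x y ≤ K * dist (h x) (h y)

lemma LipOn.continuous {g : ℂ → ℂ} {J : Set ℂ} (h : LipOn g J) :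
    Continuous (fun x : J => g x) := by
  obtain ⟨K, hK, h⟩ := h
  exact (LipschitzOnWith.of_dist_le_mul (K := ⟨K, hK.le⟩) h).continuousOn.domRestrict

theorem Cfg.infinite {J A : Set ℂ} {z : ℂ} {r : ℝ} {φ F ψ G : ℂ → ℂ} {e f : ℂ}
    (h : Cfg J A z r φ F ψ G e f) : {g : J ≃ₜ J | BL g}.Infinite := by
  let g : J ≃ₜ J :=
    { toFun := fun x => ⟨gmap A φ F ψ G x, h.g_mem x.2⟩
      invFun := fun x => ⟨gmap A ψ G φ F x, h.symm.g_mem x.2⟩
      left_inv := fun x => Subtype.ext (h.g_inv x)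
      right_inv := fun x => Subtype.ext (h.symm.g_inv x)
      continuous_toFun := h.g_lip.continuous.subtype_mk _
      continuous_invFun := h.symm.g_lip.continuous.subtype_mk _ }
  have hg : BL g := by
    obtain ⟨K, hK, h1⟩ := h.g_lip
    obtain ⟨K', hK', h2⟩ := h.symm.g_lip
    refine ⟨K + K', by positivity, fun x y => ⟨?_, ?_⟩⟩
    · exact (h1 x x.2 y y.2).trans (mul_le_mul_of_nonneg_right (by linarith) dist_nonneg)
    · have := h2 _ (h.g_mem x.2) _ (h.g_mem y.2)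
      rw [h.g_inv, h.g_inv] at this
      exact this.trans (mul_le_mul_of_nonneg_right (by linarith) dist_nonneg)
  have hpow : ∀ n : ℕ, BL (g ^ n) := by
    intro n
    induction n with
    | zero => exact ⟨1, one_pos, fun x y => by simp⟩
    | succ n ih =>
      obtain ⟨K, hK, h1⟩ := hg
      obtain ⟨K', hK', h2⟩ := ih
      refine ⟨K * K', by positivity, fun x y => ?_⟩
      rw [pow_succ', Homeomorph.mul_apply, Homeomorph.mul_apply]
      constructor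
      · refine (h1 _ _).1.trans ?_
        rw [mul_assoc]
        exact mul_le_mul_of_nonneg_left (h2 x y).1 hK.le
      · refine (h2 x y).2.trans ?_
        rw [mul_comm K, mul_assoc]
        exact mul_le_mul_of_nonneg_left (h1 _ _).2 hK'.le
  have hs : ψ e ∈ A := h.mψ h.eA
  have hit : ∀ n : ℕ, (((g ^ n) ⟨ψ e, h.AJ hs⟩ : J) : ℂ) = ψ^[n + 1] e := by
    intro n
    induction n with
    | zero => simp
    | succ n ih =>
      rw [pow_succ', Homeomorph.mul_apply]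
      change gmap A φ F ψ G _ = _
      rw [ih, Function.iterate_succ_apply' ψ (n + 1), Function.iterate_succ_apply' ψ n]
      have hn : ψ^[n] e ∈ A := h.mψ.iterate n h.eA
      exact Cfg.g_R (h.mψ hn) (h.not_im hn)
  have hne : ∀ n : ℕ, ψ^[n] e ≠ f := by
    intro n
    induction n with
    | zero => exact h.ne
    | succ n ih =>
      rw [Function.iterate_succ_apply']
      intro h1
      exact ih (h.gψ.inj (h.AD (h.mψ.iterate n h.eA)) (h.AD h.fA) (h1.trans h.ff.symm))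
  have hanti : StrictAnti (fun n : ℕ => dist (ψ^[n + 1] e) f) := by
    apply strictAnti_nat_of_succ_lt
    intro n
    have h1 := h.gψ.lip _ (h.AD (h.mψ.iterate (n + 1) h.eA)) f (h.AD h.fA)
    rw [h.ff] at h1
    have h2 := dist_pos.2 (hne (n + 1))
    rw [Function.iterate_succ_apply' ψ (n + 1)]
    linarith
  refine Set.infinite_of_injective_forall_mem (f := fun n : ℕ => g ^ n) ?_ hpow
  intro m n hmn
  apply hanti.injective
  simp only at hmn ⊢
  rw [← hit, ← hit, hmn]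

end Pool.Agent.H684Z.QS
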