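import Pool.Agent.H684Z.QS.Pol

set_option autoImplicit false

/-!
# A connected Julia set forces bounded critical orbits; the main theorem for polynomials
-/

namespace Pool.Agent.H684Z.QS

open Set Metric Filter Topology Complex unitInterval

lemma V_prod {γ : I → ℂ} (hγ : Continuous γ) {a : ℂ} (ha : a ≠ 0) (s : Multiset ℂ)
    (hs : ∀ y ∈ s, ∀ t, γ t ≠ y) :
    V (fun t => a * (s.map (fun y => γ t - y)).prod) = (s.map (L γ)).sum := by
  induction s using Multiset.induction_on with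
  | empty => simpa using V_const ha
  | cons y s ih =>
    have h1 : ∀ y ∈ s, ∀ t, γ t ≠ y := fun y hy => hs y (Multiset.mem_cons_of_mem hy)
    have h2 : Continuous (fun t => a * (s.map (fun y => γ t - y)).prod) :=
      continuous_const.mul (continuous_multiset_prod s fun y _ => hγ.sub continuous_const)
    have h3 := V_mul (h := fun t => γ t - y) (hγ.sub continuous_const)
      (fun t => sub_ne_zero.2 (hs y (Multiset.mem_cons_self _ _) t)) h2 (fun t =>
        mul_ne_zero ha (Multiset.prod_ne_zero fun h => by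
          obtain ⟨y, h4, h5⟩ := Multiset.mem_map.1 h
          exact h1 y h4 t (sub_eq_zero.1 h5)))
    rw [Multiset.map_cons, Multiset.sum_cons, ← ih h1, L, ← h3]
    congr 1
    ext t
    rw [Multiset.map_cons, Multiset.prod_cons]
    ring

lemma norm_le_of_sum {s : Multiset ℂ} (hs : s ≠ 0) {τ : ℂ} {e : ℂ → ℂ} {c : ℝ}
    (h : (s.map (fun y => τ + e y)).sum = 0) (he : ∀ y ∈ s, ‖e y‖ ≤ c) : ‖τ‖ ≤ c := by
  rw [Multiset.sum_map_add, Multiset.map_const', Multiset.sum_replicate,
    add_eq_zero_iff_eq_neg] at h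
  have h1 : ‖(s.map e).sum‖ ≤ s.card * c := by
    refine (norm_multiset_sum_le _).trans ?_
    have := Multiset.sum_le_card_nsmul ((s.map e).map fun x => ‖x‖) c (by
      intro x hx
      obtain ⟨z, h1, rfl⟩ := Multiset.mem_map.1 hx
      obtain ⟨y, h2, rfl⟩ := Multiset.mem_map.1 h1
      exact he y h2)
    simpa using this
  have h2 := congrArg norm h
  rw [norm_neg, nsmul_eq_mul, norm_mul, norm_natCast] at h2
  have h3 : (0 : ℝ) < s.card := by exact_mod_cast Multiset.card_pos.2 hs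
  exact le_of_mul_le_mul_left (h2.le.trans h1) h3

lemma log_lip {u v : ℂ} (hu : ‖u‖ ≤ 1 / 8) (hv : ‖v‖ ≤ 1 / 8) :
    ‖log (1 - u) - log (1 - v)‖ ≤ 2 * ‖u - v‖ := by
  have hs : ∀ x ∈ closedBall (0 : ℂ) (1 / 8), 1 - x ∈ slitPlane := fun x hx => by
    rw [sub_eq_add_neg]
    apply mem_slitPlane_of_norm_lt_one
    rw [mem_closedBall_zero_iff] at hx
    rw [norm_neg]
    linarith
  refine (convex_closedBall (0 : ℂ) (1 / 8)).norm_image_sub_le_of_norm_hasDerivWithin_le
    (f := fun x => log (1 - x)) (f' := fun x => -1 / (1 - x)) (fun x hx => ?_) (fun x hx => ?_)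
    (mem_closedBall_zero_iff.2 hv) (mem_closedBall_zero_iff.2 hu)
  · exact (((hasDerivAt_id x).const_sub 1).clog (hs x hx)).hasDerivWithinAt
  · rw [mem_closedBall_zero_iff] at hx
    have := norm_sub_norm_le (1 : ℂ) x
    rw [norm_one] at this
    rw [norm_div, norm_neg, norm_one, div_le_iff₀ (by linarith)]
    linarith

namespace Pol

variable {f : ℂ → ℂ} {R : ℝ} {K : Set ℂ}

lemma crit_mem (h : Pol f R K) (hJ : IsConnected (frontier K)) {c : ℂ} (hc : deriv f c = 0) :
    c ∈ K := by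
  by_contra hcK
  have hR := h.hR
  set CV := f '' {c | deriv f c = 0} with hCV
  have cCV : CV.Countable := (h.fin.image f).countable
  have dCV : Dense CVᶜ := cCV.dense_compl ℝ
  have oB := h.closedK.isOpen_compl
  obtain ⟨ε, hε, b1⟩ := Metric.isOpen_iff.1 oB (f c) (fun h' => hcK ((h.invK c).1 h'))
  obtain ⟨δ, hδ, b2⟩ := Metric.isOpen_iff.1 (isOpen_ball.preimage h.hf.continuous) c
    (mem_ball_self hε : f c ∈ ball (f c) ε)
  obtain ⟨p, hp, q, hq, hpq, he⟩ := not_injOn_crit (h.hf.analyticAt c) hc (ball_mem_nhds c hδ)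
  obtain ⟨w0, ⟨z1, hz1, z2, hz2, hne, e1, e2⟩, hw0⟩ := dCV.inter_open_nonempty _
    (two_open h.op (isOpen_ball (x := c) (ε := δ))) ⟨f q, p, hp, q, hq, hpq, he, rfl⟩
  obtain ⟨M, hM⟩ := (isCompact_closedBall (0 : ℂ) (8 * R)).exists_bound_of_continuousOn
    h.hf.continuous.continuousOn
  obtain ⟨w1, hw1, hw1'⟩ := dCV.inter_open_nonempty {w | max M R < ‖w‖}
    (isOpen_lt continuous_const continuous_norm) ⟨((max M R + 1 : ℝ) : ℂ), by
      have := le_max_right M R
      simp only [mem_ofPred_eq]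
      rw [norm_real, Real.norm_of_nonneg (by linarith)]; linarith⟩
  simp only [mem_ofPred_eq, max_lt_iff] at hw1
  have m0 : w0 ∈ Kᶜ \ CV := ⟨b1 (e1 ▸ b2 hz1), hw0⟩
  obtain ⟨β, hβ⟩ := ((oB.sdiff (h.fin.image f).isClosed).isConnected_iff_isPathConnected.1
    ⟨⟨w0, m0⟩, preconnected_diff oB h.preB cCV⟩).joinedIn w0 m0 w1
    ⟨fun h' => not_lt.2 (h.normK h') hw1.2, hw1'⟩
  obtain ⟨α, hα⟩ := (isPathConnected_ball (x := c) hδ).joinedIn z1 hz1 z2 hz2
  have : ContractibleSpace I := (convex_Icc (0 : ℝ) 1).contractibleSpace ⟨0, by simp⟩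
  have : LocallyPathConnectedSpace I := (convex_Icc (0 : ℝ) 1).locallyPathConnectedSpace
  obtain ⟨β1, ⟨a1, a2⟩, -⟩ := h.cov.existsUnique_continuousMap_lifts β.toContinuousMap (a₀ := 0)
    (e₀ := z1) (by simpa using e1) (fun t => (hβ t).2)
  obtain ⟨β2, ⟨a3, a4⟩, -⟩ := h.cov.existsUnique_continuousMap_lifts β.toContinuousMap (a₀ := 0)
    (e₀ := z2) (by simpa using e2) (fun t => (hβ t).2)
  have f1 : ∀ t, f (β1 t) = β t := congrFun a2
  have f2 : ∀ t, f (β2 t) = β t := congrFun a4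
  have hζ : β1 1 ≠ β2 1 := fun h' => by
    have := (h.cov.existsUnique_continuousMap_lifts β.toContinuousMap (a₀ := 1)
      (e₀ := β1 1) (f1 1) (fun t => (hβ t).2)).unique ⟨rfl, a2⟩ ⟨h'.symm, a4⟩
    exact hne (by rw [← a1, ← a3, this])
  have far : ∀ ζ, f ζ = β 1 → 8 * R < ‖ζ‖ := fun ζ h1 => by
    by_contra h2
    have := hM ζ (mem_closedBall_zero_iff.2 (not_lt.1 h2))
    rw [h1, β.target] at this
    linarith [hw1.1]
  have g1 := far _ (f1 1)
  have g2 := far _ (f2 1)
  set ζ1 := β1 1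
  set ζ2 := β2 1
  have n1 : ζ1 ≠ 0 := norm_pos_iff.1 (by linarith)
  have n2 : ζ2 ≠ 0 := norm_pos_iff.1 (by linarith)
  have av : ∀ {γ : I → ℂ}, (∀ t, f (γ t) ∉ K) → ∀ y ∈ frontier K, ∀ t, γ t ≠ y :=
    fun hγ y hy t h' => hγ t ((h.invK _).2 (h' ▸ h.subK hy))
  have vα := av (γ := α) fun t => b1 (b2 (hα t))
  have v1 := av (γ := β1) fun t => by rw [f1]; exact (hβ t).1
  have v2 := av (γ := β2) fun t => by rw [f2]; exact (hβ t).1
  have sm : ∀ ζ : ℂ, 8 * R < ‖ζ‖ → ∀ y ∈ frontier K, ‖y / ζ‖ ≤ 1 / 8 := fun ζ h1 y hy => by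
    rw [norm_div, div_le_iff₀ (by linarith)]
    linarith [h.normK (h.subK hy)]
  have sl : ∀ ζ : ℂ, 8 * R < ‖ζ‖ → ∀ y ∈ frontier K, 1 - y / ζ ∈ slitPlane := fun ζ h1 y hy => by
    rw [sub_eq_add_neg]
    apply mem_slitPlane_of_norm_lt_one
    rw [norm_neg]
    linarith [sm ζ h1 y hy]
  let e : ℂ → ℂ := fun y => log (1 - y / ζ2) - log (1 - y / ζ1)
  let D : ℂ → ℂ := fun y => L α y + L β2 y - L β1 y - e y
  have cD : ContinuousOn D (frontier K) :=
    ((((L_continuousOn α.continuous).mono vα).add ((L_continuousOn β2.continuous).mono v2)).sub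
      ((L_continuousOn β1.continuous).mono v1)).sub
      ((ContinuousOn.clog (by fun_prop) (sl _ g2)).sub (ContinuousOn.clog (by fun_prop) (sl _ g1)))
  have eD : ∀ y ∈ frontier K, exp (D y) = ζ2 / ζ1 := fun y hy => by
    have k1 : z1 - y ≠ 0 := sub_ne_zero.2 (by simpa using vα y hy 0)
    have k2 : z2 - y ≠ 0 := sub_ne_zero.2 (by simpa using vα y hy 1)
    have k3 : ζ1 - y ≠ 0 := sub_ne_zero.2 (v1 y hy 1)
    have k4 : ζ2 - y ≠ 0 := sub_ne_zero.2 (v2 y hy 1)
    simp only [D, e]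
    rw [exp_sub, exp_sub, exp_add, exp_sub, exp_L α.continuous (vα y hy),
      exp_L β1.continuous (v1 y hy), exp_L β2.continuous (v2 y hy),
      exp_log (slitPlane_ne_zero (sl _ g1 y hy)), exp_log (slitPlane_ne_zero (sl _ g2 y hy)),
      a1, a3, α.source, α.target]
    change (z2 - y) / (z1 - y) * ((ζ2 - y) / (z2 - y)) / ((ζ1 - y) / (z1 - y)) / _ = _
    field_simp
  obtain ⟨w, hw⟩ := hJ.nonempty
  obtain ⟨a, ha, s, hs, hf⟩ := h.roots w
  have sJ : ∀ y ∈ s, y ∈ frontier K := fun y hy => by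
    have := hf y
    rw [Multiset.prod_eq_zero (Multiset.mem_map.2 ⟨y, hy, sub_self y⟩), mul_zero,
      sub_eq_zero] at this
    rw [← h.invJ, this]
    exact hw
  have sumL : ∀ {γ : I → ℂ}, Continuous γ → (∀ y ∈ frontier K, ∀ t, γ t ≠ y) →
      (s.map (L γ)).sum = L (fun t => f (γ t)) w := fun hγ hv => by
    rw [← V_prod hγ ha s (fun y hy => hv y (sJ y hy)), L]
    simp only [hf]
  have s0 : (s.map (fun y => D w + e y)).sum = 0 := by
    rw [Multiset.map_congr rfl (g := fun y => L α y + L β2 y - L β1 y) (fun y hy => by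
      rw [const_of_exp_const hJ.isPreconnected cD eD hw (sJ y hy)]; simp [D]),
      Multiset.sum_map_sub, Multiset.sum_map_add, sumL α.continuous vα, sumL β1.continuous v1,
      sumL β2.continuous v2, L_near (e := f c) (h.hf.continuous.comp' α.continuous)]
    · simp [f1, f2, e1, e2]
    · intro t
      have h1 : ε ≤ ‖f c - w‖ := by
        rw [← dist_eq_norm, dist_comm]
        exact not_lt.1 fun h' => b1 h' (h.subK hw)
      exact (mem_ball_iff_norm.1 (b2 (hα t))).trans_le h1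
  have t1 : ‖D w‖ ≤ 1 / 2 := norm_le_of_sum hs s0 fun y hy => by
    have h1 := sm _ g1 y (sJ y hy)
    have h2 := sm _ g2 y (sJ y hy)
    have h3 := norm_sub_le (y / ζ2) (y / ζ1)
    linarith [log_lip h2 h1]
  have t2 : ‖D w‖ ≤ ‖D w‖ / 2 := norm_le_of_sum hs s0 fun y hy => by
    have h1 := sm _ g1 y (sJ y hy)
    have h2 := sm _ g2 y (sJ y hy)
    have h3 := norm_exp_sub_one_le (x := D w) (by linarith)
    have h4 : y / ζ2 - y / ζ1 = -(y / ζ2 * (exp (D w) - 1)) := by
      rw [eD w hw]; field_simp; ring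
    have h5 := log_lip h2 h1
    rw [h4, norm_neg, norm_mul] at h5
    nlinarith [norm_nonneg (exp (D w) - 1), norm_nonneg (y / ζ2)]
  have t3 : D w = 0 := norm_eq_zero.1 (by linarith [norm_nonneg (D w)])
  have t4 := eD w hw
  rw [t3, exp_zero, eq_div_iff n1, one_mul] at t4
  exact hζ t4

theorem infinite (h : Pol f R K) (hJ : IsConnected (frontier K)) {c : ℂ} (hc : deriv f c = 0)
    {P : Set ℂ} (hP : IsClosed P) (hPJ : Disjoint P (frontier K))
    (hP' : ∀ c, deriv f c = 0 → ∀ k, f^[k] c ∈ P) :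
    {g : frontier K ≃ₜ frontier K | BL g}.Infinite := by
  obtain ⟨ρ, hρ, hd⟩ := hPJ.symm.exists_thickenings h.cJ hP
  have far : ∀ z ∈ frontier K, ∀ c, deriv f c = 0 → ∀ k, f^[k] c ∉ ball z (8 * (ρ / 8)) :=
    fun z hz c hc k hk => Set.disjoint_left.1 hd
      (mem_thickening_iff.2 ⟨z, hz, by rw [mem_ball] at hk; linarith⟩)
      (self_subset_thickening hρ _ (hP' c hc k))
  obtain ⟨N, hN⟩ := h.expd hJ.nonempty (by positivity) far
  have hcK := h.crit_mem hJ hc
  obtain ⟨b, -, φ, hφ, hb⟩ := tendsto_subseq_of_bounded h.bddK (x := fun n => f^[n] c)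
    (fun n => (h.invK_iter n c).2 hcK)
  obtain ⟨m, hm⟩ := Metric.cauchySeq_iff'.1 hb.cauchySeq ρ hρ
  obtain ⟨p, hp⟩ := Nat.exists_eq_add_of_lt (hφ (Nat.lt_succ_self m))
  have hm' := hm (m + 1) (Nat.le_succ m)
  simp only [Function.comp_apply] at hm'
  set x := f^[φ m] c with hx
  rw [hp, show φ m + p + 1 = p + 1 + φ m by ring, Function.iterate_add_apply, ← hx] at hm'
  have bJ : ∀ y ∈ ball x ρ, y ∉ frontier K := fun y hy hJ => far y hJ c hc (φ m) (by
    rw [mem_ball, dist_comm] at hy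
    rw [mem_ball]
    linarith)
  have hW := side_comp (isClosed_frontier (s := K)) x
  set W := connectedComponentIn (frontier K)ᶜ x
  have cW : IsPreconnected W := isPreconnected_connectedComponentIn
  have xW : x ∈ W := mem_connectedComponentIn (bJ x (mem_ball_self hρ))
  have bW : ball x ρ ⊆ W := hW.sub isPreconnected_ball bJ (mem_ball_self hρ) xW
  have WK : ∀ y ∈ W, y ∉ Kᶜ := fun y hy hB =>
    h.sideB.sub cW hW.dis hy hB xW ((h.invK_iter _ c).2 hcK)
  have bdW : Bornology.IsBounded W := h.bddK.subset fun y hy => not_not.1 (WK y hy)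
  have m1 : MapsTo f^[p + 1] W W := by
    rw [mapsTo_iff_image_subset]
    refine hW.sub (cW.image _ (h.hf.continuous.iterate _).continuousOn) ?_ ⟨x, xW, rfl⟩ (bW hm')
    rintro _ ⟨y, hy, rfl⟩ hJ
    exact hW.dis y hy ((h.invJ_iter _ y).1 hJ)
  have m2 : MapsTo f^[(p + 1) * N] W W := by
    rw [Function.iterate_mul]
    exact m1.iterate N
  have hE := hN ((p + 1) * N) (Nat.le_mul_of_pos_left N (Nat.succ_pos p))
  set F := f^[(p + 1) * N] with hF
  have frW : ∀ y ∈ frontier W, y ∈ frontier K := fun y hy => by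
    by_contra hJ
    rw [hW.op.frontier_eq] at hy
    exact hy.2 (hW.cl y hy.1 hJ)
  obtain ⟨z0, hz0⟩ := nonempty_frontier_iff.2 ⟨⟨x, xW⟩, fun h' =>
    NormedSpace.unbounded_univ ℝ ℂ (h' ▸ bdW)⟩
  have dF : ∀ y, infDist (F y) (frontier K) < ρ / 8 → 4 ≤ ‖deriv F y‖ := fun y hy => by
    obtain ⟨z, hz, hd⟩ := (infDist_lt_iff hJ.nonempty).1 hy
    obtain ⟨η, h1, h2, h3, h4⟩ := hE.br z hz (F y) hd y rfl
    have h5 := congrArg norm (hE.deriv_ne h1 h3 hd)
    rw [h2, norm_mul, norm_one] at h5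
    nlinarith [h4 _ hd, norm_nonneg (deriv F y)]
  have dJ : ∀ y ∈ frontier K, 4 ≤ ‖deriv F y‖ := fun y hy => dF y (by
    rw [infDist_zero_of_mem ((hE.hJ y).2 hy)]; positivity)
  obtain ⟨c', hc1, hc2⟩ : ∃ c' ∈ W, deriv F c' = 0 := by
    by_contra hcon
    push Not at hcon
    have d0 : ∀ y ∈ closure W, deriv F y ≠ 0 := fun y hy => by
      by_cases hyJ : y ∈ frontier K
      · exact norm_pos_iff.1 (by linarith [dJ y hyJ])
      · exact hcon y (hW.cl y hy hyJ)
    have d1 : ∀ y ∈ W, 4 ≤ ‖deriv F y‖ := fun y hy => by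
      have := norm_le_of_forall_mem_frontier_norm_le (f := fun y => (deriv F y)⁻¹) (C := 4⁻¹) bdW
        (DifferentiableOn.diffContOnCl (hE.hF.deriv.differentiableOn.inv d0))
        (fun z hz => by rw [norm_inv]; exact inv_anti₀ (by norm_num) (dJ z (frW z hz)))
        (subset_closure hy)
      rwa [norm_inv, inv_le_inv₀ (norm_pos_iff.2 (hcon y hy)) (by norm_num)] at this
    have d2 : ∀ j : ℕ, ∀ y ∈ W, 4 ^ j ≤ ‖deriv F^[j] y‖ := by
      intro j
      induction j with
      | zero => simp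
      | succ j ih =>
        intro y hy
        rw [Function.iterate_succ, deriv_comp y (hE.hF.iterate j _) (hE.hF y), norm_mul, pow_succ]
        exact mul_le_mul (ih _ (m2 hy)) (d1 y hy) (by norm_num) (norm_nonneg _)
    obtain ⟨j, hj⟩ := pow_unbounded_of_one_lt (2 * R / ρ) (show (1 : ℝ) < 4 by norm_num)
    have := norm_deriv_le_div_of_mapsTo_ball (R₂ := 2 * R) (c := x)
      (hE.hF.iterate j).differentiableOn (fun y hy => by
        have h1 := h.normK (not_not.1 (WK _ (m2.iterate j (bW hy))))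
        have h2 := h.normK (not_not.1 (WK _ (m2.iterate j xW)))
        have := norm_sub_le (F^[j] y) (F^[j] x)
        rw [mem_closedBall, dist_eq_norm]
        linarith) hρ
    linarith [d2 j x xW]
  refine hE.infinite hW h.sideB WK cW h.preB m2 (fun y hy hK => hy ((h.invK_iter _ y).1 hK))
    (fun y hy hK => hy ((h.invK_iter _ y).2 hK)) (frW z0 hz0) (frontier_subset_closure hz0)
    (clB (frW z0 hz0)) fun y hy hy' => ?_
  refine two_of_crit (S := ⋃ c ∈ {c | deriv f c = 0}, range fun k => f^[k] c) hE.hF ?_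
    (fun y hy => (hE.hJ y).2 hy) hW cW bdW m2
    (h.fin.countable.biUnion fun c _ => countable_range _) (fun p hp => ?_) hc1 hc2 hy ?_
  · rw [hF]
    induction (p + 1) * N with
    | zero => exact IsOpenMap.id
    | succ n ih => exact ih.comp h.op
  · obtain ⟨c, h1, k, h2⟩ := h.crit_iter _ p hp
    exact mem_iUnion₂.2 ⟨c, h1, k, h2⟩
  · rintro p rfl
    exact norm_pos_iff.1 (by linarith [dF p hy'])

end Pol

lemma exists_pol (f : Polynomial ℂ) (hf : 2 ≤ f.natDegree) :
    ∃ R, Pol (fun w => f.eval w) R {z : ℂ | Bornology.IsBounded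
      (Set.range (fun n : ℕ => (fun w : ℂ => f.eval w)^[n] z))} := by
  have h1 : 0 < f.divX.degree := by
    rw [← Polynomial.natDegree_pos_iff_degree_pos, Polynomial.natDegree_divX_eq_natDegree_tsub_one]
    omega
  have h2 := (f.divX.tendsto_norm_atTop h1 tendsto_norm_cobounded_atTop).eventually_ge_atTop 3
  rw [← comap_norm_atTop, eventually_comap, eventually_atTop] at h2
  obtain ⟨R0, hR0⟩ := h2
  set R := max (max R0 ‖f.coeff 0‖) 1 with hR
  have hRp : 0 < R := one_pos.trans_le (le_max_right _ _)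
  have grow : ∀ z, R ≤ ‖z‖ → 2 * ‖z‖ ≤ ‖f.eval z‖ := fun z hz => by
    have a1 := hR0 ‖z‖ (((le_max_left _ _).trans (le_max_left _ _)).trans hz) z rfl
    have a2 : ‖f.coeff 0‖ ≤ ‖z‖ := ((le_max_right _ _).trans (le_max_left _ _)).trans hz
    have a3 : z * f.divX.eval z = f.eval z - f.coeff 0 := by
      have := congrArg (Polynomial.eval z) f.X_mul_divX_add
      simp only [Polynomial.eval_add, Polynomial.eval_mul, Polynomial.eval_X,
        Polynomial.eval_C] at this
      linear_combination this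
    have a4 := norm_sub_le (f.eval z) (f.coeff 0)
    rw [← a3, norm_mul] at a4
    nlinarith [norm_nonneg z]
  have hd : {c | deriv (fun w => f.eval w) c = 0} = {k | f.derivative.eval k = 0} := by
    simp only [Polynomial.deriv]
  refine ⟨R, f.differentiable, (f.isOpenQuotientMap_eval (by omega)).isOpenMap, hRp, grow,
    fun z => ⟨fun hb n => ?_, fun hb => ?_⟩, hd ▸ f.isCoveringMapOn_eval, ?_, fun w => ?_⟩
  · by_contra hcon
    rw [not_le] at hcon
    rw [mem_ofPred_eq] at hb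
    obtain ⟨C, hC⟩ := Bornology.IsBounded.exists_norm_le hb
    have key : ∀ k : ℕ, 2 ^ k * R ≤ ‖(fun w => f.eval w)^[k + n] z‖ := by
      intro k
      induction k with
      | zero => simpa using hcon.le
      | succ k ih =>
        have h1 : (1 : ℝ) ≤ 2 ^ k := one_le_pow₀ (by norm_num)
        have h2 := grow ((fun w => f.eval w)^[k + n] z) (by nlinarith)
        rw [Nat.add_right_comm, Function.iterate_succ_apply', pow_succ]
        linarith
    obtain ⟨k, hk⟩ := pow_unbounded_of_one_lt (C / R) (show (1 : ℝ) < 2 by norm_num)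
    rw [div_lt_iff₀ hRp] at hk
    linarith [key k, hC _ ⟨k + n, rfl⟩]
  · rw [mem_ofPred_eq]
    refine (isBounded_closedBall (x := 0) (r := R)).subset ?_
    rintro _ ⟨n, rfl⟩
    exact mem_closedBall_zero_iff.2 (hb n)
  · rw [hd]
    refine Polynomial.finite_setOfPred_isRoot fun h0 => ?_
    have := Polynomial.derivative_eq_zero.1 h0
    omega
  · have h3 : (f - Polynomial.C w).natDegree = f.natDegree := Polynomial.natDegree_sub_C
    refine ⟨(f - Polynomial.C w).leadingCoeff, Polynomial.leadingCoeff_ne_zero.2 fun h0 => ?_,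
      (f - Polynomial.C w).roots, fun h0 => ?_, fun x => ?_⟩
    · rw [h0, Polynomial.natDegree_zero] at h3
      omega
    · have := IsAlgClosed.card_roots_eq_natDegree (p := f - Polynomial.C w)
      rw [h0, h3, Multiset.card_zero] at this
      omega
    · rw [← (IsAlgClosed.splits _).eval_eq_prod_roots]
      simp

end Pool.Agent.H684Z.QS
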