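import Pool.Agent.H684Z.QS.Wind

set_option autoImplicit false

/-!
# Expanding repellers: short paths to deep points, and two returning inverse branches
-/

namespace Pool.Agent.H684Z.QS

open Set Metric Filter Topology

/-- all inverse branches of `F` exist and contract on discs centred on `J` -/
structure Expd (J : Set ℂ) (F : ℂ → ℂ) (r : ℝ) : Prop where
  cJ : IsCompact J
  ne : J.Nonempty
  hr : 0 < r
  hF : Differentiable ℂ F
  hJ : ∀ x, F x ∈ J ↔ x ∈ J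
  br : ∀ z ∈ J, ∀ w ∈ ball z r, ∀ p, F p = w → ∃ η : ℂ → ℂ, DifferentiableOn ℂ η (ball z r) ∧
    η w = p ∧ (∀ x ∈ ball z r, F (η x) = x) ∧ ∀ x ∈ ball z r, ‖deriv η x‖ ≤ 1 / 4

lemma unif_depth {J : Set ℂ} (cJ : IsCompact J) (ne : J.Nonempty) {G : ℂ → ℂ}
    (hG : Continuous G) (hm : MapsTo G J J) {δ : ℝ} (hδ : 0 < δ) :
    ∃ δ' > (0 : ℝ), ∀ y, infDist y J < δ' → infDist (G y) J < δ := by
  have hV : IsOpen {y | infDist (G y) J < δ} :=
    isOpen_lt ((continuous_infDist_pt J).comp hG) continuous_const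
  obtain ⟨δ', h1, h2⟩ := cJ.exists_thickening_subset_open hV (fun y hy => by
    simp only [mem_ofPred_eq]
    rwa [infDist_zero_of_mem (hm hy)])
  exact ⟨δ', h1, fun y hy => h2 ((mem_thickening_iff_infDist_lt ne).2 hy)⟩

lemma Side.ball_sub {J Ω : Set ℂ} (h : Side J Ω) {x : ℂ} (hx : x ∈ Ω) {t : ℝ}
    (ht : t ≤ infDist x J) : ball x t ⊆ Ω := by
  rcases le_or_gt t 0 with h0 | h0
  · rw [ball_eq_empty.2 h0]; exact empty_subset _
  refine h.sub isPreconnected_ball (fun y hy hJ => ?_) (mem_ball_self h0) hx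
  have := infDist_le_dist_of_mem (x := x) hJ
  rw [mem_ball, dist_comm] at hy
  linarith

lemma Side.joined_map {J Ω S T : Set ℂ} (h : Side J Ω) {θ : ℂ → ℂ} (hc : ContinuousOn θ S)
    (hm : MapsTo θ S T) (hJ : ∀ x ∈ S, θ x ∈ J → x ∈ J) {Ω' : Set ℂ} (h' : ∀ x ∈ Ω', x ∉ J)
    {p q : ℂ} (hj : JoinedIn (Ω' ∩ S) p q) (hpq : θ p ∈ Ω ∨ θ q ∈ Ω) :
    JoinedIn (Ω ∩ T) (θ p) (θ q) := by
  obtain ⟨γ, hγ⟩ := hj
  have hc' : ContinuousOn θ (range γ) := hc.mono (by rintro _ ⟨t, rfl⟩; exact (hγ t).2)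
  refine ⟨γ.map' hc', fun t => ⟨?_, hm (hγ t).2⟩⟩
  have hn : ∀ t, γ.map' hc' t ∉ J := fun t hJ' => h' _ (hγ t).1 (hJ _ (hγ t).2 hJ')
  rcases hpq with h1 | h1
  · exact h.path (Path.continuous _) hn (s := 0) (by simpa using h1) t
  · exact h.path (Path.continuous _) hn (s := 1) (by simpa using h1) t

namespace Expd

variable {J Ω : Set ℂ} {F : ℂ → ℂ} {r : ℝ}

lemma br' (h : Expd J F r) {z : ℂ} (hz : z ∈ J) {w : ℂ} (hw : w ∈ ball z r) {p : ℂ}
    (hp : F p = w) : ∃ η : ℂ → ℂ, DifferentiableOn ℂ η (ball z r) ∧ η w = p ∧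
      (∀ x ∈ ball z r, F (η x) = x) ∧
      ∀ x ∈ ball z r, ∀ y ∈ ball z r, dist (η x) (η y) ≤ dist x y / 4 := by
  obtain ⟨η, h1, h2, h3, h4⟩ := h.br z hz w hw p hp
  refine ⟨η, h1, h2, h3, fun x hx y hy => ?_⟩
  have := (convex_ball z r).norm_image_sub_le_of_norm_deriv_le
    (fun x hx => h1.differentiableAt (isOpen_ball.mem_nhds hx)) h4 hy hx
  rw [dist_eq_norm, dist_eq_norm]
  linarith

lemma depth_le (h : Expd J F r) {y : ℂ} (hy : infDist (F y) J < r) :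
    infDist y J ≤ infDist (F y) J / 4 := by
  obtain ⟨z, hz, hd⟩ := h.cJ.exists_infDist_eq_dist h.ne (F y)
  have hw : F y ∈ ball z r := by rwa [mem_ball, ← hd]
  obtain ⟨η, -, h2, h3, h4⟩ := h.br' hz hw rfl
  have h5 : η z ∈ J := by rw [← h.hJ, h3 z (mem_ball_self h.hr)]; exact hz
  have h6 := h4 _ hw z (mem_ball_self h.hr)
  rw [h2] at h6
  rw [hd]
  exact (infDist_le_dist_of_mem h5).trans h6

lemma depth_mono (h : Expd J F r) (y : ℂ) : min r (infDist y J) ≤ infDist (F y) J := by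
  rcases lt_or_ge (infDist (F y) J) r with h1 | h1
  · have := h.depth_le h1
    have h2 : 0 ≤ infDist (F y) J := infDist_nonneg
    exact (min_le_right _ _).trans (by linarith)
  · exact (min_le_left _ _).trans h1

lemma depth_mono_iter (h : Expd J F r) (k : ℕ) (y : ℂ) :
    min r (infDist y J) ≤ infDist (F^[k] y) J := by
  induction k with
  | zero => exact min_le_right _ _
  | succ k ih =>
    rw [Function.iterate_succ_apply']
    exact (le_min (min_le_left _ _) ih).trans (h.depth_mono _)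

lemma hJ_iter (h : Expd J F r) (k : ℕ) (x : ℂ) : F^[k] x ∈ J ↔ x ∈ J := by
  induction k with
  | zero => rfl
  | succ k ih => rw [Function.iterate_succ_apply', h.hJ, ih]

lemma deriv_ne (h : Expd J F r) {z : ℂ} {η : ℂ → ℂ} (h1 : DifferentiableOn ℂ η (ball z r))
    (h3 : ∀ x ∈ ball z r, F (η x) = x) {x : ℂ} (hx : x ∈ ball z r) :
    deriv F (η x) * deriv η x = 1 := by
  have h1 := (h1.differentiableAt (isOpen_ball.mem_nhds hx)).hasDerivAt
  have h2 := (h.hF (η x)).hasDerivAt.comp x h1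
  have h4 : HasDerivAt (F ∘ η) 1 x := by
    refine (hasDerivAt_id x).congr_of_eventuallyEq ?_
    filter_upwards [isOpen_ball.mem_nhds hx] with y hy using h3 y hy
  exact h2.unique h4

lemma branch_unique (h : Expd J F r) {z : ℂ} {η η' : ℂ → ℂ}
    (h1 : DifferentiableOn ℂ η (ball z r)) (h1' : DifferentiableOn ℂ η' (ball z r))
    (h3 : ∀ x ∈ ball z r, F (η x) = x) (h3' : ∀ x ∈ ball z r, F (η' x) = x) {x : ℂ}
    (hx : x ∈ ball z r) (hxx : η x = η' x) : EqOn η η' (ball z r) := by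
  have hd : deriv F (η x) ≠ 0 := left_ne_zero_of_mul_eq_one (h.deriv_ne h1 h3 hx)
  have hs := (h.hF.analyticAt (η x)).hasStrictDerivAt
  have hl := (hs.hasStrictFDerivAt_equiv hd).eventually_left_inverse
  have c1 : Tendsto η (𝓝 x) (𝓝 (η x)) := h1.continuousOn.continuousAt (isOpen_ball.mem_nhds hx)
  have c2 : Tendsto η' (𝓝 x) (𝓝 (η x)) :=
    hxx ▸ h1'.continuousOn.continuousAt (isOpen_ball.mem_nhds hx)
  refine (h1.analyticOnNhd isOpen_ball).eqOn_of_preconnected_of_eventuallyEq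
    (h1'.analyticOnNhd isOpen_ball) isPreconnected_ball hx ?_
  filter_upwards [c1.eventually hl, c2.eventually hl, isOpen_ball.mem_nhds hx] with y a1 a2 hy
  rw [h3 y hy] at a1
  rw [h3' y hy] at a2
  rw [← a1, a2]

end Expd

def Link (J Ω : Set ℂ) (t : ℝ) (p q : ℂ) : Prop := ∃ z ∈ J, JoinedIn (Ω ∩ ball z t) p q

def Chain (J Ω : Set ℂ) (t : ℝ) : ℕ → ℂ → ℂ → Prop
  | 0, p, q => p = q
  | M + 1, p, q => Chain J Ω t M p q ∨ ∃ m, Link J Ω t p m ∧ Chain J Ω t M m q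

lemma Chain.joined {J Ω : Set ℂ} {t : ℝ} (ht : 0 ≤ t) :
    ∀ (M : ℕ) (p q : ℂ), p ∈ Ω → Chain J Ω t M p q →
      JoinedIn (Ω ∩ closedBall p (2 * t * M)) p q := by
  intro M
  induction M with
  | zero =>
    rintro p q hp rfl
    exact JoinedIn.refl ⟨hp, by simp⟩
  | succ M ih =>
    rintro p q hp (h | ⟨m, ⟨z, -, h1⟩, h2⟩)
    · refine (ih p q hp h).mono (inter_subset_inter_right _ (closedBall_subset_closedBall ?_))
      push_cast; nlinarith
    · have hpz := h1.source_mem.2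
      have hmz := h1.target_mem.2
      have hM : 0 ≤ 2 * t * M := by positivity
      refine (h1.mono (inter_subset_inter_right _ fun y hy => ?_)).trans
        ((ih m q h1.target_mem.1 h2).mono (inter_subset_inter_right _ fun y hy => ?_))
      · have := dist_triangle_right y p z
        rw [mem_ball] at hy hpz
        rw [mem_closedBall]
        push_cast; linarith
      · have := dist_triangle_right m p z
        have := dist_triangle y m p
        rw [mem_ball] at hmz hpz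
        rw [mem_closedBall] at hy ⊢
        push_cast; linarith

namespace Expd

variable {J Ω : Set ℂ} {F : ℂ → ℂ} {r : ℝ}

lemma lift_link (h : Expd J F r) (hΩ : Side J Ω) {t : ℝ} (ht : t ≤ r) {p q p' : ℂ}
    (hl : Link J Ω t p q) (hp : F p' = p) (hp' : p' ∈ Ω) :
    ∃ q', F q' = q ∧ Link J Ω (t / 4) p' q' := by
  obtain ⟨z, hz, hj⟩ := hl
  have hs : ball z t ⊆ ball z r := ball_subset_ball ht
  obtain ⟨η, h1, h2, h3, h4⟩ := h.br' hz (hs hj.source_mem.2) hp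
  refine ⟨η q, h3 q (hs hj.target_mem.2), η z, ?_, ?_⟩
  · rw [← h.hJ, h3 z (mem_ball_self h.hr)]; exact hz
  · rw [← h2]
    refine hΩ.joined_map (h1.continuousOn.mono hs) (fun x hx => ?_) (fun x hx hJ => ?_) hΩ.dis hj
      (Or.inl (h2 ▸ hp'))
    · have := h4 x (hs hx) z (mem_ball_self h.hr)
      rw [mem_ball] at hx ⊢
      linarith
    · rwa [← h.hJ, h3 x (hs hx)] at hJ

lemma lift_chain (h : Expd J F r) (hΩ : Side J Ω) {t : ℝ} (ht : t ≤ r) :
    ∀ (M : ℕ) (p q p' : ℂ), Chain J Ω t M p q → F p' = p → p' ∈ Ω →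
      ∃ q', F q' = q ∧ Chain J Ω (t / 4) M p' q' := by
  intro M
  induction M with
  | zero =>
    rintro p q p' rfl hp -
    exact ⟨p', hp, rfl⟩
  | succ M ih =>
    rintro p q p' (hc | ⟨m, h1, h2⟩) hp hp'
    · obtain ⟨q', h3, h4⟩ := ih p q p' hc hp hp'
      exact ⟨q', h3, Or.inl h4⟩
    · obtain ⟨m', h3, h4⟩ := h.lift_link hΩ ht h1 hp hp'
      obtain ⟨q', h5, h6⟩ := ih m q m' h2 h3 (by
        obtain ⟨_, -, hj⟩ := h4
        exact hj.target_mem.1)
      exact ⟨q', h5, Or.inr ⟨m', h4, h6⟩⟩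

lemma lift_iter (h : Expd J F r) (hΩ : Side J Ω) (hm : MapsTo F Ω Ω) (M : ℕ) (y' : ℂ) :
    ∀ (j : ℕ) (x : ℂ), x ∈ Ω → Chain J Ω r M (F^[j] x) y' →
      ∃ x', F^[j] x' = y' ∧ Chain J Ω (r * (1 / 4) ^ j) M x x' := by
  intro j
  induction j with
  | zero => intro x _ hc; exact ⟨y', rfl, by simpa using hc⟩
  | succ j ih =>
    intro x hx hc
    obtain ⟨x1, h1, h2⟩ := ih (F x) (hm hx) hc
    have hq1 : (1 / 4 : ℝ) ^ j ≤ 1 := pow_le_one₀ (by norm_num) (by norm_num)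
    obtain ⟨x', h3, h4⟩ := h.lift_chain hΩ (by nlinarith [h.hr]) M _ _ x h2 rfl hx
    refine ⟨x', by rw [Function.iterate_succ_apply, h3, h1], ?_⟩
    rwa [pow_succ, ← mul_assoc, mul_one_div]

lemma chain_bound (h : Expd J F r) (hΩ : Side J Ω) (hc : IsPreconnected Ω) {δ0 δ1 : ℝ}
    (hδ0 : δ0 < r) (hδ1 : 0 < δ1) {a : ℂ} (ha : a ∈ Ω) (ha' : δ0 ≤ infDist a J) :
    ∃ M : ℕ, ∀ x ∈ Ω, δ1 ≤ infDist x J → ∃ y, δ0 ≤ infDist y J ∧ Chain J Ω r M x y := by
  let G : ℕ → Set ℂ := fun M => {x | ∃ y, δ0 ≤ infDist y J ∧ Chain J Ω r M x y}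
  have mono : Monotone G := monotone_nat_of_le_succ fun M x ⟨y, h1, h2⟩ => ⟨y, h1, Or.inl h2⟩
  have deep : ∀ M x, δ0 ≤ infDist x J → x ∈ G M := fun M x hx => mono (Nat.zero_le M) ⟨x, hx, rfl⟩
  have loc : ∀ x ∈ Ω, ∀ᶠ x' in 𝓝 x, ∀ M, (x ∈ G M → x' ∈ G (M + 1)) ∧
      (x' ∈ G M → x ∈ G (M + 1)) := by
    intro x hx
    rcases lt_or_ge (infDist x J) r with h1 | h1
    · obtain ⟨z, hz, hd⟩ := (infDist_lt_iff h.ne).1 h1
      obtain ⟨s, hs, hb⟩ := Metric.isOpen_iff.1 (hΩ.op.inter isOpen_ball) x ⟨hx, hd⟩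
      filter_upwards [ball_mem_nhds x hs] with x' hx' M
      have hj : JoinedIn (Ω ∩ ball z r) x x' :=
        ((isPathConnected_ball hs).joinedIn x (mem_ball_self hs) x' hx').mono hb
      exact ⟨fun ⟨y, h2, h3⟩ => ⟨y, h2, Or.inr ⟨x, ⟨z, hz, hj.symm⟩, h3⟩⟩,
        fun ⟨y, h2, h3⟩ => ⟨y, h2, Or.inr ⟨x', ⟨z, hz, hj⟩, h3⟩⟩⟩
    · have : ∀ᶠ x' in 𝓝 x, δ0 < infDist x' J :=
        (isOpen_lt continuous_const (continuous_infDist_pt J)).mem_nhds (hδ0.trans_le h1)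
      filter_upwards [this] with x' hx' M
      exact ⟨fun _ => deep _ _ hx'.le, fun _ => deep _ _ (hδ0.le.trans h1)⟩
  have all : Ω ⊆ ⋃ M, interior (G M) := by
    refine hc.subset_of_closure_inter_subset (isOpen_iUnion fun M => isOpen_interior) ⟨a, ha, ?_⟩ ?_
    · refine mem_iUnion.2 ⟨1, mem_interior_iff_mem_nhds.2 ?_⟩
      filter_upwards [loc a ha] with x' hx' using (hx' 0).1 (deep 0 a ha')
    · rintro x ⟨hx, hxΩ⟩
      obtain ⟨x', h1, h2⟩ := mem_closure_iff_nhds.1 hx _ (loc x hxΩ)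
      obtain ⟨M, hM⟩ := mem_iUnion.1 h2
      refine mem_iUnion.2 ⟨M + 2, mem_interior_iff_mem_nhds.2 ?_⟩
      filter_upwards [loc x hxΩ] with y hy using (hy (M + 1)).1 ((h1 M).2 (interior_subset hM))
  have cΛ : IsCompact (closure Ω ∩ {x | δ1 ≤ infDist x J} ∩ cthickening r J) :=
    (h.cJ.cthickening (r := r)).inter_left
      (isClosed_closure.inter (isClosed_le continuous_const (continuous_infDist_pt J)))
  obtain ⟨M, hM⟩ := cΛ.elim_directed_cover (fun M => interior (G M)) (fun M => isOpen_interior)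
    (fun x hx => all (hΩ.cl x hx.1.1 fun hJ => by
      have := hx.1.2
      simp only [mem_ofPred_eq, infDist_zero_of_mem hJ] at this
      linarith))
    (Monotone.directed_le fun M N hMN => interior_mono (mono hMN))
  refine ⟨M, fun x hx hx' => ?_⟩
  rcases lt_or_ge (infDist x J) r with h1 | h1
  · exact interior_subset (s := G M) (hM ⟨⟨subset_closure hx, hx'⟩,
      thickening_subset_cthickening _ _ ((mem_thickening_iff_infDist_lt h.ne).2 h1)⟩)
  · exact deep M x (hδ0.le.trans h1)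

lemma john (h : Expd J F r) (hΩ : Side J Ω) (hc : IsPreconnected Ω) (hne : Ω.Nonempty)
    (hm : MapsTo F Ω Ω) {ρ : ℝ} (hρ : 0 < ρ) :
    ∃ δ > (0 : ℝ), ∀ x ∈ Ω, ∃ y, δ ≤ infDist y J ∧ JoinedIn (Ω ∩ closedBall x ρ) x y := by
  obtain ⟨a, ha⟩ := hne
  have hr := h.hr
  have pos : ∀ x ∈ Ω, 0 < infDist x J := fun x hx =>
    (h.cJ.isClosed.notMem_iff_infDist_pos h.ne).1 (hΩ.dis x hx)
  set δ0 := min (infDist a J) (r / 2) with hδ0
  have hδ0p : 0 < δ0 := lt_min (pos a ha) (half_pos hr)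
  have hδ0r : δ0 < r := (min_le_right _ _).trans_lt (half_lt_self hr)
  obtain ⟨δ1, hδ1, u1⟩ := unif_depth h.cJ h.ne h.hF.continuous (fun x hx => (h.hJ x).2 hx) hδ0p
  obtain ⟨M, hM⟩ := h.chain_bound hΩ hc hδ0r hδ1 ha (min_le_left _ _)
  set c := 2 * r * M with hcdef
  have hc0 : 0 ≤ c := by positivity
  obtain ⟨N, hN⟩ := exists_pow_lt_of_lt_one (show 0 < ρ / (2 * c + 1) by positivity)
    (show (1 / 4 : ℝ) < 1 by norm_num)
  obtain ⟨δ, hδ, u2⟩ := unif_depth h.cJ h.ne (h.hF.continuous.iterate N)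
    (fun x hx => (h.hJ_iter N x).2 hx) hδ0p
  have claim : ∀ i : ℕ, ∀ x ∈ Ω, δ0 ≤ infDist (F^[N + i] x) J → ∃ x', δ0 ≤ infDist (F^[N] x') J ∧
      JoinedIn (Ω ∩ closedBall x (2 * c * (1 / 4) ^ N - 2 * c * (1 / 4) ^ (N + i))) x x' := by
    intro i
    induction i with
    | zero => intro x hx h1; exact ⟨x, h1, JoinedIn.refl ⟨hx, by simp⟩⟩
    | succ i ih =>
      intro x hx h1
      rw [← add_assoc, Function.iterate_succ_apply'] at h1
      obtain ⟨y, h2, h3⟩ := hM _ (hm.iterate (N + i) hx) (not_lt.1 fun h' => (u1 _ h').not_ge h1)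
      obtain ⟨x1, h4, h5⟩ := h.lift_iter hΩ hm M y _ x hx h3
      have h6 := Chain.joined (by positivity) M x x1 hx h5
      obtain ⟨x', h7, h8⟩ := ih x1 h6.target_mem.1 (h4 ▸ h2)
      have hq : (0 : ℝ) < (1 / 4) ^ (N + i) := by positivity
      have hq2 : (1 / 4 : ℝ) ^ (N + i) ≤ (1 / 4) ^ N :=
        pow_le_pow_of_le_one (by norm_num) (by norm_num) (Nat.le_add_right _ _)
      have e1 : 2 * (r * (1 / 4) ^ (N + i)) * M = c * (1 / 4) ^ (N + i) := by rw [hcdef]; ring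
      rw [e1] at h6
      have e2 : (1 / 4 : ℝ) ^ (N + (i + 1)) = (1 / 4) ^ (N + i) / 4 := by
        rw [← add_assoc, pow_succ]; ring
      have e3 := mul_nonneg hc0 hq.le
      have e4 := mul_le_mul_of_nonneg_left hq2 hc0
      refine ⟨x', h7, (h6.mono (inter_subset_inter_right _ (closedBall_subset_closedBall ?_))).trans
        (h8.mono (inter_subset_inter_right _ fun w hw => ?_))⟩
      · rw [e2]; linarith
      · have := h6.target_mem.2
        have := dist_triangle w x1 x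
        rw [mem_closedBall] at *
        rw [e2]; linarith
  refine ⟨δ, hδ, fun x hx => ?_⟩
  obtain ⟨i, hi⟩ : ∃ i : ℕ, δ0 ≤ infDist (F^[N + i] x) J := by
    by_contra hcon
    push Not at hcon
    have key : ∀ i : ℕ, infDist (F^[N] x) J ≤ infDist (F^[N + i] x) J * (1 / 4) ^ i := by
      intro i
      induction i with
      | zero => simp
      | succ i ih =>
        have h1 := hcon (i + 1)
        rw [← add_assoc, Function.iterate_succ_apply'] at h1 ⊢
        have h2 := h.depth_le (h1.trans hδ0r)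
        have hq : (0 : ℝ) < (1 / 4) ^ i := by positivity
        rw [pow_succ]
        nlinarith
    obtain ⟨i, hi⟩ := exists_pow_lt_of_lt_one (div_pos (pos _ (hm.iterate N hx)) hr)
      (show (1 / 4 : ℝ) < 1 by norm_num)
    rw [lt_div_iff₀ hr] at hi
    have hq : (0 : ℝ) < (1 / 4) ^ i := by positivity
    nlinarith [key i, hcon i]
  obtain ⟨y, h1, h2⟩ := claim i x hx hi
  refine ⟨y, not_lt.1 fun h' => (u2 y h').not_ge h1,
    h2.mono (inter_subset_inter_right _ (closedBall_subset_closedBall ?_))⟩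
  rw [lt_div_iff₀ (by positivity)] at hN
  have hq : (0 : ℝ) < (1 / 4) ^ (N + i) := by positivity
  have hq' : (0 : ℝ) < (1 / 4) ^ N := by positivity
  nlinarith [mul_nonneg hc0 hq.le]

end Expd

lemma exists_recurrent {α : Type*} {N : Set α} (hN : N.Finite) (hne : N.Nonempty)
    (R : α → α → Prop) : ∃ s ∈ N, ∀ s' ∈ N, R s s' →
      Relation.ReflTransGen (fun a b => b ∈ N ∧ R a b) s' s := by
  let T : α → Set α := fun s => {t | t ∈ N ∧ Relation.ReflTransGen (fun a b => b ∈ N ∧ R a b) s t}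
  obtain ⟨s, hs, hmin⟩ := Set.exists_min_image N (fun s => (T s).ncard) hN hne
  refine ⟨s, hs, fun s' hs' hR => ?_⟩
  have hsub : T s' ⊆ T s := fun t ht => ⟨ht.1, Relation.ReflTransGen.head ⟨hs', hR⟩ ht.2⟩
  have := Set.eq_of_subset_of_ncard_le hsub (hmin s' hs') (hN.subset fun t ht => ht.1)
  have h1 : s ∈ T s' := this ▸ ⟨hs, Relation.ReflTransGen.refl⟩
  exact h1.2

/-- a contraction from the disc of one state to the disc of another state -/
structure Arr (U B : Set ℂ) (r : ℝ) (s s' : ℂ × ℂ × ℂ) (θ : ℂ → ℂ) : Prop where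
  hd : DifferentiableOn ℂ θ (ball s.1 r)
  lip : ∀ x ∈ ball s.1 r, ∀ y ∈ ball s.1 r, dist (θ x) (θ y) ≤ dist x y / 4
  maps : MapsTo θ (ball s.1 r) (ball s'.1 (r / 2))
  ju : JoinedIn (U ∩ ball s'.1 (r / 2)) (θ s.2.1) s'.2.1
  jb : JoinedIn (B ∩ ball s'.1 (r / 2)) (θ s.2.2) s'.2.2

theorem Expd.infinite {J U B : Set ℂ} {F : ℂ → ℂ} {r : ℝ} (h : Expd J F r) (hU : Side J U)
    (hB : Side J B) (hUB : ∀ x ∈ U, x ∉ B) (cU : IsPreconnected U) (cB : IsPreconnected B)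
    (mU : MapsTo F U U) (mB : MapsTo F B B) (iB : ∀ x, F x ∈ B → x ∈ B) {z0 : ℂ} (hz0 : z0 ∈ J)
    (hz0U : z0 ∈ closure U) (hz0B : z0 ∈ closure B)
    (two : ∀ y ∈ U, infDist y J < r → ∃ p ∈ U, ∃ q ∈ U, p ≠ q ∧ F p = y ∧ F q = y) :
    {g : J ≃ₜ J | BL g}.Infinite := by
  have hr := h.hr
  obtain ⟨δ1, hδ1, jU⟩ := h.john hU cU (closure_nonempty_iff.1 ⟨_, hz0U⟩) mU
    (show 0 < r / 16 by positivity)
  obtain ⟨δ2, hδ2, jB⟩ := h.john hB cB (closure_nonempty_iff.1 ⟨_, hz0B⟩) mB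
    (show 0 < r / 16 by positivity)
  set δ := min (min δ1 δ2) (r / 16) with hδ
  have hδp : 0 < δ := by positivity
  have l1 : δ ≤ δ1 := (min_le_left _ _).trans (min_le_left _ _)
  have l2 : δ ≤ δ2 := (min_le_left _ _).trans (min_le_right _ _)
  have l3 : δ ≤ r / 16 := min_le_right _ _
  let S : Set (ℂ × ℂ × ℂ) := {s | s.1 ∈ J ∧ (s.2.1 ∈ U ∧ δ ≤ infDist s.2.1 J ∧
    dist s.2.1 s.1 ≤ r / 8) ∧ (s.2.2 ∈ B ∧ δ ≤ infDist s.2.2 J ∧ dist s.2.2 s.1 ≤ r / 8)}
  have hS : TotallyBounded S := by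
    have hc := h.cJ.cthickening (r := r / 8)
    refine (h.cJ.prod (hc.prod hc)).totallyBounded.subset ?_
    rintro s ⟨h1, h2, h3⟩
    exact ⟨h1, mem_cthickening_of_dist_le _ _ _ _ h1 h2.2.2,
      mem_cthickening_of_dist_le _ _ _ _ h1 h3.2.2⟩
  obtain ⟨N, hNS, hNf, hcov⟩ := Metric.finite_approx_of_totallyBounded hS δ hδp
  have move : ∀ z ∈ J, ∀ u ∈ U, ∀ b ∈ B, dist u z ≤ r / 32 → dist b z ≤ r / 32 →
      ∃ s' ∈ N, dist z s'.1 < r / 16 ∧ JoinedIn (U ∩ ball s'.1 (r / 2)) u s'.2.1 ∧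
        JoinedIn (B ∩ ball s'.1 (r / 2)) b s'.2.2 := by
    intro z hz u hu b hb h1 h2
    obtain ⟨u1, a1, a2⟩ := jU u hu
    obtain ⟨b1, b2, b3⟩ := jB b hb
    have hmem : (z, u1, b1) ∈ S := by
      refine ⟨hz, ⟨a2.target_mem.1, l1.trans a1, ?_⟩, b3.target_mem.1, l2.trans b2, ?_⟩
      · have := mem_closedBall.1 a2.target_mem.2
        have := dist_triangle u1 u z
        change dist u1 z ≤ _
        linarith
      · have := mem_closedBall.1 b3.target_mem.2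
        have := dist_triangle b1 b z
        change dist b1 z ≤ _
        linarith
    obtain ⟨s', hs', hd⟩ := mem_iUnion₂.1 (hcov hmem)
    rw [mem_ball, Prod.dist_eq, Prod.dist_eq, max_lt_iff, max_lt_iff] at hd
    obtain ⟨d1, d2, d3⟩ := hd
    simp only at d1 d2 d3
    have gen : ∀ {Ω : Set ℂ} {a a1 a' : ℂ}, Side J Ω → dist a z ≤ r / 32 →
        JoinedIn (Ω ∩ closedBall a (r / 16)) a a1 → dist a1 a' < δ → a' ∈ Ω →
        δ ≤ infDist a' J → dist a' s'.1 ≤ r / 8 → JoinedIn (Ω ∩ ball s'.1 (r / 2)) a a' := by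
      intro Ω a a1 a' hΩ e1 e2 e3 e4 e5 e6
      refine (e2.mono (inter_subset_inter_right _ fun w hw => ?_)).trans
        (((isPathConnected_ball hδp).joinedIn a1 e3 a' (mem_ball_self hδp)).mono
          fun w hw => ⟨hΩ.ball_sub e4 e5 hw, ?_⟩)
      · have := dist_triangle4 w a z s'.1
        rw [mem_closedBall] at hw
        rw [mem_ball]
        linarith
      · have := dist_triangle w a' s'.1
        rw [mem_ball] at hw ⊢
        linarith
    obtain ⟨-, s1, s2⟩ := hNS hs'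
    exact ⟨s', hs', by linarith, gen hU h1 a2 d2 s1.1 s1.2.1 s1.2.2,
      gen hB h2 b3 d3 s2.1 s2.2.1 s2.2.2⟩
  have step : ∀ s ∈ N, ∀ p ∈ U, F p = s.2.1 → ∃ s' ∈ N, ∃ η : ℂ → ℂ, η s.2.1 = p ∧
      (∀ x ∈ ball s.1 r, F (η x) = x) ∧ Arr U B r s s' η := by
    intro s hs p hp hFp
    obtain ⟨hz, s1, s2⟩ := hNS hs
    have hu : s.2.1 ∈ ball s.1 r := by rw [mem_ball]; linarith [s1.2.2]
    have hb : s.2.2 ∈ ball s.1 r := by rw [mem_ball]; linarith [s2.2.2]
    obtain ⟨η, h1, h2, h3, h4⟩ := h.br' hz hu hFp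
    have hz' : η s.1 ∈ J := by rw [← h.hJ, h3 _ (mem_ball_self hr)]; exact hz
    obtain ⟨s', hs', d1, d2, d3⟩ := move _ hz' (η s.2.1) (h2 ▸ hp) (η s.2.2)
      (iB _ (by rw [h3 _ hb]; exact s2.1))
      (by linarith [h4 _ hu _ (mem_ball_self hr), s1.2.2])
      (by linarith [h4 _ hb _ (mem_ball_self hr), s2.2.2])
    refine ⟨s', hs', η, h2, h3, h1, h4, fun x hx => ?_, d2, d3⟩
    have := h4 _ hx _ (mem_ball_self hr)
    have := dist_triangle (η x) (η s.1) s'.1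
    rw [mem_ball] at hx ⊢
    linarith
  have hNne : N.Nonempty := by
    obtain ⟨u, hu, hu'⟩ := Metric.mem_closure_iff.1 hz0U (r / 32) (by positivity)
    obtain ⟨b, hb, hb'⟩ := Metric.mem_closure_iff.1 hz0B (r / 32) (by positivity)
    obtain ⟨s', hs', -⟩ := move z0 hz0 u hu b hb (by rw [dist_comm]; exact hu'.le)
      (by rw [dist_comm]; exact hb'.le)
    exact ⟨s', hs'⟩
  obtain ⟨s, hs, hrec⟩ := exists_recurrent hNf hNne
    (fun a b => ∃ η : ℂ → ℂ, (∀ x ∈ ball a.1 r, F (η x) = x) ∧ Arr U B r a b η)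
  have half : ∀ c : ℂ, ball c (r / 2) ⊆ ball c r := fun c => ball_subset_ball (by linarith)
  have ret : ∀ p ∈ U, F p = s.2.1 → ∃ (η θ : ℂ → ℂ) (k : ℕ), η s.2.1 = p ∧
      DifferentiableOn ℂ η (ball s.1 r) ∧ (∀ x ∈ ball s.1 r, F (η x) = x) ∧
      (∀ x ∈ ball s.1 r, F^[k] (θ x) = η x) ∧ Arr U B r s s θ := by
    intro p hp hFp
    obtain ⟨s', hs', η, h1, h2, h3⟩ := step s hs p hp hFp
    have key : ∀ t, Relation.ReflTransGen (fun a b => b ∈ N ∧ ∃ η : ℂ → ℂ,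
        (∀ x ∈ ball a.1 r, F (η x) = x) ∧ Arr U B r a b η) s' t →
        ∃ (θ : ℂ → ℂ) (k : ℕ), (∀ x ∈ ball s.1 r, F^[k] (θ x) = η x) ∧ Arr U B r s t θ := by
      intro t ht
      induction ht with
      | refl => exact ⟨η, 0, fun x _ => rfl, h3⟩
      | @tail a c _ hac ih =>
        obtain ⟨θ, k, i1, i2⟩ := ih
        obtain ⟨-, η', j1, j2⟩ := hac
        have hJ' : ∀ x ∈ ball a.1 (r / 2), η' x ∈ J → x ∈ J := fun x hx hJ => by
          rwa [← h.hJ, j1 x (half _ hx)] at hJ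
        refine ⟨fun x => η' (θ x), k + 1, fun x hx => ?_, j2.hd.comp i2.hd
          (i2.maps.mono_right (half _)), fun x hx y hy => ?_,
          fun x hx => j2.maps (half _ (i2.maps hx)), ?_, ?_⟩
        · rw [Function.iterate_succ_apply, j1 _ (half _ (i2.maps hx)), i1 x hx]
        · have e1 := j2.lip _ (half _ (i2.maps hx)) _ (half _ (i2.maps hy))
          have e2 := i2.lip x hx y hy
          have : 0 ≤ dist x y := dist_nonneg
          linarith
        · exact (hU.joined_map (j2.hd.continuousOn.mono (half _)) (j2.maps.mono_left (half _)) hJ'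
            hU.dis i2.ju (Or.inr j2.ju.source_mem.1)).trans j2.ju
        · exact (hB.joined_map (j2.hd.continuousOn.mono (half _)) (j2.maps.mono_left (half _)) hJ'
            hB.dis i2.jb (Or.inr j2.jb.source_mem.1)).trans j2.jb
    obtain ⟨θ, k, i1, i2⟩ := key s (hrec s' hs' ⟨η, h2, h3⟩)
    exact ⟨η, θ, k, h1, h3.hd, h2, i1, i2⟩
  obtain ⟨hz, s1, s2⟩ := hNS hs
  have hu : s.2.1 ∈ ball s.1 r := by rw [mem_ball]; linarith [s1.2.2]
  obtain ⟨p, hp, q, hq, hpq, hFp, hFq⟩ := two _ s1.1 ((infDist_le_dist_of_mem hz).trans_lt hu)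
  obtain ⟨η, φ, k, a1, a2, a3, a4, a5⟩ := ret p hp hFp
  obtain ⟨η', χ, l, b1, b2, b3, b4, b5⟩ := ret q hq hFq
  have good : ∀ {η θ : ℂ → ℂ} {k : ℕ}, (∀ x ∈ ball s.1 r, F (η x) = x) →
      (∀ x ∈ ball s.1 r, F^[k] (θ x) = η x) → Arr U B r s s θ → Good J s.1 r θ (F^[k + 1]) := by
    intro η θ k c3 c4 c5
    exact ⟨c5.hd, h.hF.iterate _, fun x hx => by
      rw [Function.iterate_succ_apply', c4 x hx, c3 x hx], c5.lip, c5.maps, h.hJ_iter _,
      h.depth_mono_iter _⟩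
  refine infinite_of_branches h.cJ hz hr hU hB hUB (good a3 a4 a5) (good b3 b4 b5) ?_
    a5.ju.symm b5.ju.symm a5.jb.symm b5.jb.symm
  intro e he h1 h2
  have e1 : F^[k] e = η e := by rw [← a4 e he, h1]
  have e2 : F^[l] e = η' e := by rw [← b4 e he, h2]
  have e3 : Function.IsPeriodicPt F (k + 1) e := by
    change F^[k + 1] e = e
    rw [Function.iterate_succ_apply', e1, a3 e he]
  have e4 : Function.IsPeriodicPt F (l + 1) e := by
    change F^[l + 1] e = e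
    rw [Function.iterate_succ_apply', e2, b3 e he]
  have e5 : F^[k + (k + 1) * l] e = η e := by
    rw [Function.iterate_add_apply, (e3.mul_const l).eq, e1]
  have e6 : F^[l + (l + 1) * k] e = η' e := by
    rw [Function.iterate_add_apply, (e4.mul_const k).eq, e2]
  rw [show l + (l + 1) * k = k + (k + 1) * l by ring, e5] at e6
  exact hpq (by rw [← a1, ← b1]; exact h.branch_unique a2 b2 a3 b3 he e6 hu)

end Pool.Agent.H684Z.QS
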