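import Mathlib

set_option autoImplicit false

/-!
# Variation of the logarithm along a path
-/

namespace Pool.Agent.H684Z.QS

open Set Metric Filter Topology unitInterval Complex

/-- variation of a continuous logarithm of `h` along the unit interval -/
noncomputable def V (h : I → ℂ) : ℂ := by
  classical
  exact if H : ∃ l : I → ℂ, Continuous l ∧ ∀ t, exp (l t) = h t then
    H.choose 1 - H.choose 0 else 0

lemma const_of_exp_const {Y : Type*} [TopologicalSpace Y] {S : Set Y} (hS : IsPreconnected S)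
    {g : Y → ℂ} (hg : ContinuousOn g S) {c : ℂ} (h1 : ∀ y ∈ S, exp (g y) = c) {a b : Y}
    (ha : a ∈ S) (hb : b ∈ S) : g a = g b := by
  have hmem : ∀ y ∈ S, g y - g a ∈
      ((AddSubgroup.zmultiples (2 * Real.pi * Complex.I) : AddSubgroup ℂ) : Set ℂ) := by
    intro y hy
    have : exp (g y) = exp (g a) := by rw [h1 y hy, h1 a ha]
    obtain ⟨n, hn⟩ := exp_eq_exp_iff_exists_int.1 this
    refine AddSubgroup.mem_zmultiples_iff.2 ⟨n, ?_⟩
    rw [hn, zsmul_eq_mul]; ring
  have hd : IsDiscrete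
      ((AddSubgroup.zmultiples (2 * Real.pi * Complex.I) : AddSubgroup ℂ) : Set ℂ) :=
    ⟨NormedSpace.discreteTopology_zmultiples _⟩
  have := hS.constant_of_mapsTo hd (f := fun y => g y - g a) (hg.sub continuousOn_const) hmem ha hb
  simp only [sub_self] at this
  exact (sub_eq_zero.1 this.symm).symm

lemma V_eq {h l : I → ℂ} (hl : Continuous l) (he : ∀ t, exp (l t) = h t) :
    V h = l 1 - l 0 := by
  have H : ∃ l : I → ℂ, Continuous l ∧ ∀ t, exp (l t) = h t := ⟨l, hl, he⟩
  unfold V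
  rw [dif_pos H]
  obtain ⟨h1, h2⟩ := H.choose_spec
  have := const_of_exp_const (S := univ) isPreconnected_univ (g := fun t => H.choose t - l t)
    (h1.sub hl).continuousOn (c := 1) (fun t _ => by
      rw [exp_sub, h2, ← he, div_self (exp_ne_zero _)]) (mem_univ 1) (mem_univ 0)
  linear_combination this

lemma exists_log {h : I → ℂ} (hc : Continuous h) (h0 : ∀ t, h t ≠ 0) :
    ∃ l : I → ℂ, Continuous l ∧ ∀ t, exp (l t) = h t := by
  haveI : ContractibleSpace I := (convex_Icc (0 : ℝ) 1).contractibleSpace ⟨0, by simp⟩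
  haveI : LocallyPathConnectedSpace I := (convex_Icc (0 : ℝ) 1).locallyPathConnectedSpace
  obtain ⟨F, ⟨-, hF⟩, -⟩ := isCoveringMapOn_exp.existsUnique_continuousMap_lifts
    (⟨h, hc⟩ : C(I, ℂ)) (a₀ := 0) (exp_log (h0 0)) (fun a => h0 a)
  exact ⟨F, F.continuous, fun t => congrFun hF t⟩

lemma exp_V {h : I → ℂ} (hc : Continuous h) (h0 : ∀ t, h t ≠ 0) : exp (V h) = h 1 / h 0 := by
  obtain ⟨l, hl, he⟩ := exists_log hc h0
  rw [V_eq hl he, exp_sub, he, he]

lemma V_mul {h k : I → ℂ} (hc : Continuous h) (h0 : ∀ t, h t ≠ 0) (kc : Continuous k)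
    (k0 : ∀ t, k t ≠ 0) : V (fun t => h t * k t) = V h + V k := by
  obtain ⟨l, hl, he⟩ := exists_log hc h0
  obtain ⟨m, hm, ke⟩ := exists_log kc k0
  rw [V_eq hl he, V_eq hm ke, V_eq (l := fun t => l t + m t) (hl.add hm)
    (fun t => by rw [exp_add, he, ke])]
  ring

lemma V_const {c : ℂ} (hc : c ≠ 0) : V (fun _ => c) = 0 := by
  rw [V_eq (l := fun _ => log c) continuous_const (fun _ => exp_log hc)]
  simp

lemma V_slit {h : I → ℂ} (hc : Continuous h) (hs : ∀ t, h t ∈ slitPlane) :
    V h = log (h 1) - log (h 0) :=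
  V_eq (l := fun t => log (h t)) (hc.clog hs) (fun t => exp_log (slitPlane_ne_zero (hs t)))

lemma V_div_const {h : I → ℂ} (hc : Continuous h) (h0 : ∀ t, h t ≠ 0) {c : ℂ} (hc0 : c ≠ 0) :
    V (fun t => h t / c) = V h := by
  have := V_mul hc h0 (k := fun _ => c⁻¹) continuous_const (fun _ => inv_ne_zero hc0)
  rw [V_const (inv_ne_zero hc0), add_zero] at this
  simpa [div_eq_mul_inv] using this

lemma V_neg {h : I → ℂ} (hc : Continuous h) (h0 : ∀ t, h t ≠ 0) :
    V (fun t => - h t) = V h := by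
  have := V_div_const hc h0 (c := -1) (by simp)
  simpa [div_neg] using this

lemma mem_slit_of_near {a b : ℂ} (h : ‖a - b‖ < ‖b‖) : a / b ∈ slitPlane := by
  have hb : b ≠ 0 := by
    rintro rfl
    simp only [norm_zero] at h
    exact absurd h (not_lt.2 (norm_nonneg _))
  have : a / b = 1 + (a - b) / b := by field_simp; ring
  rw [this]
  apply mem_slitPlane_of_norm_lt_one
  rw [norm_div, div_lt_one (norm_pos_iff.2 hb)]
  exact h

lemma V_continuous {Y : Type*} [TopologicalSpace Y] {H : Y → I → ℂ}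
    (hc : Continuous (fun p : Y × I => H p.1 p.2)) (h0 : ∀ y t, H y t ≠ 0) :
    Continuous (fun y => V (H y)) := by
  rw [continuous_iff_continuousAt]
  intro y0
  have hy : ∀ y, Continuous (H y) := fun y => hc.comp (Continuous.prodMk_right y)
  have ht : ∀ t, Continuous (fun y => H y t) := fun t => hc.comp (Continuous.prodMk_left t)
  have hev : ∀ᶠ y in 𝓝 y0, ∀ t ∈ (univ : Set I), ‖H y t - H y0 t‖ < ‖H y0 t‖ := by
    apply isCompact_univ.eventually_forall_of_forall_eventually
    intro t _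
    have h1 : Continuous (fun p : Y × I => ‖H p.1 p.2 - H y0 p.2‖) :=
      (hc.sub ((hy y0).comp continuous_snd)).norm
    have h2 : Continuous (fun p : Y × I => ‖H y0 p.2‖) := ((hy y0).comp continuous_snd).norm
    exact (isOpen_lt h1 h2).mem_nhds (by simpa using h0 y0 t)
  have heq : (fun y => V (H y)) =ᶠ[𝓝 y0]
      fun y => V (H y0) + (log (H y 1 / H y0 1) - log (H y 0 / H y0 0)) := by
    filter_upwards [hev] with y hy'
    have hq : Continuous (fun t => H y t / H y0 t) := (hy y).div (hy y0) (h0 y0)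
    have := V_mul (hy y0) (h0 y0) hq (fun t => div_ne_zero (h0 y t) (h0 y0 t))
    rw [V_slit hq (fun t => mem_slit_of_near (hy' t (mem_univ t)))] at this
    rw [← this]
    congr 1
    ext t
    field_simp [h0 y0 t]
  refine ContinuousAt.congr ?_ heq.symm
  refine continuousAt_const.add (ContinuousAt.sub ?_ ?_)
  · exact ((ht 1).div_const _).continuousAt.clog (by simp [div_self (h0 y0 1)])
  · exact ((ht 0).div_const _).continuousAt.clog (by simp [div_self (h0 y0 0)])

lemma V_trans {X : Type*} [TopologicalSpace X] {a b c : X} (p : Path a b) (q : Path b c)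
    {G : X → ℂ} (hp : Continuous (fun t => G (p t))) (hq : Continuous (fun t => G (q t)))
    (p0 : ∀ t, G (p t) ≠ 0) (q0 : ∀ t, G (q t) ≠ 0) :
    V (fun t => G (p.trans q t)) = V (fun t => G (p t)) + V (fun t => G (q t)) := by
  obtain ⟨l, hl, he⟩ := exists_log hp p0
  obtain ⟨m, hm, ke⟩ := exists_log hq q0
  have hb : exp (l 1) = exp (m 0) := by rw [he, ke]; simp
  let P : Path (l 0) (l 1) := ⟨⟨l, hl⟩, rfl, rfl⟩
  let Q : Path (l 1) (m 1 - m 0 + l 1) :=
    ⟨⟨fun t => m t - m 0 + l 1, by fun_prop⟩, by simp, by simp⟩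
  rw [V_eq hl he, V_eq hm ke, V_eq (l := P.trans Q) (P.trans Q).continuous]
  · simp only [Path.target, Path.source]; ring
  · intro t
    rw [Path.trans_apply, Path.trans_apply]
    split_ifs with h
    · exact he _
    · change exp (m _ - m 0 + l 1) = _
      rw [exp_add, exp_sub, hb, ke, div_mul_cancel₀ _ (exp_ne_zero _)]

lemma V_square {H : I → I → ℂ} (hc : Continuous (fun p : I × I => H p.1 p.2))
    (h0 : ∀ s t, H s t ≠ 0) :
    V (fun s => H s 0) + V (H 1) = V (fun s => H s 1) + V (H 0) := by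
  have hy : ∀ y, Continuous (H y) := fun y => hc.comp (Continuous.prodMk_right y)
  have ht : ∀ t, Continuous (fun y => H y t) := fun t => hc.comp (Continuous.prodMk_left t)
  obtain ⟨l, hl, he⟩ := exists_log (hy 0) (h0 0)
  obtain ⟨m, hm, ke⟩ := exists_log (hy 1) (h0 1)
  have hV : Continuous (fun t => V (fun s => H s t)) :=
    V_continuous (H := fun t s => H s t) (hc.comp continuous_swap) (fun t s => h0 s t)
  have := const_of_exp_const (S := univ) isPreconnected_univ
    (g := fun t => V (fun s => H s t) - (m t - l t)) (hV.sub (hm.sub hl)).continuousOn (c := 1)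
    (fun t _ => by
      rw [exp_sub, exp_sub, exp_V (ht t) (fun s => h0 s t), he, ke,
        div_self (div_ne_zero (h0 1 t) (h0 0 t))]) (mem_univ 0) (mem_univ 1)
  rw [V_eq hl he, V_eq hm ke]
  linear_combination this

/-- variation of `log (γ t - x)` -/
noncomputable def L (γ : I → ℂ) (x : ℂ) : ℂ := V (fun t => γ t - x)

lemma exp_L {γ : I → ℂ} (hc : Continuous γ) {x : ℂ} (hx : ∀ t, γ t ≠ x) :
    exp (L γ x) = (γ 1 - x) / (γ 0 - x) :=
  exp_V (hc.sub continuous_const) (fun t => sub_ne_zero.2 (hx t))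

lemma L_continuousOn {γ : I → ℂ} (hc : Continuous γ) :
    ContinuousOn (L γ) {x | ∀ t, γ t ≠ x} := by
  rw [continuousOn_iff_continuous_restrict]
  exact V_continuous (Y := {x | ∀ t, γ t ≠ x}) (H := fun y t => γ t - y.1) (by fun_prop)
    (fun y t => sub_ne_zero.2 (y.2 t))

lemma L_trans {a b c : ℂ} (p : Path a b) (q : Path b c) {x : ℂ} (hp : ∀ t, p t ≠ x)
    (hq : ∀ t, q t ≠ x) : L (p.trans q) x = L p x + L q x :=
  V_trans p q (G := fun y => y - x) (by fun_prop) (by fun_prop)
    (fun t => sub_ne_zero.2 (hp t)) (fun t => sub_ne_zero.2 (hq t))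

lemma L_square {γ β : I → ℂ} (hγ : Continuous γ) (hβ : Continuous β) (h : ∀ s t, γ s ≠ β t) :
    L γ (β 0) + L β (γ 1) = L γ (β 1) + L β (γ 0) := by
  have := V_square (H := fun s t => γ s - β t) (by fun_prop) (fun s t => sub_ne_zero.2 (h s t))
  have e : ∀ s, V (fun t => γ s - β t) = L β (γ s) := by
    intro s
    have := V_neg (h := fun t => β t - γ s) (by fun_prop)
      (fun t => sub_ne_zero.2 (h s t).symm)
    simpa [L] using this
  rw [e, e] at this
  exact this

lemma L_near {γ : I → ℂ} (hc : Continuous γ) {e x : ℂ} (h : ∀ t, ‖γ t - e‖ < ‖e - x‖) :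
    L γ x = log ((γ 1 - x) / (e - x)) - log ((γ 0 - x) / (e - x)) := by
  have hex : e - x ≠ 0 := norm_pos_iff.1 ((norm_nonneg _).trans_lt (h 0))
  have hs : ∀ t, (γ t - x) / (e - x) ∈ slitPlane := fun t =>
    mem_slit_of_near (by simpa using h t)
  have h0 : ∀ t, γ t - x ≠ 0 := fun t h' => by
    have := slitPlane_ne_zero (hs t)
    simp [h'] at this
  rw [L, ← V_div_const (by fun_prop) h0 hex, V_slit (by fun_prop) hs]

lemma simplyConnected_ball (z : ℂ) {r : ℝ} (hr : 0 < r) : IsSimplyConnected (ball z r) := by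
  haveI := Metric.contractibleSpace_ball (x := z) hr
  exact (inferInstance : SimplyConnectedSpace (ball z r))

/-- transport of `L` under an injective holomorphic map of a disc -/
lemma L_map {z : ℂ} {r : ℝ} {θ : ℂ → ℂ} (hd : DifferentiableOn ℂ θ (ball z r))
    (hinj : InjOn θ (ball z r)) (hder : ∀ x ∈ ball z r, deriv θ x ≠ 0) {x : ℂ}
    (hx : x ∈ ball z r) : ∃ μ : ℂ → ℂ, ∀ γ : I → ℂ, Continuous γ → (∀ t, γ t ∈ ball z r) →
      (∀ t, γ t ≠ x) → L (fun t => θ (γ t)) (θ x) = L γ x + (μ (γ 1) - μ (γ 0)) := by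
  have hr : 0 < r := nonempty_ball.1 ⟨x, hx⟩
  have hq : ContinuousOn (dslope θ x) (ball z r) :=
    (continuousOn_dslope (isOpen_ball.mem_nhds hx)).2
      ⟨hd.continuousOn, hd.differentiableAt (isOpen_ball.mem_nhds hx)⟩
  have hq0 : ∀ y ∈ ball z r, dslope θ x y ≠ 0 := by
    intro y hy
    rcases eq_or_ne y x with rfl | hne
    · simpa using hder y hy
    · rw [dslope_of_ne _ hne, slope_def_field]
      exact div_ne_zero (sub_ne_zero.2 fun h => hne (hinj hy hx h)) (sub_ne_zero.2 hne)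
  obtain ⟨μ, hμ, he⟩ := exists_continuousOn_eqOn_exp_comp (simplyConnected_ball z hr) isOpen_ball
    hq (by rintro ⟨y, hy, h⟩; exact hq0 y hy h)
  refine ⟨μ, fun γ hγ hm hne => ?_⟩
  have h1 : Continuous (fun t => dslope θ x (γ t)) := hq.comp_continuous hγ hm
  have h2 := V_mul (h := fun t => γ t - x) (by fun_prop) (fun t => sub_ne_zero.2 (hne t)) h1
    (fun t => hq0 _ (hm t))
  rw [V_eq (l := fun t => μ (γ t)) (hμ.comp_continuous hγ hm) (fun t => he (hm t))] at h2
  rw [L, L, ← h2]
  congr 1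
  ext t
  have := sub_smul_dslope θ x (γ t)
  rw [smul_eq_mul] at this
  exact this.symm

end Pool.Agent.H684Z.QS
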