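import Pool.Agent.H684Z.QS.Ana
import Pool.Agent.H684Z.QS.Dyn

set_option autoImplicit false

/-!
# Polynomial dynamics: basics and expansion on the Julia set
-/

namespace Pool.Agent.H684Z.QS

open Set Metric Filter Topology Complex

/-- the facts about a polynomial of degree at least two that are used -/
structure Pol (f : ℂ → ℂ) (R : ℝ) (K : Set ℂ) : Prop where
  hf : Differentiable ℂ f
  op : IsOpenMap f
  hR : 0 < R
  grow : ∀ z, R ≤ ‖z‖ → 2 * ‖z‖ ≤ ‖f z‖
  hK : ∀ z, z ∈ K ↔ ∀ n, ‖f^[n] z‖ ≤ R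
  cov : IsCoveringMapOn f (f '' {c | deriv f c = 0})ᶜ
  fin : {c | deriv f c = 0}.Finite
  roots : ∀ w, ∃ a ≠ (0 : ℂ), ∃ s : Multiset ℂ, s ≠ 0 ∧
    ∀ x, f x - w = a * (s.map (fun y => x - y)).prod

namespace Pol

variable {f : ℂ → ℂ} {R : ℝ} {K : Set ℂ}

lemma grow_iter (h : Pol f R K) (n : ℕ) {z : ℂ} (hz : R ≤ ‖z‖) : 2 ^ n * ‖z‖ ≤ ‖f^[n] z‖ := by
  induction n with
  | zero => simp
  | succ n ih =>
    have h1 : (1 : ℝ) ≤ 2 ^ n := one_le_pow₀ (by norm_num)
    have h2 := h.grow (f^[n] z) (by nlinarith [h.hR])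
    rw [Function.iterate_succ_apply', pow_succ]
    linarith

lemma closedK (h : Pol f R K) : IsClosed K := by
  have : K = ⋂ n, {z | ‖f^[n] z‖ ≤ R} := by ext z; simp [h.hK]
  rw [this]
  exact isClosed_iInter fun n => isClosed_le (h.hf.continuous.iterate n).norm continuous_const

lemma normK (h : Pol f R K) {z : ℂ} (hz : z ∈ K) : ‖z‖ ≤ R := (h.hK z).1 hz 0

lemma bddK (h : Pol f R K) : Bornology.IsBounded K :=
  (isBounded_closedBall (x := 0) (r := R)).subset fun _ hz => mem_closedBall_zero_iff.2 (h.normK hz)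

lemma invK (h : Pol f R K) (z : ℂ) : f z ∈ K ↔ z ∈ K := by
  rw [h.hK, h.hK]
  refine ⟨fun h1 n => ?_, fun h1 n => h1 (n + 1)⟩
  cases n with
  | zero =>
    by_contra h2
    have h3 := h1 0
    simp only [Function.iterate_zero, id, not_le] at h2 h3
    linarith [h.grow z h2.le, h.hR]
  | succ n => exact h1 n

lemma invJ (h : Pol f R K) (z : ℂ) : f z ∈ frontier K ↔ z ∈ frontier K := by
  have h1 := h.op.preimage_frontier_eq_frontier_preimage h.hf.continuous K
  have h2 : f ⁻¹' K = K := Set.ext h.invK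
  rw [h2] at h1
  exact Set.ext_iff.1 h1 z

lemma invK_iter (h : Pol f R K) (n : ℕ) (z : ℂ) : f^[n] z ∈ K ↔ z ∈ K := by
  induction n with
  | zero => rfl
  | succ n ih => rw [Function.iterate_succ_apply', h.invK, ih]

lemma invJ_iter (h : Pol f R K) (n : ℕ) (z : ℂ) : f^[n] z ∈ frontier K ↔ z ∈ frontier K := by
  induction n with
  | zero => rfl
  | succ n ih => rw [Function.iterate_succ_apply', h.invJ, ih]

lemma subK (h : Pol f R K) : frontier K ⊆ K := h.closedK.frontier_subset

lemma cJ (h : Pol f R K) : IsCompact (frontier K) :=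
  Metric.isCompact_of_isClosed_isBounded isClosed_frontier (h.bddK.subset h.subK)

lemma clB {z : ℂ} (hz : z ∈ frontier K) : z ∈ closure Kᶜ := by
  rw [frontier_eq_closure_inter_closure] at hz
  exact hz.2

lemma sideB (h : Pol f R K) : Side (frontier K) Kᶜ :=
  ⟨h.closedK.isOpen_compl, fun _ hx hJ => hx (h.subK hJ), fun x hx hJ hK => hJ (by
    rw [frontier_eq_closure_inter_closure]; exact ⟨subset_closure hK, hx⟩)⟩

lemma preB (h : Pol f R K) : IsPreconnected Kᶜ := by
  let E : Set ℂ := exp '' {s | Real.log R < s.re}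
  have cE : IsPreconnected E :=
    (convex_halfSpace_re_gt _).isPreconnected.image _ continuous_exp.continuousOn
  have mE : ∀ z, R < ‖z‖ → z ∈ E := fun z hz =>
    ⟨log z, by simpa [log_re] using Real.log_lt_log h.hR hz,
      exp_log (norm_pos_iff.1 (h.hR.trans hz))⟩
  have sE : ∀ z ∈ E, z ∉ K := by
    rintro _ ⟨s, hs, rfl⟩ hK
    have h1 := h.normK hK
    rw [norm_exp, ← Real.le_log_iff_exp_le h.hR] at h1
    exact not_lt.2 h1 hs
  have e0 : ((R + 1 : ℝ) : ℂ) ∈ E := mE _ (by
    rw [norm_real, Real.norm_of_nonneg (by linarith [h.hR])]; linarith)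
  refine isPreconnected_of_forall ((R + 1 : ℝ) : ℂ) fun x hx => ?_
  have hC := side_comp (isClosed_frontier (s := K)) x
  have hxC : x ∈ connectedComponentIn (frontier K)ᶜ x :=
    mem_connectedComponentIn (h.sideB.dis x hx)
  have hCB : connectedComponentIn (frontier K)ᶜ x ⊆ Kᶜ :=
    h.sideB.sub isPreconnected_connectedComponentIn hC.dis hxC hx
  refine ⟨_, hCB, ?_, hxC, isPreconnected_connectedComponentIn⟩
  by_cases hb : ∃ z ∈ connectedComponentIn (frontier K)ᶜ x, R < ‖z‖
  · obtain ⟨z, h1, h2⟩ := hb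
    exact hC.sub cE (fun y hy hJ => sE y hy (h.subK hJ)) (mE z h2) h1 e0
  · push Not at hb
    refine absurd ((h.hK x).2 fun n => ?_) hx
    refine norm_le_of_forall_mem_frontier_norm_le ((isBounded_closedBall (x := 0) (r := R)).subset
      fun z hz => mem_closedBall_zero_iff.2 (hb z hz)) (h.hf.iterate n).diffContOnCl
      (fun z hz => (h.hK z).1 (h.subK ?_) n) (subset_closure hxC)
    by_contra hJ
    rw [hC.op.frontier_eq] at hz
    exact hz.2 (hC.cl z hz.1 hJ)

lemma blow (h : Pol f R K) {δ : ℝ} (hδ : 0 < δ) (M : ℝ) :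
    ∃ N, ∀ n ≥ N, ∀ y ∈ frontier K, ∃ w ∈ ball y δ, M < ‖f^[n] w‖ := by
  have esc : ∀ w ∉ K, ∀ᶠ n in atTop, M < ‖f^[n] w‖ := by
    intro w hw
    rw [h.hK] at hw
    push Not at hw
    obtain ⟨m, hm⟩ := hw
    obtain ⟨k, hk⟩ := pow_unbounded_of_one_lt (M / R) (show (1 : ℝ) < 2 by norm_num)
    rw [div_lt_iff₀ h.hR] at hk
    filter_upwards [eventually_ge_atTop (k + m)] with n hn
    obtain ⟨j, rfl⟩ := Nat.exists_eq_add_of_le hn
    have h1 := h.grow_iter (k + j) hm.le
    rw [← Function.iterate_add_apply, show k + j + m = k + m + j by ring] at h1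
    have h2 : (2 : ℝ) ^ k ≤ 2 ^ (k + j) := pow_le_pow_right₀ (by norm_num) (Nat.le_add_right _ _)
    have h3 : (0 : ℝ) < 2 ^ k := by positivity
    nlinarith [h.hR]
  refine eventually_atTop.1 (h.cJ.induction_on
    (p := fun t => ∀ᶠ n in atTop, ∀ y ∈ t, ∃ w ∈ ball y δ, M < ‖f^[n] w‖) (by simp)
    (fun s t hst ht => ht.mono fun n hn y hy => hn y (hst hy))
    (fun s t hs ht => (hs.and ht).mono fun n hn y hy => hy.elim (hn.1 y) (hn.2 y)) fun y hy => ?_)
  obtain ⟨w, h1, h2⟩ := Metric.mem_closure_iff.1 (clB hy) (δ / 2) (half_pos hδ)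
  refine ⟨ball y (δ / 2), mem_nhdsWithin_of_mem_nhds (ball_mem_nhds y (half_pos hδ)),
    (esc w h1).mono fun n hn y' hy' => ⟨w, ?_, hn⟩⟩
  have := dist_triangle_left w y' y
  rw [mem_ball, dist_comm] at hy'
  rw [mem_ball]
  linarith

lemma deriv_succ (h : Pol f R K) (n : ℕ) (p : ℂ) :
    deriv f^[n + 1] p = deriv f^[n] (f p) * deriv f p := by
  rw [Function.iterate_succ]
  exact deriv_comp p (h.hf.iterate n _) (h.hf p)

lemma crit_iter (h : Pol f R K) (n : ℕ) : ∀ p, deriv f^[n] p = 0 →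
    ∃ c, deriv f c = 0 ∧ ∃ k, f^[k] c = f^[n] p := by
  induction n with
  | zero => intro p hp; simp at hp
  | succ n ih =>
    intro p hp
    rw [h.deriv_succ, mul_eq_zero] at hp
    rcases hp with hp | hp
    · exact ih _ hp
    · exact ⟨p, hp, n + 1, rfl⟩

lemma branch (h : Pol f R K) {z : ℂ} {ρ : ℝ}
    (hP : ∀ c, deriv f c = 0 → ∀ k, f^[k] c ∉ ball z ρ) (n : ℕ) {w : ℂ} (hw : w ∈ ball z ρ) :
    ∀ p, f^[n] p = w → ∃ η : ℂ → ℂ, DifferentiableOn ℂ η (ball z ρ) ∧ η w = p ∧
      ∀ x ∈ ball z ρ, f^[n] (η x) = x := by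
  induction n with
  | zero => exact fun p hp => ⟨id, differentiableOn_id, hp.symm, fun x _ => rfl⟩
  | succ n ih =>
    intro p hp
    obtain ⟨η, h1, h2, h3⟩ := ih (f p) hp
    obtain ⟨η', h4, h5, h6⟩ := lift_hol h.hf h.cov (fun e he h0 => he ⟨e, h0, rfl⟩) h1
      (fun x hx ⟨c, hc, hc'⟩ => hP c hc (n + 1) (by
        rwa [Function.iterate_succ_apply, hc', h3 x hx])) hw h2.symm
    exact ⟨η', h4, h5, fun x hx => by rw [Function.iterate_succ_apply, h6 x hx, h3 x hx]⟩

lemma expd (h : Pol f R K) (ne : (frontier K).Nonempty) {r : ℝ} (hr : 0 < r)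
    (hP : ∀ z ∈ frontier K, ∀ c, deriv f c = 0 → ∀ k, f^[k] c ∉ ball z (8 * r)) :
    ∃ N, ∀ n ≥ N, Expd (frontier K) f^[n] r := by
  obtain ⟨a, ha, hh⟩ := harnack (M := 2 * (R + 8 * r) / (8 * r)) (a := 1 / 16) (by norm_num)
  obtain ⟨N, hN⟩ := h.blow (δ := 2 * r * a / 2) (by positivity) (R + 8 * r)
  refine ⟨N, fun n hn => ⟨h.cJ, ne, hr, h.hf.iterate n, h.invJ_iter n, fun z hz w hw p hp => ?_⟩⟩
  have s1 : ball z r ⊆ ball z (8 * r) := ball_subset_ball (by linarith)
  have s2 : closedBall z (2 * r) ⊆ ball z (8 * r) := closedBall_subset_ball (by linarith)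
  have z8 : z ∈ ball z (8 * r) := mem_ball_self (by positivity)
  obtain ⟨η, h1, h2, h3⟩ := h.branch (hP z hz) n (s1 hw) p hp
  refine ⟨η, h1.mono s1, h2, fun x hx => h3 x (s1 hx), ?_⟩
  have nb : ∀ x ∈ ball z (8 * r), ‖x‖ ≤ R + 8 * r := fun x hx => by
    have h4 := h.normK (h.subK hz)
    have h5 := norm_le_insert' x z
    rw [mem_ball, dist_eq_norm] at hx
    linarith
  have bd : ∀ x ∈ ball z (8 * r), ‖η x‖ ≤ R + 8 * r := fun x hx => by
    rcases le_total R ‖η x‖ with h4 | h4
    · have h5 := h.grow_iter n h4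
      have h6 : (1 : ℝ) ≤ 2 ^ n := one_le_pow₀ (by norm_num)
      rw [h3 x hx] at h5
      nlinarith [nb x hx, norm_nonneg (η x)]
    · linarith
  have inj : ∀ x ∈ ball z (8 * r), η x = η z → x = z := fun x hx he => by
    rw [← h3 x hx, he, h3 z z8]
  have small : ∀ x ∈ ball z (2 * r), ‖η x - η z‖ ≤ r / 8 := by
    intro x hx
    by_contra hcon
    rw [not_le] at hcon
    have e8 : 4 * (2 * r) = 8 * r := by ring
    have hxz : x ≠ z := by
      rintro rfl
      simp only [sub_self, norm_zero] at hcon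
      linarith
    have ds : ∀ y, y ≠ z → ‖dslope η z y‖ = ‖η y - η z‖ / ‖y - z‖ := fun y hy => by
      rw [dslope_of_ne _ hy, slope_def_field, norm_div]
    have key := hh z (2 * r) (dslope η z)
      (by rw [e8]; exact (differentiableOn_dslope (isOpen_ball.mem_nhds z8)).2 h1)
      (fun y hy => ?_) x hx (by
        rw [ds x hxz, le_div_iff₀ (norm_pos_iff.2 (sub_ne_zero.2 hxz))]
        rw [mem_ball, dist_eq_norm] at hx
        linarith)
    · have hb := DiffContOnCl.ball_subset_image_closedBall (f := η) (z₀ := z) (r := 2 * r)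
        (ε := 2 * r * a) (h1.diffContOnCl_ball s2) (by positivity) (fun y hy => ?_) ?_
      · obtain ⟨v, h4, h5⟩ := hN n hn (η z) (by rw [← h.invJ_iter n, h3 z z8]; exact hz)
        obtain ⟨y, h6, rfl⟩ := hb h4
        rw [h3 y (s2 h6)] at h5
        linarith [nb y (s2 h6)]
      · have h4 := key y (sphere_subset_closedBall hy)
        have h5 : ‖y - z‖ = 2 * r := by rwa [mem_sphere, dist_eq_norm] at hy
        rw [ds y (ne_of_mem_sphere hy (by positivity)), h5, le_div_iff₀ (by positivity)] at h4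
        linarith
      · refine Frequently.filter_mono (Eventually.frequently (f := 𝓝[≠] z) ?_) nhdsWithin_le_nhds
        filter_upwards [self_mem_nhdsWithin, mem_nhdsWithin_of_mem_nhds (isOpen_ball.mem_nhds z8)]
          with y h4 h5 h6 using h4 (inj y h5 h6)
    · rw [e8] at hy
      refine ⟨?_, norm_dslope_le_div_of_mapsTo_ball h1 (fun v hv => ?_) hy⟩
      · rcases eq_or_ne y z with rfl | hne
        · rw [dslope_same]
          have h4 := (h1.differentiableAt (isOpen_ball.mem_nhds hy)).hasDerivAt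
          have h5 := ((h.hf.iterate n) (η y)).hasDerivAt.comp y h4
          have h6 : HasDerivAt (f^[n] ∘ η) 1 y := by
            refine (hasDerivAt_id y).congr_of_eventuallyEq ?_
            filter_upwards [isOpen_ball.mem_nhds hy] with v hv using h3 v hv
          exact right_ne_zero_of_mul_eq_one (h5.unique h6)
        · rw [dslope_of_ne _ hne, slope_def_field]
          exact div_ne_zero (sub_ne_zero.2 fun h' => hne (inj y hy h')) (sub_ne_zero.2 hne)
      · have := norm_sub_le (η v) (η z)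
        rw [mem_closedBall, dist_eq_norm]
        linarith [bd v hv, bd z z8]
  intro x hx
  have s3 : ball x r ⊆ ball z (2 * r) := fun y hy => by
    have := dist_triangle y x z
    rw [mem_ball] at *
    linarith
  have := norm_deriv_le_div_of_mapsTo_ball (R₂ := r / 4) (h1.mono (s3.trans
    (ball_subset_closedBall.trans s2))) (fun y hy => by
      have h4 := small y (s3 hy)
      have h5 := small x (s3 (mem_ball_self hr))
      have := dist_triangle_right (η y) (η x) (η z)
      rw [← dist_eq_norm] at h4 h5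
      rw [mem_closedBall]
      linarith) hr
  rwa [show r / 4 / r = 1 / 4 by field_simp] at this

end Pol

end Pool.Agent.H684Z.QS
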