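import Mathlib

set_option autoImplicit false

/-!
# Gluing Lipschitz maps along cut points
-/

namespace Pool.Agent.H684Z.QS

open Set Metric Filter Topology

def LipOn (g : ℂ → ℂ) (X : Set ℂ) : Prop :=
  ∃ K : ℝ, 0 < K ∧ ∀ a ∈ X, ∀ b ∈ X, dist (g a) (g b) ≤ K * dist a b

def SepAt (e : ℂ) (X Y : Set ℂ) : Prop :=
  ∃ c > (0 : ℝ), ∃ t > (0 : ℝ), ∀ a ∈ X, ∀ b ∈ Y, a ∈ ball e t → b ∈ ball e t →
    c * dist a e ≤ dist a b

lemma LipOn.mono {g : ℂ → ℂ} {X Y : Set ℂ} (h : LipOn g Y) (hXY : X ⊆ Y) : LipOn g X := by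
  obtain ⟨K, hK, h⟩ := h
  exact ⟨K, hK, fun a ha b hb => h a (hXY ha) b (hXY hb)⟩

lemma LipOn.congr {g g' : ℂ → ℂ} {X : Set ℂ} (h : LipOn g X) (he : ∀ x ∈ X, g' x = g x) :
    LipOn g' X := by
  obtain ⟨K, hK, h⟩ := h
  exact ⟨K, hK, fun a ha b hb => by rw [he a ha, he b hb]; exact h a ha b hb⟩

lemma LipOn.comp {g h : ℂ → ℂ} {X Y : Set ℂ} (hg : LipOn g Y) (hh : LipOn h X)
    (hm : MapsTo h X Y) : LipOn (fun x => g (h x)) X := by
  obtain ⟨K, hK, hg⟩ := hg
  obtain ⟨K', hK', hh⟩ := hh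
  refine ⟨K * K', mul_pos hK hK', fun a ha b hb => (hg _ (hm ha) _ (hm hb)).trans ?_⟩
  rw [mul_assoc]
  exact mul_le_mul_of_nonneg_left (hh a ha b hb) hK.le

lemma lipOn_id (X : Set ℂ) : LipOn (fun x => x) X := ⟨1, one_pos, fun a _ b _ => by simp⟩

lemma lipOn_of_lipschitzOnWith {g : ℂ → ℂ} {X : Set ℂ} {K : NNReal}
    (h : LipschitzOnWith K g X) : LipOn g X :=
  ⟨K + 1, by positivity, fun a ha b hb => (h.dist_le_mul a ha b hb).trans
    (mul_le_mul_of_nonneg_right (by linarith) dist_nonneg)⟩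

lemma lipOn_entire {G : ℂ → ℂ} (hG : Differentiable ℂ G) {X : Set ℂ} (hX : IsCompact X) :
    LipOn G X := by
  have h : LocallyLipschitz G := (hG.contDiff (n := 1)).locallyLipschitz
  obtain ⟨K, hK⟩ := LocallyLipschitzOn.exists_lipschitzOnWith_of_compact hX
    (h.locallyLipschitzOn (s := X))
  exact lipOn_of_lipschitzOnWith hK

lemma lipOn_of_local {g : ℂ → ℂ} {X : Set ℂ} (hX : IsCompact X)
    (h : ∀ x ∈ X, ∃ U ∈ 𝓝 x, LipOn g (X ∩ U)) : LipOn g X := by
  have : LocallyLipschitzOn X g := by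
    intro x hx
    obtain ⟨U, hU, K, hK, h⟩ := h x hx
    refine ⟨⟨K, hK.le⟩, X ∩ U, inter_mem_nhdsWithin X hU, ?_⟩
    exact LipschitzOnWith.of_dist_le_mul fun a ha b hb => h a ha b hb
  obtain ⟨K, hK⟩ := this.exists_lipschitzOnWith_of_compact hX
  exact lipOn_of_lipschitzOnWith hK

lemma glue {g : ℂ → ℂ} {X Y : Set ℂ} (hX : IsCompact X) (hY : IsCompact Y)
    (hs : ∀ e ∈ X, e ∈ Y → SepAt e X Y) (gX : LipOn g X) (gY : LipOn g Y) :
    LipOn g (X ∪ Y) := by
  apply lipOn_of_local (hX.union hY)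
  intro x hx
  by_cases hxX : x ∈ X
  · by_cases hxY : x ∈ Y
    · obtain ⟨c, hc, t, ht, hsep⟩ := hs x hxX hxY
      obtain ⟨K, hK, gX⟩ := gX
      obtain ⟨K', hK', gY⟩ := gY
      have key : ∀ a ∈ X, ∀ b ∈ Y, a ∈ ball x t → b ∈ ball x t →
          dist (g a) (g b) ≤ (K + K' + (K + K') / c) * dist a b := by
        intro a ha b hb hat hbt
        have h1 := hsep a ha b hb hat hbt
        have h2 : dist a x ≤ dist a b / c := by rw [le_div_iff₀ hc]; linarith
        have h3 : dist x b ≤ dist a b / c + dist a b := by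
          have := dist_triangle x a b
          rw [dist_comm x a] at this
          linarith
        have h4 := gX a ha x hxX
        have h5 := gY x hxY b hb
        have h6 := dist_triangle (g a) (g x) (g b)
        have h7 : K * dist a x ≤ K * (dist a b / c) := mul_le_mul_of_nonneg_left h2 hK.le
        have h8 : K' * dist x b ≤ K' * (dist a b / c + dist a b) :=
          mul_le_mul_of_nonneg_left h3 hK'.le
        have h9 : (K + K' + (K + K') / c) * dist a b =
          K * (dist a b / c) + K' * (dist a b / c + dist a b) + K * dist a b := by ring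
        have h10 : 0 ≤ K * dist a b := by positivity
        linarith
      have hc' : 0 ≤ (K + K') / c := by positivity
      refine ⟨ball x t, ball_mem_nhds x ht, K + K' + (K + K') / c, by positivity, ?_⟩
      rintro a ⟨ha | ha, hat⟩ b ⟨hb | hb, hbt⟩
      · exact (gX a ha b hb).trans (mul_le_mul_of_nonneg_right (by linarith) dist_nonneg)
      · exact key a ha b hb hat hbt
      · rw [dist_comm (g a), dist_comm a]; exact key b hb a ha hbt hat
      · exact (gY a ha b hb).trans (mul_le_mul_of_nonneg_right (by linarith) dist_nonneg)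
    · refine ⟨Yᶜ, hY.isClosed.isOpen_compl.mem_nhds hxY, gX.mono ?_⟩
      rintro a ⟨ha | ha, h⟩
      · exact ha
      · exact absurd ha h
  · refine ⟨Xᶜ, hX.isClosed.isOpen_compl.mem_nhds hxX, gY.mono ?_⟩
    rintro a ⟨ha | ha, h⟩
    · exact absurd ha h
    · exact ha

lemma map_nhds_of_deriv {φ : ℂ → ℂ} {U : Set ℂ} (hU : IsOpen U) (hd : DifferentiableOn ℂ φ U)
    {x : ℂ} (hx : x ∈ U) (h0 : deriv φ x ≠ 0) {N : Set ℂ} (hN : N ∈ 𝓝 x) :
    φ '' N ∈ 𝓝 (φ x) := by
  have h := ((hd.analyticAt (hU.mem_nhds hx)).hasStrictDerivAt).map_nhds_eq h0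
  rw [← h]
  exact image_mem_map hN

/-- bounded distortion of the iterates of a contraction near its fixed point -/
lemma distortion {φ : ℂ → ℂ} {e : ℂ} {t0 : ℝ} (ht0 : 0 < t0)
    (hd : DifferentiableOn ℂ φ (ball e t0)) (he : φ e = e) (h0 : deriv φ e ≠ 0)
    (hl : ∀ x ∈ ball e t0, dist (φ x) e ≤ dist x e / 4) :
    ∃ τ > (0 : ℝ), τ ≤ t0 ∧ ∀ j : ℕ, ∀ x ∈ ball e τ, ∀ y ∈ ball e τ,
      ‖deriv φ e‖ ^ j / 2 * dist x y ≤ dist (φ^[j] x) (φ^[j] y) ∧
      dist (φ^[j] x) (φ^[j] y) ≤ 2 * ‖deriv φ e‖ ^ j * dist x y := by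
  set l := deriv φ e with hldef
  have hlp : 0 < ‖l‖ := norm_pos_iff.2 h0
  have h1 : DifferentiableAt ℂ (deriv φ) e :=
    (hd.deriv isOpen_ball).differentiableAt (ball_mem_nhds e ht0)
  obtain ⟨M, hM, hb⟩ := h1.isBigO_sub.exists_pos
  obtain ⟨τ0, hτ0, hb⟩ := Metric.eventually_nhds_iff_ball.1 hb.bound
  set τ := min (min τ0 t0) (‖l‖ / (4 * M)) with hτ
  have hτp : 0 < τ := by positivity
  have hτ1 : τ ≤ τ0 := (min_le_left _ _).trans (min_le_left _ _)
  have hτ2 : τ ≤ t0 := (min_le_left _ _).trans (min_le_right _ _)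
  have hτ3 : M * τ ≤ ‖l‖ / 4 := by
    have : τ ≤ ‖l‖ / (4 * M) := min_le_right _ _
    rw [le_div_iff₀ (by positivity)] at this
    linarith
  have step : ∀ q : ℝ, 0 < q → q ≤ 1 → ∀ x ∈ ball e (τ * q), ∀ y ∈ ball e (τ * q),
      ‖l‖ * (1 - q / 4) * dist x y ≤ dist (φ x) (φ y) ∧
      dist (φ x) (φ y) ≤ ‖l‖ * (1 + q / 4) * dist x y := by
    intro q hq hq1 x hx y hy
    have hs : τ * q ≤ τ := by nlinarith
    have hdd : ∀ w ∈ ball e (τ * q), HasDerivAt (fun w => φ w - l * w) (deriv φ w - l) w := by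
      intro w hw
      have := (hd.differentiableAt (isOpen_ball.mem_nhds
        (ball_subset_ball (hs.trans hτ2) hw))).hasDerivAt
      have h2 := this.sub ((hasDerivAt_id w).const_mul l)
      rw [mul_one] at h2
      exact h2
    have hbound : ∀ w ∈ ball e (τ * q), ‖deriv φ w - l‖ ≤ ‖l‖ * q / 4 := by
      intro w hw
      have h2 := hb w (ball_subset_ball (hs.trans hτ1) hw)
      have h3 : ‖w - e‖ ≤ τ * q := (mem_ball_iff_norm.1 hw).le
      have h4 : M * ‖w - e‖ ≤ M * (τ * q) := mul_le_mul_of_nonneg_left h3 hM.le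
      have h5 : M * τ * q ≤ ‖l‖ / 4 * q := mul_le_mul_of_nonneg_right hτ3 hq.le
      nlinarith
    have h6 := (convex_ball e (τ * q)).norm_image_sub_le_of_norm_hasDerivWithin_le
      (fun w hw => (hdd w hw).hasDerivWithinAt) hbound hy hx
    have h7 : φ x - l * x - (φ y - l * y) = (φ x - φ y) - l * (x - y) := by ring
    rw [h7] at h6
    have h8 := norm_sub_norm_le (φ x - φ y) (l * (x - y))
    have h9 := norm_sub_norm_le (l * (x - y)) (φ x - φ y)
    rw [norm_sub_rev (l * (x - y))] at h9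
    rw [norm_mul] at h8 h9
    rw [dist_eq_norm, dist_eq_norm]
    constructor <;> nlinarith
  have hin : ∀ j : ℕ, ∀ x ∈ ball e τ, φ^[j] x ∈ ball e (τ * (1 / 4) ^ j) := by
    intro j x hx
    induction j with
    | zero => simpa using hx
    | succ j ih =>
      rw [Function.iterate_succ_apply']
      have hq1 : (1 / 4 : ℝ) ^ j ≤ 1 := pow_le_one₀ (by norm_num) (by norm_num)
      have := hl _ (ball_subset_ball (by nlinarith) ih)
      rw [mem_ball] at ih ⊢
      rw [pow_succ]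
      linarith
  refine ⟨τ, hτp, hτ2, fun j x hx y hy => ?_⟩
  have main : ‖l‖ ^ j * (1 / 2 + (1 / 2) ^ j / 2) * dist x y ≤ dist (φ^[j] x) (φ^[j] y) ∧
      dist (φ^[j] x) (φ^[j] y) ≤ ‖l‖ ^ j * (2 - (1 / 2) ^ j) * dist x y := by
    induction j with
    | zero => norm_num
    | succ j ih =>
      rw [Function.iterate_succ_apply', Function.iterate_succ_apply']
      have hq1 : (1 / 4 : ℝ) ^ j ≤ 1 := pow_le_one₀ (by norm_num) (by norm_num)
      have hq0 : (0 : ℝ) < (1 / 4) ^ j := by positivity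
      obtain ⟨s1, s2⟩ := step _ hq0 hq1 _ (hin j x hx) _ (hin j y hy)
      obtain ⟨i1, i2⟩ := ih
      set u : ℝ := (1 / 2) ^ j with hu
      have hu0 : 0 < u := by positivity
      have hu1 : u ≤ 1 := pow_le_one₀ (by norm_num) (by norm_num)
      have hq : (1 / 4 : ℝ) ^ j = u * u := by rw [hu, ← mul_pow]; norm_num
      rw [hq] at s1 s2
      have hP : 0 ≤ ‖l‖ ^ j * ‖l‖ * dist x y := by positivity
      have a1 : 0 ≤ ‖l‖ * (1 - u * u / 4) := by apply mul_nonneg hlp.le; nlinarith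
      have a2 : 0 ≤ ‖l‖ * (1 + u * u / 4) := by positivity
      have b1 := mul_le_mul_of_nonneg_left i1 a1
      have b2 := mul_le_mul_of_nonneg_left i2 a2
      have c1 : (1 / 2 + u * (1 / 2) / 2) ≤ (1 - u * u / 4) * (1 / 2 + u / 2) := by
        nlinarith [mul_nonneg hu0.le (mul_nonneg hu0.le (sub_nonneg.2 hu1)),
          mul_nonneg hu0.le (sub_nonneg.2 hu1)]
      have c2 : (1 + u * u / 4) * (2 - u) ≤ 2 - u * (1 / 2) := by
        nlinarith [mul_nonneg hu0.le (mul_nonneg hu0.le hu0.le),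
          mul_nonneg hu0.le (sub_nonneg.2 hu1)]
      have d1 := mul_le_mul_of_nonneg_left c1 hP
      have d2 := mul_le_mul_of_nonneg_left c2 hP
      rw [pow_succ, pow_succ]
      constructor <;> nlinarith
  have hu0 : (0 : ℝ) < (1 / 2) ^ j := by positivity
  have hP : 0 ≤ ‖l‖ ^ j * dist x y := by positivity
  constructor <;> nlinarith [main.1, main.2, mul_nonneg hP hu0.le]

/-- two closed sets that are locally backward invariant under a contraction and meet only in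
the fixed point are linearly separated there -/
lemma sep_self {φ : ℂ → ℂ} {e : ℂ} {t0 : ℝ} (ht0 : 0 < t0)
    (hd : DifferentiableOn ℂ φ (ball e t0)) (he : φ e = e) (h0 : deriv φ e ≠ 0)
    (hl : ∀ x ∈ ball e t0, dist (φ x) e ≤ dist x e / 4) {X Y : Set ℂ} (hX : IsClosed X)
    (hY : IsClosed Y) (hXY : ∀ x ∈ ball e t0, x ∈ X → x ∈ Y → x = e)
    (iX : ∀ x ∈ ball e t0, φ x ∈ X → x ∈ X) (iY : ∀ x ∈ ball e t0, φ x ∈ Y → x ∈ Y) :
    SepAt e X Y := by
  obtain ⟨τ, hτ, hτ0, hdis⟩ := distortion ht0 hd he h0 hl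
  have hN := map_nhds_of_deriv isOpen_ball hd (mem_ball_self ht0) h0
    (ball_mem_nhds e (half_pos hτ))
  rw [he] at hN
  obtain ⟨τ1, hτ1, hsub⟩ := Metric.mem_nhds_iff.1 hN
  -- the compact set of pairs at unit scale
  set C : Set (ℂ × ℂ) := ((X ∩ closedBall e (τ / 2)) ×ˢ (Y ∩ closedBall e (τ / 2))) ∩
    {p | τ1 ≤ max (dist p.1 e) (dist p.2 e)} with hC
  have hCc : IsCompact C := by
    apply IsCompact.inter_right
    · exact ((isCompact_closedBall e _).inter_left hX).prod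
        ((isCompact_closedBall e _).inter_left hY)
    · exact isClosed_le continuous_const (by fun_prop)
  obtain ⟨c0, hc0, hc⟩ : ∃ c0 > (0 : ℝ), ∀ p ∈ C, c0 ≤ dist p.1 p.2 := by
    rcases C.eq_empty_or_nonempty with h | h
    · exact ⟨1, one_pos, by simp [h]⟩
    · obtain ⟨p, hp, hmin⟩ := hCc.exists_isMinOn h
        (f := fun p : ℂ × ℂ => dist p.1 p.2) (by fun_prop)
      refine ⟨dist p.1 p.2, dist_pos.2 fun hpp => ?_, fun q hq => hmin hq⟩
      obtain ⟨⟨⟨h1, h2⟩, h3, h4⟩, h5⟩ := hp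
      have : p.1 = e := hXY _ (closedBall_subset_ball (by linarith) h2) h1 (hpp ▸ h3)
      simp only [mem_ofPred_eq] at h5
      rw [← hpp, this] at h5
      simp at h5
      linarith
  have blow : ∀ k : ℕ, ∀ a ∈ X, ∀ b ∈ Y, a ∈ ball e (τ / 2) → b ∈ ball e (τ / 2) →
      τ1 * (1 / 4) ^ k ≤ dist a e → ∃ j : ℕ, ∃ a' b', (a', b') ∈ C ∧ a' ∈ ball e τ ∧
        b' ∈ ball e τ ∧ φ^[j] a' = a ∧ φ^[j] b' = b := by
    intro k
    induction k with
    | zero =>
      intro a ha b hb hat hbt hk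
      refine ⟨0, a, b, ⟨⟨⟨ha, ball_subset_closedBall hat⟩, hb, ball_subset_closedBall hbt⟩, ?_⟩,
        ball_subset_ball (by linarith) hat, ball_subset_ball (by linarith) hbt, rfl, rfl⟩
      simp only [pow_zero, mul_one] at hk
      exact hk.trans (le_max_left _ _)
    | succ k ih =>
      intro a ha b hb hat hbt hk
      by_cases hm : τ1 ≤ max (dist a e) (dist b e)
      · exact ⟨0, a, b, ⟨⟨⟨ha, ball_subset_closedBall hat⟩, hb, ball_subset_closedBall hbt⟩, hm⟩,
          ball_subset_ball (by linarith) hat, ball_subset_ball (by linarith) hbt, rfl, rfl⟩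
      · rw [not_le, max_lt_iff] at hm
        obtain ⟨a1, ha1, rfl⟩ := hsub (mem_ball.2 hm.1)
        obtain ⟨b1, hb1, rfl⟩ := hsub (mem_ball.2 hm.2)
        have ha2 : a1 ∈ ball e t0 := ball_subset_ball (by linarith) ha1
        have hb2 : b1 ∈ ball e t0 := ball_subset_ball (by linarith) hb1
        have := hl a1 ha2
        obtain ⟨j, a', b', h1, h2, h3, h4, h5⟩ := ih a1 (iX _ ha2 ha) b1 (iY _ hb2 hb) ha1 hb1
          (by rw [pow_succ] at hk; linarith)
        exact ⟨j + 1, a', b', h1, h2, h3, by rw [Function.iterate_succ_apply', h4],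
          by rw [Function.iterate_succ_apply', h5]⟩
  refine ⟨c0 / (4 * τ), by positivity, τ / 2, half_pos hτ, fun a ha b hb hat hbt => ?_⟩
  rcases eq_or_ne a e with rfl | hae
  · simp
  have hpos : 0 < dist a e / τ1 := div_pos (dist_pos.2 hae) hτ1
  obtain ⟨k, hk⟩ := exists_pow_lt_of_lt_one hpos (show (1 / 4 : ℝ) < 1 by norm_num)
  rw [lt_div_iff₀ hτ1] at hk
  obtain ⟨j, a', b', h1, h2, h3, h4, h5⟩ := blow k a ha b hb hat hbt (by linarith)
  have e1 := (hdis j a' h2 b' h3).1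
  have e2 := (hdis j a' h2 e (mem_ball_self hτ)).2
  rw [h4, h5] at e1
  rw [h4, Function.iterate_fixed he] at e2
  have e3 := hc _ h1
  have e4 : dist a' e ≤ τ := (mem_ball.1 h2).le
  have hP : 0 < ‖deriv φ e‖ ^ j := pow_pos (norm_pos_iff.2 h0) j
  have e5 : dist a e ≤ 2 * ‖deriv φ e‖ ^ j * τ :=
    e2.trans (mul_le_mul_of_nonneg_left e4 (by positivity))
  have e6 : ‖deriv φ e‖ ^ j / 2 * c0 ≤ dist a b :=
    (mul_le_mul_of_nonneg_left e3 (by positivity)).trans e1
  calc c0 / (4 * τ) * dist a e ≤ c0 / (4 * τ) * (2 * ‖deriv φ e‖ ^ j * τ) :=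
        mul_le_mul_of_nonneg_left e5 (by positivity)
    _ = ‖deriv φ e‖ ^ j / 2 * c0 := by field_simp; ring
    _ ≤ _ := e6

end Pool.Agent.H684Z.QS
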