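import Pool.Agent.H684Z.QS.LogVar
import Pool.Agent.H684Z.QS.Build

set_option autoImplicit false

/-!
# Small topological tools: punctured discs, sides of a compact set, invariant paths
-/

namespace Pool.Agent.H684Z.QS

open Set Metric Filter Topology unitInterval

lemma ball_diff_pathConnected (c : ℂ) {r : ℝ} (hr : 0 < r) {S : Set ℂ} (hS : S.Countable) :
    IsPathConnected (ball c r \ S) := by
  let e : OpenPartialHomeomorph ℂ ℂ := OpenPartialHomeomorph.univBall c r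
  have hsrc : e.source = univ := OpenPartialHomeomorph.univBall_source c r
  have htgt : e.target = ball c r := OpenPartialHomeomorph.univBall_target c hr
  have hinj : Function.Injective e := by
    have := e.injOn
    rwa [hsrc, injOn_univ] at this
  have hcont : Continuous e := by
    have := e.continuousOn
    rwa [hsrc, continuousOn_univ] at this
  have h1 : IsPathConnected (e ⁻¹' S)ᶜ :=
    (hS.preimage_of_injOn hinj.injOn).isPathConnected_compl_of_one_lt_rank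
      (Complex.rank_real_complex ▸ Nat.one_lt_ofNat)
  have h2 := h1.image hcont
  convert h2 using 1
  ext y
  constructor
  · rintro ⟨hy, hyS⟩
    rw [← htgt] at hy
    exact ⟨e.symm y, by simpa [e.right_inv hy] using hyS, e.right_inv hy⟩
  · rintro ⟨x, hx, rfl⟩
    exact ⟨htgt ▸ e.map_source (hsrc ▸ mem_univ x), hx⟩

lemma preconnected_diff {U S : Set ℂ} (hU : IsOpen U) (hc : IsPreconnected U)
    (hS : S.Countable) : IsPreconnected (U \ S) := by
  rw [isPreconnected_iff_subset_of_disjoint]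
  intro u v hu hv hs huv
  have hdense : Dense Sᶜ := hS.dense_compl ℝ
  have op : ∀ w : Set ℂ, IsOpen {x | ∀ᶠ y in 𝓝 x, y ∈ U ∧ (y ∉ S → y ∈ w)} :=
    fun w => isOpen_setOfPred_eventually_nhds
  have hcov : U ⊆ {x | ∀ᶠ y in 𝓝 x, y ∈ U ∧ (y ∉ S → y ∈ u)} ∪
      {x | ∀ᶠ y in 𝓝 x, y ∈ U ∧ (y ∉ S → y ∈ v)} := by
    intro x hx
    obtain ⟨t, ht, hb⟩ := Metric.isOpen_iff.1 hU x hx
    have hp := (ball_diff_pathConnected x ht hS).isConnected.isPreconnected
    rw [isPreconnected_iff_subset_of_disjoint] at hp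
    have hsub : ball x t \ S ⊆ U \ S := sdiff_subset_sdiff_left hb
    rcases hp u v hu hv (hsub.trans hs) (subset_eq_empty (inter_subset_inter_left _ hsub) huv)
      with h | h
    · left
      filter_upwards [ball_mem_nhds x ht] with y hy using ⟨hb hy, fun h' => h ⟨hy, h'⟩⟩
    · right
      filter_upwards [ball_mem_nhds x ht] with y hy using ⟨hb hy, fun h' => h ⟨hy, h'⟩⟩
  have hdis : Disjoint {x | ∀ᶠ y in 𝓝 x, y ∈ U ∧ (y ∉ S → y ∈ u)}
      {x | ∀ᶠ y in 𝓝 x, y ∈ U ∧ (y ∉ S → y ∈ v)} := by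
    rw [Set.disjoint_left]
    intro x h1 h2
    obtain ⟨y, ⟨h3, h4⟩, h5⟩ := hdense.inter_nhds_nonempty (Filter.Eventually.and h1 h2) |>.imp
      fun y (h : y ∈ Sᶜ ∧ _) => And.intro h.2 h.1
    have : y ∈ U \ S ∩ (u ∩ v) := ⟨⟨h3.1, h5⟩, h3.2 h5, h4.2 h5⟩
    rw [huv] at this
    exact this
  rcases hc.subset_or_subset (op u) (op v) hdis hcov with h | h
  · left
    exact fun x hx => (Filter.Eventually.self_of_nhds (h hx.1)).2 hx.2
  · right
    exact fun x hx => (Filter.Eventually.self_of_nhds (h hx.1)).2 hx.2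

/-- a union of components of the complement of `J` -/
structure Side (J Ω : Set ℂ) : Prop where
  op : IsOpen Ω
  dis : ∀ x ∈ Ω, x ∉ J
  cl : ∀ x ∈ closure Ω, x ∉ J → x ∈ Ω

lemma Side.sub {J Ω S : Set ℂ} (h : Side J Ω) (hS : IsPreconnected S) (hJ : ∀ x ∈ S, x ∉ J)
    {a : ℂ} (ha : a ∈ S) (haΩ : a ∈ Ω) : S ⊆ Ω :=
  hS.subset_of_closure_inter_subset h.op ⟨a, ha, haΩ⟩ fun x hx => h.cl x hx.1 (hJ x hx.2)

lemma Side.path {J Ω : Set ℂ} (h : Side J Ω) {γ : I → ℂ} (hγ : Continuous γ)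
    (hJ : ∀ t, γ t ∉ J) {s : I} (hs : γ s ∈ Ω) (t : I) : γ t ∈ Ω :=
  h.sub (isPreconnected_range hγ) (by rintro _ ⟨t, rfl⟩; exact hJ t) ⟨s, rfl⟩ hs ⟨t, rfl⟩

lemma Good.exists_fixed {J : Set ℂ} {z : ℂ} {r : ℝ} {θ G : ℂ → ℂ} (h : Good J z r θ G)
    (hr : 0 < r) (hJ : IsClosed J) (hz : z ∈ J) : ∃ e ∈ ball z r, θ e = e ∧ e ∈ J := by
  have hsub : closedBall z (r / 2) ⊆ ball z r := closedBall_subset_ball (half_lt_self hr)
  let X : Set ℂ := closedBall z (r / 2) ∩ J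
  have hX : IsClosed X := isClosed_closedBall.inter hJ
  have : CompleteSpace X := hX.completeSpace_coe
  have : Nonempty X := ⟨⟨z, mem_closedBall_self (by positivity), hz⟩⟩
  let T : X → X := fun x => ⟨θ x, ball_subset_closedBall (h.maps (hsub x.2.1)),
    (h.mem_iff (hsub x.2.1)).2 x.2.2⟩
  have hT : ContractingWith (1 / 4) T := by
    refine ⟨by norm_num, LipschitzWith.of_dist_le_mul fun x y => ?_⟩
    have := h.lip x (hsub x.2.1) y (hsub y.2.1)
    change dist (θ x) (θ y) ≤ _ * dist (x : ℂ) y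
    push_cast
    linarith
  have hf := hT.fixedPoint_isFixedPt
  exact ⟨_, hsub (hT.fixedPoint T).2.1, congrArg Subtype.val hf, (hT.fixedPoint T).2.2⟩

/-- properties of an invariant path landing at a fixed point -/
structure InvP (z : ℂ) (r : ℝ) (Ω : Set ℂ) (θ : ℂ → ℂ) (e : ℂ) (α p : I → ℂ) : Prop where
  mem : ∀ t, α t ∈ ball z r
  side : ∀ t, α t ∈ Ω ∨ α t = e
  add : ∀ y, (∀ t, p t ≠ y) → (∀ t, θ (α t) ≠ y) → L α y = L p y + L (fun t => θ (α t)) y

lemma exists_invP {J Ω : Set ℂ} {z : ℂ} {r : ℝ} {θ G : ℂ → ℂ} (h : Good J z r θ G)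
    (hΩ : Side J Ω) {a e : ℂ} (he : e ∈ ball z r) (hfe : θ e = e) (p : Path a (θ a))
    (hp : ∀ t, p t ∈ Ω ∧ p t ∈ ball z (r / 2)) : ∃ α : Path a e, InvP z r Ω θ e α p := by
  have hr : 0 < r := nonempty_ball.1 ⟨e, he⟩
  have hsub : closedBall z (r / 2) ⊆ ball z r := closedBall_subset_ball (half_lt_self hr)
  have ha : a ∈ closedBall z (r / 2) := ball_subset_closedBall (by simpa using (hp 0).2)
  have he' : e ∈ closedBall z (r / 2) := ball_subset_closedBall (hfe ▸ h.maps he)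
  let X : Set C(I, ℂ) := {γ | γ 0 = a ∧ γ 1 = e ∧ ∀ t, γ t ∈ closedBall z (r / 2)}
  have hX : IsClosed X := by
    have e1 : ∀ t : I, Continuous (fun γ : C(I, ℂ) => γ t) := fun t => continuous_eval_const t
    refine (isClosed_eq (e1 0) continuous_const).inter
      ((isClosed_eq (e1 1) continuous_const).inter ?_)
    have e2 : IsClosed (⋂ t : I, (fun γ : C(I, ℂ) => γ t) ⁻¹' closedBall z (r / 2)) :=
      isClosed_iInter fun t => isClosed_closedBall.preimage (e1 t)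
    convert e2 using 1
    ext γ
    simp only [mem_iInter, mem_preimage]
    rfl
  have : CompleteSpace X := hX.completeSpace_coe
  have : Nonempty X := by
    obtain ⟨γ, hγ⟩ := (convex_closedBall z (r / 2)).isPathConnected ⟨a, ha⟩ |>.joinedIn a ha e he'
    exact ⟨⟨γ.toContinuousMap, γ.source, γ.target, hγ⟩⟩
  let P : X → Path a e := fun γ => ⟨γ.1, γ.2.1, γ.2.2.1⟩
  have hc : ∀ γ : X, ContinuousOn θ (range (P γ)) := fun γ =>
    h.hd.continuousOn.mono (by rintro _ ⟨t, rfl⟩; exact hsub (γ.2.2.2 t))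
  let Q : X → Path (θ a) e := fun γ => ((P γ).map' (hc γ)).cast rfl hfe.symm
  have hQ : ∀ γ t, Q γ t = θ (γ.1 t) := fun γ t => rfl
  let T : X → X := fun γ => ⟨(p.trans (Q γ)).toContinuousMap, (p.trans (Q γ)).source,
    (p.trans (Q γ)).target, fun t => by
      change p.trans (Q γ) t ∈ _
      rw [Path.trans_apply]
      split_ifs
      · exact ball_subset_closedBall (hp _).2
      · exact ball_subset_closedBall (h.maps (hsub (γ.2.2.2 _)))⟩
  have hT : ContractingWith (1 / 4) T := by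
    refine ⟨by norm_num, LipschitzWith.of_dist_le_mul fun γ γ' => ?_⟩
    change dist (T γ).1 (T γ').1 ≤ _ * dist γ.1 γ'.1
    rw [ContinuousMap.dist_le (by positivity)]
    intro t
    change dist (p.trans (Q γ) t) (p.trans (Q γ') t) ≤ _
    rw [Path.trans_apply, Path.trans_apply]
    split_ifs
    · rw [dist_self]; positivity
    · rw [hQ, hQ]
      refine (h.lip _ (hsub (γ.2.2.2 _)) _ (hsub (γ'.2.2.2 _))).trans ?_
      have : ∀ s, dist (γ.1 s) (γ'.1 s) / 4 ≤ ((1 / 4 : NNReal) : ℝ) * dist γ.1 γ'.1 := by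
        intro s
        have := ContinuousMap.dist_apply_le_dist (f := γ.1) (g := γ'.1) s
        push_cast
        linarith
      exact this _
  set γ := hT.fixedPoint T
  have hf : ∀ t, γ.1 t = p.trans (Q γ) t := fun t =>
    (congrArg (fun w : X => w.1 t) hT.fixedPoint_isFixedPt).symm
  have hnJ : ∀ n : ℕ, ∀ t : I, (t : ℝ) ≤ 1 - (1 / 2) ^ n → γ.1 t ∉ J := by
    intro n
    induction n with
    | zero =>
      intro t ht
      have : t = 0 := Subtype.ext (le_antisymm (by simpa using ht) t.2.1)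
      rw [this, γ.2.1]
      exact hΩ.dis _ (by simpa using (hp 0).1)
    | succ n ih =>
      intro t ht
      rw [hf, Path.trans_apply]
      split_ifs
      · exact hΩ.dis _ (hp _).1
      · rw [hQ, h.mem_iff (hsub (γ.2.2.2 _))]
        apply ih
        rw [pow_succ] at ht
        change 2 * (t : ℝ) - 1 ≤ _
        linarith
  refine ⟨P γ, fun t => hsub (γ.2.2.2 t), fun t => ?_, fun y h1 h2 => ?_⟩
  · rcases eq_or_ne t 1 with rfl | ht
    · exact Or.inr γ.2.2.1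
    · left
      have ht1 : 0 < 1 - (t : ℝ) := sub_pos.2 (lt_of_le_of_ne t.2.2 fun h' => ht (Subtype.ext h'))
      obtain ⟨n, hn⟩ := exists_pow_lt_of_lt_one ht1 (show (1 / 2 : ℝ) < 1 by norm_num)
      refine hΩ.sub (S := γ.1 '' Icc 0 t) (isPreconnected_Icc.image _ γ.1.continuous.continuousOn)
        ?_ ⟨0, ⟨le_rfl, t.2.1⟩, rfl⟩ ?_ ⟨t, ⟨t.2.1, le_rfl⟩, rfl⟩
      · rintro _ ⟨s, hs, rfl⟩
        apply hnJ n
        have : (s : ℝ) ≤ t := hs.2
        linarith
      · rw [γ.2.1]; simpa using (hp 0).1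
  · have := L_trans p (Q γ) h1 h2
    have e1 : (P γ : I → ℂ) = p.trans (Q γ) := funext hf
    rw [← e1] at this
    exact this

/-- a fundamental path whose forward images stay away from `J` -/
def FundP (J : Set ℂ) (z : ℂ) (r : ℝ) (Ω : Set ℂ) (δ : ℝ) (θ : ℂ → ℂ) (p : I → ℂ) : Prop :=
  ∀ t, p t ∈ Ω ∧ p t ∈ ball z (r / 2) ∧ ∀ x ∈ ball z r, θ x = p t → δ ≤ infDist x J

lemma FundP.mono {J Ω : Set ℂ} {z : ℂ} {r δ δ' : ℝ} {θ : ℂ → ℂ} {p : I → ℂ}
    (h : FundP J z r Ω δ θ p) (hδ : δ' ≤ δ) : FundP J z r Ω δ' θ p :=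
  fun t => ⟨(h t).1, (h t).2.1, fun x hx hxt => hδ.trans ((h t).2.2 x hx hxt)⟩

lemma exists_fundP {J Ω : Set ℂ} {z : ℂ} {r : ℝ} {θ G : ℂ → ℂ} (h : Good J z r θ G)
    (hr : 0 < r) (hJ : IsClosed J) (hne : J.Nonempty) (hΩ : Side J Ω) {a : ℂ}
    (hj : JoinedIn (Ω ∩ ball z (r / 2)) a (θ a)) :
    ∃ δ > (0 : ℝ), ∃ p : Path a (θ a), FundP J z r Ω δ θ p := by
  obtain ⟨p, hp⟩ := hj
  obtain ⟨s, -, hs⟩ := isCompact_univ.exists_isMinOn univ_nonempty
    (f := fun t => infDist (p t) J) ((continuous_infDist_pt J).comp p.continuous).continuousOn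
  have hpos : 0 < infDist (p s) J := (hJ.notMem_iff_infDist_pos hne).1 (hΩ.dis _ (hp s).1)
  refine ⟨min r (infDist (p s) J), lt_min hr hpos, p, fun t => ⟨(hp t).1, (hp t).2, ?_⟩⟩
  intro x hx hxt
  have := h.depth (p t)
  rw [← hxt, h.inv x hx, hxt] at this
  exact (min_le_min_left r (hs (mem_univ t))).trans this

lemma FundP.cont {J Ω : Set ℂ} {z : ℂ} {r δ : ℝ} {θ G θ' : ℂ → ℂ} (h : Good J z r θ G)
    {a b : ℂ} {p : Path a b} (hp : FundP J z r Ω δ θ' p) : ContinuousOn θ (range p) := by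
  refine h.hd.continuousOn.mono ?_
  rintro _ ⟨t, rfl⟩
  have := (hp t).2.1
  exact ball_subset_ball (by linarith [nonempty_ball.1 ⟨_, this⟩]) this

lemma FundP.ball {J Ω : Set ℂ} {z : ℂ} {r δ : ℝ} {θ : ℂ → ℂ} {p : I → ℂ}
    (hp : FundP J z r Ω δ θ p) (t : I) : p t ∈ ball z r := by
  have := (hp t).2.1
  exact ball_subset_ball (by linarith [nonempty_ball.1 ⟨_, this⟩]) this

lemma FundP.comp {J Ω : Set ℂ} {z : ℂ} {r δ : ℝ} {θ G θ' G' : ℂ → ℂ} (h : Good J z r θ G)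
    (h' : Good J z r θ' G') (hΩ : Side J Ω) (hδ : δ ≤ r) {a : ℂ} {q : Path a (θ a)}
    {p : Path a (θ' a)} (hq : FundP J z r Ω δ θ q) (hp : FundP J z r Ω δ θ' p) :
    FundP J z r Ω δ (fun x => θ (θ' x)) (q.trans (p.map' (FundP.cont h hp))) := by
  intro t
  rw [Path.trans_apply]
  split_ifs
  · refine ⟨(hq _).1, (hq _).2.1, fun x hx hxt => ?_⟩
    have h1 := (hq _).2.2 _ (h'.maps' hx) hxt
    have h2 := h'.depth (θ' x)
    rw [h'.inv x hx] at h2
    exact (le_min hδ h1).trans h2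
  · refine ⟨?_, h.maps (hp.ball _), fun x hx hxt => ?_⟩
    · refine hΩ.path (γ := p.map' (FundP.cont h hp)) (Path.continuous _) (fun t => ?_) (s := 0)
        ?_ _
      · exact fun hJ => hΩ.dis _ (hp t).1 ((h.mem_iff (hp.ball t)).1 hJ)
      · simpa using (hq 1).1
    · exact (hp _).2.2 x hx (h.inj (h'.maps' hx) (hp.ball _) hxt)

lemma FundP.iter {J Ω : Set ℂ} {z : ℂ} {r δ : ℝ} {θ G : ℂ → ℂ} (h : Good J z r θ G)
    (hΩ : Side J Ω) (hδ : δ ≤ r) {a : ℂ} {p : Path a (θ a)} (hp : FundP J z r Ω δ θ p) (n : ℕ) :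
    ∃ q : Path a (θ^[n + 1] a), FundP J z r Ω δ (θ^[n + 1]) q := by
  induction n with
  | zero => exact ⟨p, hp⟩
  | succ n ih =>
    obtain ⟨q, hq⟩ := ih
    exact ⟨_, FundP.comp (h.iter n) h hΩ hδ hq hp⟩

end Pool.Agent.H684Z.QS
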