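import Pool.Agent.H684Z.QS.Topo

set_option autoImplicit false

/-!
# Side functions at two fixed points, by winding parity
-/

namespace Pool.Agent.H684Z.QS

open Set Metric Filter Topology unitInterval Complex

/-- logarithmic winding of the closed curve made of three arcs -/
noncomputable def wfun (α β ς : I → ℂ) (x : ℂ) : ℂ := L α x - L β x - L ς x

lemma side_inv {J U B D : Set ℂ} {z : ℂ} {r δ : ℝ} {θ G : ℂ → ℂ} (h : Good J z r θ G)
    (hU : Side J U) (hB : Side J B) {u b e : ℂ} (he : e ∈ ball z r) (hfe : θ e = e)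
    {α : Path u e} {β : Path b e} {ς : Path u b} {p : Path u (θ u)} {q : Path b (θ b)}
    (hp : FundP J z r U δ θ p) (hq : FundP J z r B δ θ q) (hα : InvP z r U θ e α p)
    (hβ : InvP z r B θ e β q) (hς : ∀ t, ς t ∈ ball z r) (hD : IsPreconnected D)
    (hDb : D ⊆ ball z r) (hDς : ∀ t, ς t ∉ D) (hθD : MapsTo θ D D)
    (hDδ : ∀ x ∈ D, infDist x J < δ) :
    (∀ x ∈ D, x ∈ J → x ≠ e → exp (wfun α β ς x / 2) ^ 2 = 1) ∧
    ContinuousOn (fun x => exp (wfun α β ς x / 2)) {x | x ∈ D ∧ x ∈ J ∧ x ≠ e} ∧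
    ∀ x ∈ D, x ∈ J → x ≠ e → exp (wfun α β ς (θ (θ x)) / 2) = exp (wfun α β ς x / 2) := by
  have nα : ∀ x ∈ J, x ≠ e → ∀ t, α t ≠ x := by
    rintro x hx hne t rfl
    rcases hα.side t with h1 | h1
    · exact hU.dis _ h1 hx
    · exact hne h1
  have nβ : ∀ x ∈ J, x ≠ e → ∀ t, β t ≠ x := by
    rintro x hx hne t rfl
    rcases hβ.side t with h1 | h1
    · exact hB.dis _ h1 hx
    · exact hne h1
  have nς : ∀ x ∈ D, ∀ t, ς t ≠ x := by
    rintro x hx t rfl
    exact hDς t hx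
  have np : ∀ x ∈ D, ∀ t, p t ≠ θ x := fun x hx t h1 =>
    absurd ((hp t).2.2 x (hDb hx) h1.symm) (not_le.2 (hDδ x hx))
  have nq : ∀ x ∈ D, ∀ t, q t ≠ θ x := fun x hx t h1 =>
    absurd ((hq t).2.2 x (hDb hx) h1.symm) (not_le.2 (hDδ x hx))
  have nθ : ∀ γ : I → ℂ, (∀ t, γ t ∈ ball z r) → ∀ x ∈ D, (∀ t, γ t ≠ x) →
      ∀ t, θ (γ t) ≠ θ x := fun γ hγ x hx hn t h1 => hn t (h.inj (hγ t) (hDb hx) h1)
  have cς : Continuous (fun t => θ (ς t)) := h.hd.continuousOn.comp_continuous ς.continuous hς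
  refine ⟨fun x hx hJ hne => ?_, ?_, ?_⟩
  · have h1 : u - x ≠ 0 := sub_ne_zero.2 (by simpa using nς x hx 0)
    have h2 : b - x ≠ 0 := sub_ne_zero.2 (by simpa using nς x hx 1)
    have h3 : e - x ≠ 0 := sub_ne_zero.2 hne.symm
    rw [← exp_nat_mul, show ((2 : ℕ) : ℂ) * (wfun α β ς x / 2) = wfun α β ς x by push_cast; ring,
      wfun, exp_sub, exp_sub, exp_L α.continuous (nα x hJ hne), exp_L β.continuous (nβ x hJ hne),
      exp_L ς.continuous (nς x hx)]
    simp only [Path.source, Path.target]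
    field_simp
  · refine continuous_exp.comp_continuousOn (ContinuousOn.div_const ?_ _)
    refine ContinuousOn.sub (ContinuousOn.sub ?_ ?_) ?_
    · exact (L_continuousOn α.continuous).mono fun x hx => nα x hx.2.1 hx.2.2
    · exact (L_continuousOn β.continuous).mono fun x hx => nβ x hx.2.1 hx.2.2
    · exact (L_continuousOn ς.continuous).mono fun x hx => nς x hx.1
  · set κ : ℂ → ℂ := fun x =>
      L (fun t => θ (ς t)) (θ x) + L p (θ x) - L q (θ x) - L ς (θ x) with hκ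
    have cθ : ContinuousOn θ D := h.hd.continuousOn.mono hDb
    have cκ : ContinuousOn κ D := by
      refine ContinuousOn.sub (ContinuousOn.sub (ContinuousOn.add ?_ ?_) ?_) ?_
      · exact (L_continuousOn cς).comp cθ fun x hx => nθ ς hς x hx (nς x hx)
      · exact (L_continuousOn p.continuous).comp cθ fun x hx => np x hx
      · exact (L_continuousOn q.continuous).comp cθ fun x hx => nq x hx
      · exact (L_continuousOn ς.continuous).comp cθ fun x hx => nς _ (hθD hx)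
    have eκ : ∀ x ∈ D, exp (κ x) = 1 := by
      intro x hx
      have h1 : u - θ x ≠ 0 := sub_ne_zero.2 (by simpa using np x hx 0)
      have h2 : b - θ x ≠ 0 := sub_ne_zero.2 (by simpa using nq x hx 0)
      have h3 : θ u - θ x ≠ 0 := sub_ne_zero.2 (by simpa using np x hx 1)
      have h4 : θ b - θ x ≠ 0 := sub_ne_zero.2 (by simpa using nq x hx 1)
      simp only [hκ]
      rw [exp_sub, exp_sub, exp_add, exp_L cς (nθ ς hς x hx (nς x hx)),
        exp_L p.continuous (np x hx), exp_L q.continuous (nq x hx),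
        exp_L ς.continuous (nς _ (hθD hx))]
      simp only [Path.source, Path.target]
      field_simp
    have step : ∀ x ∈ D, x ∈ J → x ≠ e → wfun α β ς (θ x) = wfun α β ς x + κ x := by
      intro x hx hJ hne
      obtain ⟨μ, hμ⟩ := L_map h.hd h.inj (fun y hy => h.deriv_ne hy) (hDb hx)
      have a1 := hα.add _ (np x hx) (nθ α hα.mem x hx (nα x hJ hne))
      have a2 := hβ.add _ (nq x hx) (nθ β hβ.mem x hx (nβ x hJ hne))
      have b1 := hμ α α.continuous hα.mem (nα x hJ hne)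
      have b2 := hμ β β.continuous hβ.mem (nβ x hJ hne)
      have b3 := hμ ς ς.continuous hς (nς x hx)
      simp only [Path.source, Path.target] at b1 b2 b3
      simp only [wfun, hκ]
      rw [a1, a2, b1, b2, b3]
      ring
    intro x hx hJ hne
    have hJ' : θ x ∈ J := (h.mem_iff (hDb hx)).2 hJ
    have hne' : θ x ≠ e := fun h1 => hne (h.inj (hDb hx) he (h1.trans hfe.symm))
    rw [step _ (hθD hx) hJ' hne', step x hx hJ hne,
      const_of_exp_const hD cκ eκ (hθD hx) hx,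
      show (wfun α β ς x + κ x + κ x) / 2 = wfun α β ς x / 2 + κ x by ring, exp_add, eκ x hx,
      mul_one]

lemma side_pair {J Ω : Set ℂ} {z : ℂ} {r δ ε : ℝ} {Φ F χ H : ℂ → ℂ} (h : Good J z r Φ F)
    (h' : Good J z r χ H) (hΩ : Side J Ω) (hδ : δ ≤ r) {a e f : ℂ} (he : e ∈ ball z r)
    (hfe : Φ e = e) (hf : f ∈ ball z r) (hff : Φ (χ f) = f)
    (hε : ∀ x ∈ ball z r, Φ x ∈ ball e ε) {q : Path a (Φ a)} {p : Path a (χ a)}
    (hq : FundP J z r Ω δ Φ q) (hp : FundP J z r Ω δ χ p) :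
    ∃ (α₁ : Path a e) (α₂ : Path a f) (P : Path a (Φ (χ a))),
      FundP J z r Ω δ (fun x => Φ (χ x)) P ∧ InvP z r Ω Φ e α₁ q ∧
      InvP z r Ω (fun x => Φ (χ x)) f α₂ P ∧
      ∀ x, ε ≤ dist x e → x ∉ Ω → L α₂ x = L α₁ x + log ((f - x) / (e - x)) := by
  have hP := FundP.comp h h' hΩ hδ hq hp
  obtain ⟨α₁, h1⟩ := exists_invP h hΩ he hfe q (fun t => ⟨(hq t).1, (hq t).2.1⟩)
  obtain ⟨α₂, h2⟩ := exists_invP (h.comp h') hΩ hf hff _ (fun t => ⟨(hP t).1, (hP t).2.1⟩)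
  refine ⟨α₁, α₂, _, hP, h1, h2, fun x hx hxΩ => ?_⟩
  have near : ∀ y ∈ ball z r, ‖Φ y - e‖ < ‖e - x‖ := by
    intro y hy
    have := mem_ball_iff_norm.1 (hε y hy)
    rw [dist_comm, dist_eq_norm] at hx
    linarith
  have ne : ∀ y ∈ ball z r, Φ y ≠ x := by
    rintro y hy rfl
    have := near y hy
    rw [norm_sub_rev] at this
    exact lt_irrefl _ this
  have nq : ∀ t, q t ≠ x := by
    rintro t rfl
    exact hxΩ (hq t).1
  have nP : ∀ t, q.trans (p.map' (FundP.cont h hp)) t ≠ x := by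
    rintro t rfl
    exact hxΩ (hP t).1
  have hex : e - x ≠ 0 := norm_pos_iff.1 ((norm_nonneg _).trans_lt (near e he))
  have a1 := h1.add x nq (fun t => ne _ (h1.mem t))
  have a2 := h2.add x nP (fun t => ne _ (h'.maps' (h2.mem t)))
  have a3 := L_trans q (p.map' (FundP.cont h hp)) nq (fun t => ne _ (hp.ball t))
  have b1 := L_near (γ := fun t => Φ (α₁ t))
    (h.hd.continuousOn.comp_continuous α₁.continuous h1.mem) (fun t => near _ (h1.mem t))
  have b2 := L_near (γ := fun t => Φ (χ (α₂ t)))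
    ((h.comp h').hd.continuousOn.comp_continuous α₂.continuous h2.mem)
    (fun t => near _ (h'.maps' (h2.mem t)))
  have b3 := L_near (γ := p.map' (FundP.cont h hp)) (Path.continuous _)
    (fun t => near _ (hp.ball t))
  simp only [Path.source, Path.target, hfe, hff, div_self hex, log_one] at b1 b2 b3
  rw [a2, a3, a1, b1, b2, b3]
  ring

lemma loc_const {S : Set ℂ} {s : ℂ → ℂ} (hc : ContinuousOn s S) (h2 : ∀ x ∈ S, s x ^ 2 = 1)
    {x : ℂ} (hx : x ∈ S) : ∀ᶠ y in 𝓝 x, y ∈ S → s y = s x := by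
  have h1 : ∀ᶠ y in 𝓝[S] x, dist (s y) (s x) < 1 :=
    (hc x hx).eventually (ball_mem_nhds _ one_pos)
  rw [eventually_nhdsWithin_iff] at h1
  filter_upwards [h1] with y hy hyS
  have h3 := hy hyS
  rcases sq_eq_sq_iff_eq_or_eq_neg.1 ((h2 y hyS).trans (h2 x hx).symm) with h4 | h4
  · exact h4
  · exfalso
    have h5 : ‖s x‖ = 1 := by
      have := congrArg norm (h2 x hx)
      rw [norm_pow, norm_one] at this
      exact (pow_eq_one_iff_of_nonneg (norm_nonneg _) two_ne_zero).1 this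
    rw [h4, dist_eq_norm, show -s x - s x = -2 * s x by ring, norm_mul, h5] at h3
    norm_num at h3

/-- abstract assembly of the piece from two side functions -/
lemma cfg_of_sides {J : Set ℂ} {z : ℂ} {r t ε : ℝ} {φ F ψ G : ℂ → ℂ} (cJ : IsCompact J)
    (gφ : Good J z r φ F) (gψ : Good J z r ψ G) {e f : ℂ} (hfe : φ e = e) (hff : ψ f = f)
    (heJ : e ∈ J) (hfJ : f ∈ J) (hef : e ≠ f) (hεt : ε < t) (hfε : f ∈ ball e ε)
    (hD : ball e t ⊆ ball z r) (mφ : MapsTo φ (ball e t) (ball e t))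
    (mψ : MapsTo ψ (ball e t) (ball e t)) {s₁ s₂ : ℂ → ℂ}
    (q1 : ∀ x ∈ ball e t, x ∈ J → x ≠ e → s₁ x ^ 2 = 1)
    (c1 : ContinuousOn s₁ {x | x ∈ ball e t ∧ x ∈ J ∧ x ≠ e})
    (i1 : ∀ x ∈ ball e t, x ∈ J → x ≠ e → s₁ (φ x) = s₁ x)
    (q2 : ∀ x ∈ ball e t, x ∈ J → x ≠ f → s₂ x ^ 2 = 1)
    (c2 : ContinuousOn s₂ {x | x ∈ ball e t ∧ x ∈ J ∧ x ≠ f})
    (i2 : ∀ x ∈ ball e t, x ∈ J → x ≠ f → s₂ (ψ x) = s₂ x)
    (hout : ∀ x ∈ ball e t, x ∈ J → ε ≤ dist x e → s₁ x = s₂ x)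
    (hpar : s₁ f * s₂ e = -1) : {g : J ≃ₜ J | BL g}.Infinite := by
  have hε : 0 < ε := nonempty_ball.1 ⟨f, hfε⟩
  have heD : e ∈ ball e t := mem_ball_self (hε.trans hεt)
  have hfD : f ∈ ball e t := ball_subset_ball hεt.le hfε
  have lc1 : ∀ x ∈ ball e t, x ∈ J → x ≠ e →
      ∀ᶠ y in 𝓝 x, y ∈ ball e t ∧ y ≠ e ∧ (y ∈ J → s₁ y = s₁ x) := by
    intro x hx hJ hne
    filter_upwards [loc_const c1 (fun y hy => q1 y hy.1 hy.2.1 hy.2.2) ⟨hx, hJ, hne⟩,
      isOpen_ball.mem_nhds hx, isOpen_compl_singleton.mem_nhds hne] with y h1 h2 h3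
    exact ⟨h2, h3, fun h4 => h1 ⟨h2, h4, h3⟩⟩
  have lc2 : ∀ x ∈ ball e t, x ∈ J → x ≠ f →
      ∀ᶠ y in 𝓝 x, y ∈ ball e t ∧ y ≠ f ∧ (y ∈ J → s₂ y = s₂ x) := by
    intro x hx hJ hne
    filter_upwards [loc_const c2 (fun y hy => q2 y hy.1 hy.2.1 hy.2.2) ⟨hx, hJ, hne⟩,
      isOpen_ball.mem_nhds hx, isOpen_compl_singleton.mem_nhds hne] with y h1 h2 h3
    exact ⟨h2, h3, fun h4 => h1 ⟨h2, h4, h3⟩⟩
  obtain ⟨η1, hη1, k1⟩ := Metric.eventually_nhds_iff_ball.1 (lc1 f hfD hfJ hef.symm)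
  obtain ⟨η2, hη2, k2⟩ := Metric.eventually_nhds_iff_ball.1 (lc2 e heD heJ hef)
  have hd : 0 < dist e f := dist_pos.2 hef
  set η := min (min η1 η2) (dist e f / 2) with hη
  have hηp : 0 < η := by positivity
  have l1 : η ≤ η1 := (min_le_left _ _).trans (min_le_left _ _)
  have l2 : η ≤ η2 := (min_le_left _ _).trans (min_le_right _ _)
  have l3 : η ≤ dist e f / 2 := min_le_right _ _
  have hr : 0 < r := nonempty_ball.1 ⟨e, hD heD⟩
  obtain ⟨n, hn⟩ := exists_pow_lt_of_lt_one (show 0 < η / (2 * r) by positivity)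
    (show (1 / 4 : ℝ) < 1 by norm_num)
  have small : ∀ {θ G' : ℂ → ℂ}, Good J z r θ G' → ∀ c ∈ ball z r, θ c = c → ∀ x ∈ ball z r,
      θ^[n + 1] x ∈ ball c η := by
    intro θ G' g c hc hfix x hx
    have h1 := g.iter_dist (n + 1) hx hc
    rw [Function.iterate_fixed hfix] at h1
    have h2 : dist x c ≤ 2 * r := by
      have := dist_triangle_right x c z
      rw [mem_ball] at hx hc
      linarith
    rw [lt_div_iff₀ (by positivity)] at hn
    have h3 : (0 : ℝ) < (1 / 4) ^ n := by positivity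
    rw [mem_ball]
    rw [pow_succ] at h1
    nlinarith [dist_nonneg (x := x) (y := c)]
  have it1 : ∀ m : ℕ, ∀ x ∈ ball e t, x ∈ J → x ≠ e →
      φ^[m] x ∈ J ∧ φ^[m] x ≠ e ∧ s₁ (φ^[m] x) = s₁ x := by
    intro m x hx hJ hne
    induction m with
    | zero => exact ⟨hJ, hne, rfl⟩
    | succ m ih =>
      have h1 := mφ.iterate m hx
      rw [Function.iterate_succ_apply']
      exact ⟨(gφ.mem_iff (hD h1)).2 ih.1,
        fun h2 => ih.2.1 (gφ.inj (hD h1) (hD heD) (h2.trans hfe.symm)),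
        (i1 _ h1 ih.1 ih.2.1).trans ih.2.2⟩
  have it2 : ∀ m : ℕ, ∀ x ∈ ball e t, x ∈ J → x ≠ f →
      ψ^[m] x ∈ J ∧ ψ^[m] x ≠ f ∧ s₂ (ψ^[m] x) = s₂ x := by
    intro m x hx hJ hne
    induction m with
    | zero => exact ⟨hJ, hne, rfl⟩
    | succ m ih =>
      have h1 := mψ.iterate m hx
      rw [Function.iterate_succ_apply']
      exact ⟨(gψ.mem_iff (hD h1)).2 ih.1,
        fun h2 => ih.2.1 (gψ.inj (hD h1) (hD hfD) (h2.trans hff.symm)),
        (i2 _ h1 ih.1 ih.2.1).trans ih.2.2⟩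
  set A : Set ℂ := {x | x ∈ J ∧ x ∈ ball e t ∧ (x = e ∨ s₁ x = s₁ f) ∧ (x = f ∨ s₂ x = s₂ e)}
    with hA
  have Aε : A ⊆ closedBall e ε := by
    rintro x ⟨hJ, hx, h1, h2⟩
    by_contra hc
    rw [mem_closedBall, not_le] at hc
    have h3 : x ≠ e := by rintro rfl; simp at hc; linarith
    have h4 : x ≠ f := by rintro rfl; rw [mem_ball] at hfε; linarith
    have h5 := hout x hx hJ hc.le
    have h6 := q1 x hx hJ h3
    rw [← h1.resolve_left h3, ← h2.resolve_left h4, ← h5, ← sq, h6] at hpar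
    norm_num at hpar
  have Acl : IsClosed A := by
    apply isClosed_of_closure_subset
    intro x hx
    have hJ : x ∈ J := closure_minimal (fun y hy => hy.1) cJ.isClosed hx
    have hxD : x ∈ ball e t :=
      closedBall_subset_ball hεt (closure_minimal Aε isClosed_closedBall hx)
    refine ⟨hJ, hxD, ?_, ?_⟩
    · refine or_iff_not_imp_left.2 fun hne => ?_
      obtain ⟨y, ⟨-, h1, h2⟩, h3, -, h4, -⟩ := mem_closure_iff_nhds.1 hx _ (lc1 x hxD hJ hne)
      rw [← h2 h3, h4.resolve_left h1]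
    · refine or_iff_not_imp_left.2 fun hne => ?_
      obtain ⟨y, ⟨-, h1, h2⟩, h3, -, -, h4⟩ := mem_closure_iff_nhds.1 hx _ (lc2 x hxD hJ hne)
      rw [← h2 h3, h4.resolve_left h1]
  have fe : φ^[n + 1] e = e := Function.iterate_fixed hfe _
  have ff : ψ^[n + 1] f = f := Function.iterate_fixed hff _
  have C : Cfg J A z r (φ^[n + 1]) (F^[n + 1]) (ψ^[n + 1]) (G^[n + 1]) e f :=
    { gφ := gφ.iter n
      gψ := gψ.iter n
      cJ := cJ
      cA := cJ.of_isClosed_subset Acl fun x hx => hx.1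
      AJ := fun x hx => hx.1
      AD := fun x hx => hD hx.2.1
      fe := fe
      ff := ff
      eA := ⟨heJ, heD, Or.inl rfl, Or.inr rfl⟩
      fA := ⟨hfJ, hfD, Or.inr rfl, Or.inl rfl⟩
      mφ := by
        rintro x ⟨hJ, hx, h1, -⟩
        have h3 := k2 _ (ball_subset_ball l2 (small gφ e (hD heD) hfe x (hD hx)))
        have h4 : φ^[n + 1] x ∈ J := ((gφ.iter n).mem_iff (hD hx)).2 hJ
        refine ⟨h4, h3.1, ?_, Or.inr (h3.2.2 h4)⟩
        by_cases hxe : x = e
        · left; rw [hxe, fe]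
        · right; rw [(it1 _ x hx hJ hxe).2.2, h1.resolve_left hxe]
      mψ := by
        rintro x ⟨hJ, hx, -, h1⟩
        have h3 := k1 _ (ball_subset_ball l1 (small gψ f (hD hfD) hff x (hD hx)))
        have h4 : ψ^[n + 1] x ∈ J := ((gψ.iter n).mem_iff (hD hx)).2 hJ
        refine ⟨h4, h3.1, Or.inr (h3.2.2 h4), ?_⟩
        by_cases hxe : x = f
        · left; rw [hxe, ff]
        · right; rw [(it2 _ x hx hJ hxe).2.2, h1.resolve_left hxe]
      dis := by
        intro x hx y hy hxy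
        have h1 := small gφ e (hD heD) hfe x (hD hx.2.1)
        have h2 := small gψ f (hD hfD) hff y (hD hy.2.1)
        rw [hxy] at h1
        have := dist_triangle_left e f (ψ^[n + 1] y)
        rw [mem_ball] at h1 h2
        linarith
      cY := by
        rw [← isOpen_compl_iff, isOpen_iff_mem_nhds]
        intro x hx
        by_cases hJ : x ∈ J
        swap
        · filter_upwards [cJ.isClosed.isOpen_compl.mem_nhds hJ] with y hy hy' using hy hy'.1
        simp only [mem_compl_iff, mem_ofPred_eq, hJ, true_and, not_or, not_not] at hx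
        obtain ⟨⟨-, hxD, h1, h2⟩, hxe, hxf⟩ := hx
        filter_upwards [lc1 x hxD hJ hxe, lc2 x hxD hJ hxf] with y h3 h4
        rintro ⟨hy, h5 | h5 | h5⟩
        · exact h5 ⟨hy, h3.1, Or.inr ((h3.2.2 hy).trans (h1.resolve_left hxe)),
            Or.inr ((h4.2.2 hy).trans (h2.resolve_left hxf))⟩
        · exact h3.2.1 h5
        · exact h4.2.1 h5
      le := by
        refine ⟨η2, hη2, fun x hx hJ hA' => ?_⟩
        have h3 := k2 x hx
        refine ⟨hJ, h3.1, ?_, Or.inr (h3.2.2 hJ)⟩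
        refine or_iff_not_imp_left.2 fun hxe => ?_
        have h4 := it1 (n + 1) x h3.1 hJ hxe
        rw [← h4.2.2, hA'.2.2.1.resolve_left h4.2.1]
      lf := by
        refine ⟨η1, hη1, fun x hx hJ hA' => ?_⟩
        have h3 := k1 x hx
        refine ⟨hJ, h3.1, Or.inr (h3.2.2 hJ), ?_⟩
        refine or_iff_not_imp_left.2 fun hxe => ?_
        have h4 := it2 (n + 1) x h3.1 hJ hxe
        rw [← h4.2.2, hA'.2.2.2.resolve_left h4.2.1] }
  exact C.infinite

theorem infinite_of_branches {J U B : Set ℂ} {z : ℂ} {r : ℝ} {φ F χ H : ℂ → ℂ}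
    (cJ : IsCompact J) (hz : z ∈ J) (hr : 0 < r) (hU : Side J U) (hB : Side J B)
    (hUB : ∀ x ∈ U, x ∉ B) (gφ : Good J z r φ F) (gχ : Good J z r χ H)
    (hne : ∀ e ∈ ball z r, φ e = e → χ e ≠ e) {u b : ℂ}
    (j1 : JoinedIn (U ∩ ball z (r / 2)) u (φ u)) (j2 : JoinedIn (U ∩ ball z (r / 2)) u (χ u))
    (j3 : JoinedIn (B ∩ ball z (r / 2)) b (φ b)) (j4 : JoinedIn (B ∩ ball z (r / 2)) b (χ b)) :
    {g : J ≃ₜ J | BL g}.Infinite := by
  have hJc := cJ.isClosed
  obtain ⟨e, he, hfe, heJ⟩ := gφ.exists_fixed hr hJc hz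
  obtain ⟨δ1, hδ1, p1, f1⟩ := exists_fundP gφ hr hJc ⟨z, hz⟩ hU j1
  obtain ⟨δ2, hδ2, p2, f2⟩ := exists_fundP gχ hr hJc ⟨z, hz⟩ hU j2
  obtain ⟨δ3, hδ3, p3, f3⟩ := exists_fundP gφ hr hJc ⟨z, hz⟩ hB j3
  obtain ⟨δ4, hδ4, p4, f4⟩ := exists_fundP gχ hr hJc ⟨z, hz⟩ hB j4
  set δ := min (min (min δ1 δ2) (min δ3 δ4)) r with hδ
  have hδp : 0 < δ := by positivity
  have hδr : δ ≤ r := min_le_right _ _
  replace f1 := f1.mono (δ' := δ) (by simp [hδ])
  replace f2 := f2.mono (δ' := δ) (by simp [hδ])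
  replace f3 := f3.mono (δ' := δ) (by simp [hδ])
  replace f4 := f4.mono (δ' := δ) (by simp [hδ])
  have huU : u ∈ U := j1.source_mem.1
  have hbB : b ∈ B := j3.source_mem.1
  have hu : u ∈ ball z r := by simpa using f1.ball 0
  have hb : b ∈ ball z r := by simpa using f3.ball 0
  obtain ⟨ς, hς⟩ := (ball_diff_pathConnected z hr (countable_singleton e)).joinedIn u
    ⟨hu, fun h => hU.dis u huU (h ▸ heJ)⟩ b ⟨hb, fun h => hB.dis b hbB (h ▸ heJ)⟩
  have hN : (range ς)ᶜ ∩ ball z r ∩ ball e δ ∈ 𝓝 e := by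
    refine inter_mem (inter_mem ?_ (isOpen_ball.mem_nhds he)) (ball_mem_nhds e hδp)
    refine (isCompact_range ς.continuous).isClosed.isOpen_compl.mem_nhds ?_
    rintro ⟨t, ht⟩
    exact (hς t).2 ht
  obtain ⟨t, ht, hsub⟩ := Metric.mem_nhds_iff.1 hN
  have hD : ball e t ⊆ ball z r := fun x hx => (hsub hx).1.2
  have hDς : ∀ s, ς s ∉ ball e t := fun s hs => (hsub hs).1.1 ⟨s, rfl⟩
  have hDδ : ∀ x ∈ ball e t, infDist x J < δ := fun x hx =>
    (infDist_le_dist_of_mem heJ).trans_lt (hsub hx).2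
  obtain ⟨m, hm⟩ := exists_pow_lt_of_lt_one (show 0 < t / 2 / (2 * r) by positivity)
    (show (1 / 4 : ℝ) < 1 by norm_num)
  have gΦ := gφ.iter m
  set Φ := φ^[m + 1] with hΦ
  have hΦe : Φ e = e := Function.iterate_fixed hfe _
  have hε : ∀ x ∈ ball z r, Φ x ∈ ball e (t / 2) := by
    intro x hx
    have h1 := gφ.iter_dist (m + 1) hx he
    rw [Function.iterate_fixed hfe] at h1
    have h2 : dist x e ≤ 2 * r := by
      have := dist_triangle_right x e z
      rw [mem_ball] at hx he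
      linarith
    rw [lt_div_iff₀ (by positivity)] at hm
    have h3 : (0 : ℝ) < (1 / 4) ^ m := by positivity
    rw [mem_ball]
    rw [pow_succ] at h1
    nlinarith [dist_nonneg (x := x) (y := e)]
  have gψ := gΦ.comp gχ
  obtain ⟨f, hf, hff, hfJ⟩ := gψ.exists_fixed hr hJc hz
  have hef : e ≠ f := by
    rintro rfl
    exact hne e he hfe (gΦ.inj (gχ.maps' he) he (hff.trans hΦe.symm))
  have hfε : f ∈ ball e (t / 2) := hff ▸ hε _ (gχ.maps' hf)
  have htt : ball e (t / 2) ⊆ ball e t := ball_subset_ball (by linarith)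
  obtain ⟨qu, hqu⟩ := FundP.iter gφ hU hδr f1 m
  obtain ⟨qb, hqb⟩ := FundP.iter gφ hB hδr f3 m
  obtain ⟨α₁, α₂, Pu, hPu, a1, a2, cu⟩ := side_pair gΦ gχ hU hδr he hΦe hf hff hε hqu f2
  obtain ⟨β₁, β₂, Pb, hPb, b1, b2, cb⟩ := side_pair gΦ gχ hB hδr he hΦe hf hff hε hqb f4
  have mΦ : MapsTo Φ (ball e t) (ball e t) := fun x hx => htt (hε x (hD hx))
  have mψ : MapsTo (fun x => Φ (χ x)) (ball e t) (ball e t) :=
    fun x hx => htt (hε _ (gχ.maps' (hD hx)))
  obtain ⟨q1, c1, i1⟩ := side_inv gΦ hU hB he hΦe hqu hqb a1 b1 (fun s => (hς s).1)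
    isPreconnected_ball hD hDς mΦ hDδ
  obtain ⟨q2, c2, i2⟩ := side_inv gψ hU hB hf hff hPu hPb a2 b2 (fun s => (hς s).1)
    isPreconnected_ball hD hDς mψ hDδ
  refine cfg_of_sides cJ (gΦ.comp gΦ) (gψ.comp gψ) (by rw [hΦe, hΦe]) (by rw [hff, hff]) heJ hfJ
    hef (half_lt_self ht) hfε hD (mΦ.comp mΦ) (mψ.comp mψ) q1 c1 i1 q2 c2 i2 ?_ ?_
  · intro x _ hJ hx
    simp only [wfun]
    rw [cu x hx (fun h => hU.dis x h hJ), cb x hx (fun h => hB.dis x h hJ)]
    congr 2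
    ring
  · have hud : t ≤ dist u e := not_lt.1 (by simpa using hDς 0)
    have hbd : t ≤ dist b e := not_lt.1 (by simpa using hDς 1)
    have dis : ∀ {x y e' f' : ℂ}, (x ∈ U ∨ x = e') → (y ∈ B ∨ y = f') → e' ∈ J → f' ∈ J →
        e' ≠ f' → x ≠ y := by
      rintro x y e' f' (h1 | h1) (h2 | h2) h3 h4 h5 rfl
      · exact hUB x h1 h2
      · exact hU.dis x h1 (h2 ▸ h4)
      · exact hB.dis x h2 (h1 ▸ h3)
      · exact h5 (h1.symm.trans h2)
    have s1 := L_square α₁.continuous β₂.continuous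
      (fun s s' => dis (a1.side s) (b2.side s') heJ hfJ hef)
    have s2 := L_square α₂.continuous β₁.continuous
      (fun s s' => dis (a2.side s) (b1.side s') hfJ heJ hef.symm)
    simp only [Path.source, Path.target] at s1 s2
    have t1 := cu b (by linarith) (fun h => hUB b h hbB)
    have t2 := cb u (by linarith) (hUB u huU)
    have nς : ∀ y ∈ ball e t, ∀ s, ς s ≠ y := by
      rintro y hy s rfl
      exact hDς s hy
    have hub : u ≠ b := fun h => hUB u huU (h ▸ hbB)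
    have nαb : ∀ s, α₁ s ≠ b := fun s => dis (a1.side s) (Or.inl hbB) heJ hfJ hef
    have nβu : ∀ s, β₁ s ≠ u := fun s => (dis (Or.inl huU) (b1.side s) hfJ heJ hef.symm).symm
    have sl : ∀ c, t ≤ dist c e → ∀ y ∈ ball e t, (y - c) / (e - c) ∈ slitPlane := by
      intro c hc y hy
      apply mem_slit_of_near
      rw [dist_comm, dist_eq_norm] at hc
      have := mem_ball_iff_norm.1 hy
      rw [show y - c - (e - c) = y - e by ring]
      linarith
    set X : ℂ → ℂ := fun y => L α₁ b + log ((y - b) / (e - b)) -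
      (L β₁ u + log ((y - u) / (e - u))) - L ς y with hX
    have cX : ContinuousOn X (ball e t) := by
      refine ContinuousOn.sub (ContinuousOn.sub (continuousOn_const.add ?_)
        (continuousOn_const.add ?_)) ((L_continuousOn ς.continuous).mono nς)
      · exact ContinuousOn.clog (by fun_prop) (sl b hbd)
      · exact ContinuousOn.clog (by fun_prop) (sl u hud)
    have eX : ∀ y ∈ ball e t, exp (X y) = -1 := by
      intro y hy
      have h1 : u - y ≠ 0 := sub_ne_zero.2 (by simpa using nς y hy 0)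
      have h2 : b - y ≠ 0 := sub_ne_zero.2 (by simpa using nς y hy 1)
      have h3 : e - u ≠ 0 := sub_ne_zero.2 (by simpa using (nς e (mem_ball_self ht) 0).symm)
      have h4 : e - b ≠ 0 := sub_ne_zero.2 (by simpa using (nς e (mem_ball_self ht) 1).symm)
      have h5 : u - b ≠ 0 := sub_ne_zero.2 hub
      have h6 : b - u ≠ 0 := sub_ne_zero.2 hub.symm
      have h7 : y - u ≠ 0 := sub_ne_zero.2 (sub_ne_zero.1 h1).symm
      simp only [hX]
      rw [exp_sub, exp_sub, exp_add, exp_add, exp_L α₁.continuous nαb, exp_L β₁.continuous nβu,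
        exp_L ς.continuous (nς y hy), exp_log (slitPlane_ne_zero (sl b hbd y hy)),
        exp_log (slitPlane_ne_zero (sl u hud y hy))]
      simp only [Path.source, Path.target]
      field_simp
      ring
    have hXef := const_of_exp_const isPreconnected_ball cX eX (mem_ball_self ht) (htt hfε)
    have hXe := eX e (mem_ball_self ht)
    have h3 : e - u ≠ 0 := sub_ne_zero.2 (by simpa using (nς e (mem_ball_self ht) 0).symm)
    have h4 : e - b ≠ 0 := sub_ne_zero.2 (by simpa using (nς e (mem_ball_self ht) 1).symm)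
    rw [← exp_add, ← hXe]
    congr 1
    simp only [hX, div_self h3, div_self h4, log_one, wfun] at hXef ⊢
    linear_combination (-1 / 2 : ℂ) * s1 + (-1 / 2 : ℂ) * s2 + (1 / 2 : ℂ) * t1
      - (1 / 2 : ℂ) * t2 - (1 / 2 : ℂ) * hXef

end Pool.Agent.H684Z.QS
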